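import Pool.Agent.MP_a43263_nt.JR.Basic

/-! THEOREM R: transvections on the second layer force scalars. -/

set_option autoImplicit false

noncomputable section

namespace Pool.Agent.MP_a43263_nt.JR

open Finset

namespace Abs

variable {G A : Type} [Group G] [AddCommGroup A] {ρ : G → A →+ A}

/-- The action of `τ` on the layer `n + 2` is read off from `D`. -/
def Rel (ρ : G → A →+ A) (D : A →+ A) (τ : G) (n : ℕ) : Prop :=
  ∀ Q, 2 ^ (n + 2) • Q = 0 → ρ τ Q - Q = D (2 ^ n • Q)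

section one

variable {D : A →+ A} {e : A} (hm : ∀ σ τ P, ρ (σ * τ) P = ρ σ (ρ τ P))
  (hv : ∀ X, 2 ^ 2 • X = 0 → ∃ m : ℕ, D X = m • e) (hz : ∀ X (m : ℕ), 2 • X = m • e → D X = 0)
  (he : 2 • e = 0) (hf : ∀ σ, ρ σ e = e)

include hm hv hz he in
theorem Rel.sq {τ : G} {n : ℕ} (h : Rel ρ D τ n) : Rel ρ D (τ * τ) (n + 1) := by
  intro Q hQ
  have h1 := h (2 • Q) (by rw [← mul_nsmul, ← pow_succ']; exact hQ)
  rw [← mul_nsmul, ← pow_succ'] at h1
  obtain ⟨m, h2⟩ := hv (2 ^ (n + 1) • Q) (by rw [← mul_nsmul, ← pow_add]; exact hQ)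
  have h3 : 2 • (ρ τ Q - Q) = m • e := by rw [nsmul_sub, ← map_nsmul, h1, h2]
  have h4 := h (ρ τ Q - Q) (by
    rw [pow_succ', mul_nsmul, h3, pow_succ', mul_nsmul, smul_comm 2 m, he, smul_zero, smul_zero])
  rw [hz _ (2 ^ n * m) (by rw [smul_comm, h3, mul_smul]), map_sub] at h4
  rw [hm, ← h1, two_nsmul, map_add, sub_eq_zero.1 (show ρ τ (ρ τ Q) - (ρ τ Q + ρ τ Q - Q) = 0 by
    rw [← h4]; abel)]
  abel

include hm hv he hf in
theorem Rel.odd {τ : G} {n : ℕ} (h : Rel ρ D τ n) (j : ℕ) : Rel ρ D (τ ^ (2 * j + 1)) n := by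
  intro Q hQ
  obtain ⟨m, h2⟩ := hv (2 ^ n • Q) (by rw [← mul_nsmul, ← pow_add]; exact hQ)
  have h1 := h Q hQ
  have key : ∀ i : ℕ, ρ (τ ^ (i + 1)) Q = Q + (i + 1) • m • e := fun i => by
    induction i with
    | zero => rw [zero_add, pow_one, one_smul, ← h2, ← h1]; abel
    | succ i ih =>
      rw [pow_succ', hm, ih, map_add, map_nsmul, map_nsmul, hf, sub_eq_iff_eq_add.1 h1, h2,
        succ_nsmul _ (i + 1)]
      abel
  rw [key, h2, succ_nsmul, mul_nsmul, smul_comm 2 m, he, smul_zero, smul_zero]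
  abel

include hm hv hz he hf in
/-- An endomorphism that commutes with a power of `σ` commutes with `D` on the second layer. -/
theorem comm (hd : ∀ P : A, ∃ Q, 2 • Q = P) {σ : G} (h0 : ∀ Q, D Q = ρ σ Q - Q) {N : ℕ}
    (hN : N ≠ 0) {φ : A →+ A} (hφ : ∀ P, φ (ρ (σ ^ N) P) = ρ (σ ^ N) (φ P)) {X : A}
    (hX : 2 ^ 2 • X = 0) : φ (D X) = D (φ X) := by
  obtain ⟨n, j, ⟨j, rfl⟩, rfl⟩ := Nat.exists_eq_two_pow_mul_odd hN
  have r1 : ∀ n, Rel ρ D (σ ^ 2 ^ n) n := fun n => by
    induction n with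
    | zero => intro Q _; simp [h0]
    | succ n ih => rw [pow_succ, pow_mul, pow_two]; exact ih.sq hm hv hz he
  have r2 := (r1 n).odd hm hv he hf j
  rw [← pow_mul] at r2
  obtain ⟨Q, rfl⟩ : ∃ Q, 2 ^ n • Q = X := by
    clear hX r2 hφ hN
    induction n with
    | zero => exact ⟨X, by simp⟩
    | succ n ih =>
      obtain ⟨Q, rfl⟩ := ih
      obtain ⟨R, rfl⟩ := hd Q
      exact ⟨R, by rw [pow_succ', mul_nsmul]⟩
  have hQ : 2 ^ (n + 2) • Q = 0 := by rw [pow_add, mul_nsmul]; exact hX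
  rw [← r2 Q hQ, map_nsmul, ← r2 (φ Q) (by rw [← map_nsmul, hQ, map_zero]), map_sub, hφ]

end one

end Abs

theorem abs : ABSStmt := by
  intro G A ι _ _ _ _ ρ W hm hd ho _ _ h2 hs hW hsp ht U hU
  have two : ∀ i, W i + W i = 0 := fun i => by rw [← two_nsmul, h2]
  have fix : ∀ σ P, 2 • P = 0 → ρ σ P = P := fun σ P hP => by
    obtain ⟨S, rfl⟩ := hsp P hP
    simp only [map_sum, hW]
  choose hf hh using hd
  have step : ∀ φ : A →+ A, (∀ σ ∈ U, ∀ P, φ (ρ σ P) = ρ σ (φ P)) →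
      ∃ c : ℤ, ∀ P, 2 • P = 0 → φ P = c • P := by
    intro φ hφ
    have pair : ∀ k l, φ (W k + W l) = 0 ∨ φ (W k + W l) = W k + W l := by
      intro k l
      by_cases hkl : k = l
      · exact .inl (by rw [hkl, two, map_zero])
      obtain ⟨σ, hσ⟩ := ht k l hkl
      obtain ⟨N, hN, -, hN'⟩ := Subgroup.exists_pow_mem_of_index_ne_zero hU.1 σ
      obtain ⟨D, hD⟩ : ∃ D : A →+ A, ∀ Q, D Q = ρ σ Q - Q := ⟨ρ σ - .id A, fun _ => rfl⟩
      have he : 2 • (W k + W l) = 0 := by rw [nsmul_add, h2, h2, add_zero]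
      have d0 : ∀ X Y, 2 • X = 2 • Y → D X = D Y := fun X Y h => by
        rw [← sub_eq_zero, ← map_sub, hD, fix σ _ (by rw [nsmul_sub, h, sub_self]), sub_self]
      have dk : D (hf (W k)) = W k + W l := by rw [hD, hσ k _ (hh _), if_pos (.inl rfl)]
      have dl : D (hf (W l)) = W k + W l := by rw [hD, hσ l _ (hh _), if_pos (.inr rfl)]
      have hv : ∀ X, 2 ^ 2 • X = 0 → ∃ m : ℕ, D X = m • (W k + W l) := fun X hX => by
        obtain ⟨S, hS⟩ := hsp (2 • X) (by rw [← mul_nsmul]; exact hX)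
        refine ⟨∑ i ∈ S, if i = k ∨ i = l then 1 else 0, ?_⟩
        rw [d0 X (∑ i ∈ S, hf (W i)) (by rw [hS, smul_sum]; simp only [hh]), map_sum, sum_smul]
        refine sum_congr rfl fun i _ => ?_
        rw [hD, hσ i _ (hh _)]
        split_ifs <;> simp
      have hz : ∀ X (m : ℕ), 2 • X = m • (W k + W l) → D X = 0 := fun X m h => by
        rw [d0 X (m • (hf (W k) + hf (W l))) (by rw [h, smul_comm, smul_add 2, hh, hh]),
          map_nsmul, map_add, dk, dl, ← two_nsmul, he, smul_zero]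
      have h4 : 2 ^ 2 • hf (W k) = 0 := by rw [pow_two, mul_nsmul, hh, h2]
      have := Abs.comm hm hv hz he (fun σ => fix σ _ he) (fun P => ⟨_, hh P⟩) hD hN.ne'
        (hφ _ hN') h4
      obtain ⟨m, hm'⟩ := hv (φ (hf (W k))) (by rw [← map_nsmul, h4, map_zero])
      rw [dk, hm'] at this
      obtain ⟨j, rfl | rfl⟩ := Nat.even_or_odd' m
      · exact .inl (by rw [this, mul_nsmul, he, smul_zero])
      · exact .inr (by rw [this, succ_nsmul, mul_nsmul, he, smul_zero, zero_add])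
    obtain ⟨i⟩ : Nonempty ι := Fintype.card_pos_iff.1 ho.pos
    obtain ⟨c, hc⟩ : ∃ c : ℤ, ∀ j, φ (W i + W j) = c • (W i + W j) := by
      by_contra hn
      push Not at hn
      obtain ⟨j, hj⟩ := hn 0
      obtain ⟨k, hk⟩ := hn 1
      rw [zero_smul] at hj
      rw [one_smul] at hk
      have e1 := (pair i j).resolve_left hj
      have e2 := (pair i k).resolve_right hk
      have e3 : φ (W j + W k) = W i + W j := by
        rw [show W j + W k = W i + W j + (W i + W k) - (W i + W i) by abel, two, sub_zero,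
          map_add, e1, e2, add_zero]
      rcases pair j k with e | e
      · exact hj (by rw [e1, ← e3, e])
      · have : W i = W k := add_right_cancel (b := W j) (by rw [← e3, e, add_comm])
        exact hk (by rw [e2, this, two])
    have hi : ∑ j, (W i + W j) = W i := by
      obtain ⟨j, hj⟩ := ho
      rw [sum_add_distrib, hs, add_zero, sum_const, card_univ, hj, succ_nsmul, mul_nsmul, h2,
        smul_zero, zero_add]
    have ci : φ (W i) = c • W i := by
      rw [← hi, map_sum, smul_sum]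
      exact sum_congr rfl fun j _ => hc j
    have cj : ∀ j, φ (W j) = c • W j := fun j => by
      have := hc j
      rwa [map_add, ci, smul_add, add_right_inj] at this
    refine ⟨c, fun P hP => ?_⟩
    obtain ⟨S, rfl⟩ := hsp P hP
    simp only [map_sum, cj, smul_sum]
  intro φ hφ k
  induction k generalizing φ with
  | zero => exact ⟨0, fun P hP => by simp at hP; simp [hP]⟩
  | succ k ih =>
    obtain ⟨c, hc⟩ := step φ hφ
    have d0 : ∀ X Y, 2 • X = 2 • Y → φ X - c • X = φ Y - c • Y := fun X Y h => by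
      have := hc (X - Y) (by rw [nsmul_sub, h, sub_self])
      rw [map_sub, smul_sub] at this
      rw [sub_eq_iff_eq_add.1 this]
      abel
    obtain ⟨n, hn⟩ := ih (.mk' (fun P => φ (hf P) - c • hf P) fun P Q => by
      rw [d0 _ (hf P + hf Q) (by rw [nsmul_add, hh, hh, hh]), map_add, smul_add]
      abel) fun σ hσ P => by
        simp only [AddMonoidHom.mk'_apply]
        rw [d0 _ (ρ σ (hf P)) (by rw [← map_nsmul, hh, hh]), hφ σ hσ, map_sub, map_zsmul]
    refine ⟨c + 2 * n, fun P hP => ?_⟩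
    have := hn (2 • P) (by rw [← mul_nsmul, ← pow_succ']; exact hP)
    simp only [AddMonoidHom.mk'_apply] at this
    rw [d0 _ P (hh _), sub_eq_iff_eq_add] at this
    rw [this, add_smul, two_nsmul, two_mul, add_smul, smul_add]
    abel

end Pool.Agent.MP_a43263_nt.JR
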