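import Pool.Agent.MP_a43263_nt.JR.Spec2
import Pool.Agent.MP_a43263_nt.JR.Abs

/-! THEOREM R: transvections on the source that are trivial on the target force orthogonality. -/

set_option autoImplicit false

noncomputable section

namespace Pool.Agent.MP_a43263_nt.JR

open Finset

namespace Abs2

variable {G A : Type} [Group G] [AddCommGroup A] {ρ : G → A →+ A} {D : A →+ A} {e : A}

theorem rel_pow (hm : ∀ σ τ P, ρ (σ * τ) P = ρ σ (ρ τ P))
    (hv : ∀ X, 2 ^ 2 • X = 0 → ∃ m : ℕ, D X = m • e) (hz : ∀ X (m : ℕ), 2 • X = m • e → D X = 0)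
    (he : 2 • e = 0) (hf : ∀ σ, ρ σ e = e) {σ : G} (h0 : Abs.Rel ρ D σ 0) (n j : ℕ) :
    Abs.Rel ρ D (σ ^ (2 ^ n * (2 * j + 1))) n := by
  have r1 : Abs.Rel ρ D (σ ^ 2 ^ n) n := by
    induction n with
    | zero => simpa using h0
    | succ n ih => rw [pow_succ, pow_mul, pow_two]; exact ih.sq hm hv hz he
  rw [pow_mul]
  exact r1.odd hm hv he hf j

theorem div_pow (hd : ∀ P : A, ∃ Q, 2 • Q = P) (X : A) (n : ℕ) : ∃ Q, 2 ^ n • Q = X := by
  induction n with
  | zero => exact ⟨X, by simp⟩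
  | succ n ih =>
    obtain ⟨Q, rfl⟩ := ih
    obtain ⟨R, rfl⟩ := hd Q
    exact ⟨R, by rw [pow_succ', mul_nsmul]⟩

end Abs2

theorem abs2 : ABS2Stmt := by
  intro G A B ι _ _ _ _ _ ρ ρ' W hm hm' hd ho h2 hs hW hsp ht U hU
  have two : ∀ i, W i + W i = 0 := fun i => by rw [← two_nsmul, h2]
  have fix : ∀ σ P, 2 • P = 0 → ρ σ P = P := fun σ P hP => by
    obtain ⟨S, rfl⟩ := hsp P hP
    simp only [map_sum, hW]
  choose hf hh using hd
  have step : ∀ φ : A →+ B, (∀ σ ∈ U, ∀ P, φ (ρ σ P) = ρ' σ (φ P)) →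
      ∀ P, 2 • P = 0 → φ P = 0 := by
    intro φ hφ
    have pair : ∀ k l, φ (W k + W l) = 0 := by
      intro k l
      by_cases hkl : k = l
      · rw [hkl, two, map_zero]
      obtain ⟨σ, hσ, hσ'⟩ := ht k l hkl
      obtain ⟨N, hN, -, hN'⟩ := Subgroup.exists_pow_mem_of_index_ne_zero hU.1 σ
      obtain ⟨D, hD⟩ : ∃ D : A →+ A, ∀ Q, D Q = ρ σ Q - Q := ⟨ρ σ - .id A, fun _ => rfl⟩
      have he : 2 • (W k + W l) = 0 := by rw [nsmul_add, h2, h2, add_zero]
      have d0 : ∀ X Y, 2 • X = 2 • Y → D X = D Y := fun X Y h => by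
        rw [← sub_eq_zero, ← map_sub, hD, fix σ _ (by rw [nsmul_sub, h, sub_self]), sub_self]
      have dk : D (hf (W k)) = W k + W l := by rw [hD, hσ k _ (hh _), if_pos (.inl rfl)]
      have dl : D (hf (W l)) = W k + W l := by rw [hD, hσ l _ (hh _), if_pos (.inr rfl)]
      have hv : ∀ X, 2 ^ 2 • X = 0 → ∃ m : ℕ, D X = m • (W k + W l) := fun X hX => by
        obtain ⟨S, hS⟩ := hsp (2 • X) (by rw [← mul_nsmul]; exact hX)
        refine ⟨∑ i ∈ S, if i = k ∨ i = l then 1 else 0, ?_⟩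
        rw [d0 X (∑ i ∈ S, hf (W i)) (by rw [hS, smul_sum]; simp only [hh]), map_sum, sum_smul]
        refine sum_congr rfl fun i _ => ?_
        rw [hD, hσ i _ (hh _)]
        split_ifs <;> simp
      have hz : ∀ X (m : ℕ), 2 • X = m • (W k + W l) → D X = 0 := fun X m h => by
        rw [d0 X (m • (hf (W k) + hf (W l))) (by rw [h, smul_comm, smul_add 2, hh, hh]),
          map_nsmul, map_add, dk, dl, ← two_nsmul, he, smul_zero]
      obtain ⟨n, j, ⟨j, rfl⟩, rfl⟩ := Nat.exists_eq_two_pow_mul_odd hN.ne'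
      have r1 := Abs2.rel_pow hm hv hz he (fun σ => fix σ _ he) (σ := σ)
        (fun Q _ => by simp [hD]) n j
      have r2 := Abs2.rel_pow (D := 0) (e := 0) hm' (fun _ _ => ⟨0, by simp⟩) (fun _ _ _ => rfl)
        (smul_zero _) (fun _ => map_zero _) (σ := σ)
        (fun Q hQ => sub_eq_zero.2 (hσ' Q hQ)) n j
      obtain ⟨Q, hQ⟩ := Abs2.div_pow (fun P => ⟨_, hh P⟩) (hf (W k)) n
      have h4 : 2 ^ (n + 2) • Q = 0 := by rw [pow_add, mul_nsmul, hQ, pow_two, mul_nsmul, hh, h2]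
      rw [← dk, ← hQ, ← r1 Q h4, map_sub, hφ _ hN']
      exact r2 (φ Q) (by rw [← map_nsmul, h4, map_zero])
    have ci : ∀ i, φ (W i) = 0 := fun i => by
      have hi : ∑ j, (W i + W j) = W i := by
        obtain ⟨j, hj⟩ := ho
        rw [sum_add_distrib, hs, add_zero, sum_const, card_univ, hj, succ_nsmul, mul_nsmul, h2,
          smul_zero, zero_add]
      rw [← hi, map_sum]
      exact sum_eq_zero fun j _ => pair i j
    intro P hP
    obtain ⟨S, rfl⟩ := hsp P hP
    rw [map_sum]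
    exact sum_eq_zero fun j _ => ci j
  intro φ hφ k
  induction k generalizing φ with
  | zero => exact fun P hP => by simp at hP; simp [hP]
  | succ k ih =>
    have d0 : ∀ X Y, 2 • X = 2 • Y → φ X = φ Y := fun X Y h => by
      rw [← sub_eq_zero, ← map_sub]
      exact step φ hφ _ (by rw [nsmul_sub, h, sub_self])
    intro P hP
    have := ih (.mk' (fun P => φ (hf P)) fun P Q => by
      rw [d0 _ (hf P + hf Q) (by rw [nsmul_add, hh, hh, hh]), map_add]) (fun σ hσ P => by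
        simp only [AddMonoidHom.mk'_apply]
        rw [d0 _ (ρ σ (hf P)) (by rw [← map_nsmul, hh, hh]), hφ σ hσ]) (2 • P)
      (by rw [← mul_nsmul, ← pow_succ']; exact hP)
    simp only [AddMonoidHom.mk'_apply] at this
    rwa [d0 _ P (hh _)] at this

end Pool.Agent.MP_a43263_nt.JR
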