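import Pool.Agent.MP_a43263_nt.JR.Abs2

/-! THEOREM R: one transvection that is trivial on the target forces orthogonality. -/

set_option autoImplicit false

noncomputable section

namespace Pool.Agent.MP_a43263_nt.JR

open Finset

theorem triv_pow {G B : Type} [Group G] [AddCommGroup B] {ρ : G → B →+ B}
    (hm : ∀ σ τ P, ρ (σ * τ) P = ρ σ (ρ τ P)) (h2 : ∀ σ Q, 2 • Q = 0 → ρ σ Q = Q) (σ : G)
    (n j : ℕ) (Q : B) (hQ : 2 ^ (n + 1) • Q = 0) : ρ (σ ^ (2 ^ n * (j + 1))) Q = Q := by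
  have r1 : ρ (σ ^ 2 ^ n) Q = Q := by
    induction n generalizing Q with
    | zero => exact h2 _ _ (by simpa using hQ)
    | succ n ih =>
      have e := ih (2 • Q) (by rw [← mul_nsmul, ← pow_succ']; exact hQ)
      have d : 2 • (ρ (σ ^ 2 ^ n) Q - Q) = 0 := by rw [nsmul_sub, ← map_nsmul, e, sub_self]
      have f := h2 (σ ^ 2 ^ n) _ d
      rw [map_sub, sub_eq_iff_eq_add] at f
      rw [pow_succ, pow_mul, pow_two, hm, f, ← sub_eq_zero, ← d, two_nsmul]
      abel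
  rw [pow_mul]
  induction j with
  | zero => simpa using r1
  | succ j ih => rw [pow_succ', hm, ih, r1]

theorem abs3 {G A B ι : Type} [Group G] [AddCommGroup A] [AddCommGroup B] [Fintype ι]
    [DecidableEq ι] {ρ : G → A →+ A} {ρ' : G → B →+ B} {W : ι → A}
    (hm : ∀ σ τ P, ρ (σ * τ) P = ρ σ (ρ τ P)) (hm' : ∀ σ τ P, ρ' (σ * τ) P = ρ' σ (ρ' τ P))
    (hd : ∀ P : A, ∃ Q, 2 • Q = P) (ho : Odd (Fintype.card ι)) (h2 : ∀ i, 2 • W i = 0)
    (hs : ∑ i, W i = 0) (hW : ∀ σ i, ρ σ (W i) = W i)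
    (hsp : ∀ P : A, 2 • P = 0 → ∃ S : Finset ι, P = ∑ i ∈ S, W i)
    (hB : ∀ σ Q, 2 • Q = 0 → ρ' σ Q = Q)
    (ht : ∀ k l, k ≠ l → ∃ σ, ∀ i Q, 2 • Q = W i →
      ρ σ Q - Q = if i = k ∨ i = l then W k + W l else 0)
    {k₀ l₀ : ι} (hkl : k₀ ≠ l₀) {σ₀ : G} (h0 : ∀ i Q, 2 • Q = W i →
      ρ σ₀ Q - Q = if i = k₀ ∨ i = l₀ then W k₀ + W l₀ else 0)
    (h1 : ∀ Q : B, 2 ^ 2 • Q = 0 → ρ' σ₀ Q = Q) : Ort ρ ρ' := by
  intro U hU
  have two : ∀ i, W i + W i = 0 := fun i => by rw [← two_nsmul, h2]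
  have fix : ∀ σ P, 2 • P = 0 → ρ σ P = P := fun σ P hP => by
    obtain ⟨S, rfl⟩ := hsp P hP
    simp only [map_sum, hW]
  choose hf hh using hd
  have step : ∀ φ : A →+ B, (∀ σ ∈ U, ∀ P, φ (ρ σ P) = ρ' σ (φ P)) →
      ∀ P, 2 • P = 0 → φ P = 0 := by
    intro φ hφ
    have key : ∀ k l σ, (∀ i Q, 2 • Q = W i →
        ρ σ Q - Q = if i = k ∨ i = l then W k + W l else 0) → ∀ X, 2 ^ 2 • X = 0 →
        (∀ n j Q, 2 ^ n • Q = X → ρ' (σ ^ (2 ^ n * (2 * j + 1))) (φ Q) = φ Q) →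
        φ (ρ σ X - X) = 0 := by
      intro k l σ hσ X hX hσ'
      obtain ⟨N, hN, -, hN'⟩ := Subgroup.exists_pow_mem_of_index_ne_zero hU.1 σ
      obtain ⟨D, hD⟩ : ∃ D : A →+ A, ∀ Q, D Q = ρ σ Q - Q := ⟨ρ σ - .id A, fun _ => rfl⟩
      have he : 2 • (W k + W l) = 0 := by rw [nsmul_add, h2, h2, add_zero]
      have d0 : ∀ X Y, 2 • X = 2 • Y → D X = D Y := fun X Y h => by
        rw [← sub_eq_zero, ← map_sub, hD, fix σ _ (by rw [nsmul_sub, h, sub_self]), sub_self]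
      have dk : D (hf (W k)) = W k + W l := by rw [hD, hσ k _ (hh _), if_pos (.inl rfl)]
      have dl : D (hf (W l)) = W k + W l := by rw [hD, hσ l _ (hh _), if_pos (.inr rfl)]
      have hv : ∀ X, 2 ^ 2 • X = 0 → ∃ m : ℕ, D X = m • (W k + W l) := fun X hX => by
        obtain ⟨S, hS⟩ := hsp (2 • X) (by rw [← mul_nsmul]; exact hX)
        refine ⟨∑ i ∈ S, if i = k ∨ i = l then 1 else 0, ?_⟩
        rw [d0 X (∑ i ∈ S, hf (W i)) (by rw [hS, smul_sum]; simp only [hh]), map_sum, sum_smul]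
        refine sum_congr rfl fun i _ => ?_
        rw [hD, hσ i _ (hh _)]
        split_ifs <;> simp
      have hz : ∀ X (m : ℕ), 2 • X = m • (W k + W l) → D X = 0 := fun X m h => by
        rw [d0 X (m • (hf (W k) + hf (W l))) (by rw [h, smul_comm, smul_add 2, hh, hh]),
          map_nsmul, map_add, dk, dl, ← two_nsmul, he, smul_zero]
      obtain ⟨n, j, ⟨j, rfl⟩, rfl⟩ := Nat.exists_eq_two_pow_mul_odd hN.ne'
      have r1 := Abs2.rel_pow hm hv hz he (fun σ => fix σ _ he) (σ := σ)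
        (fun Q _ => by simp [hD]) n j
      obtain ⟨Q, hQ⟩ := Abs2.div_pow (fun P => ⟨_, hh P⟩) X n
      have h4 : 2 ^ (n + 2) • Q = 0 := by rw [pow_add, mul_nsmul, hQ, hX]
      rw [← hD, ← hQ, ← r1 Q h4, map_sub, hφ _ hN', hσ' n j Q hQ, sub_self]
    have h4 : ∀ i, 2 ^ 2 • hf (W i) = 0 := fun i => by rw [pow_two, mul_nsmul, hh, h2]
    have p0 : φ (W k₀ + W l₀) = 0 := by
      have := key k₀ l₀ σ₀ h0 _ (h4 k₀) fun n j Q hQ => sub_eq_zero.1
        (Abs2.rel_pow (D := 0) (e := 0) hm' (fun _ _ => ⟨0, by simp⟩) (fun _ _ _ => rfl)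
          (smul_zero _) (fun _ => map_zero _) (σ := σ₀)
          (fun Q hQ => sub_eq_zero.2 (h1 Q hQ)) n j (φ Q)
          (by rw [← map_nsmul, pow_add, mul_nsmul, hQ, h4, map_zero]))
      rwa [h0 k₀ _ (hh _), if_pos (.inl rfl)] at this
    have pair : ∀ l, φ (W k₀ + W l) = 0 := fun l => by
      by_cases c1 : k₀ = l
      · rw [← c1, two, map_zero]
      by_cases c2 : l₀ = l
      · exact c2 ▸ p0
      obtain ⟨σ, hσ⟩ := ht k₀ l c1
      have := key k₀ l σ hσ (hf (W k₀) + hf (W l₀)) (by rw [nsmul_add, h4, h4, add_zero])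
        fun n j Q hQ => triv_pow hm' hB σ n (2 * j) _ (by
          rw [← map_nsmul, pow_succ, mul_nsmul, hQ, nsmul_add, hh, hh, p0])
      rwa [map_add, add_sub_add_comm, hσ k₀ _ (hh _), hσ l₀ _ (hh _), if_pos (.inl rfl),
        if_neg (not_or.2 ⟨hkl.symm, c2⟩), add_zero] at this
    have c0 : φ (W k₀) = 0 := by
      have hi : ∑ j, (W k₀ + W j) = W k₀ := by
        obtain ⟨j, hj⟩ := ho
        rw [sum_add_distrib, hs, add_zero, sum_const, card_univ, hj, succ_nsmul, mul_nsmul, h2,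
          smul_zero, zero_add]
      rw [← hi, map_sum]
      exact sum_eq_zero fun j _ => pair j
    intro P hP
    obtain ⟨S, rfl⟩ := hsp P hP
    rw [map_sum]
    exact sum_eq_zero fun j _ => by simpa only [map_add, c0, zero_add] using pair j
  intro φ hφ k
  induction k generalizing φ with
  | zero => exact fun P hP => by simp at hP; simp [hP]
  | succ k ih =>
    have d0 : ∀ X Y, 2 • X = 2 • Y → φ X = φ Y := fun X Y h => by
      rw [← sub_eq_zero, ← map_sub]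
      exact step φ hφ _ (by rw [nsmul_sub, h, sub_self])
    intro P hP
    have := ih (.mk' (fun P => φ (hf P)) fun P Q => by
      rw [d0 _ (hf P + hf Q) (by rw [nsmul_add, hh, hh, hh]), map_add]) (fun σ hσ P => by
        simp only [AddMonoidHom.mk'_apply]
        rw [d0 _ (ρ σ (hf P)) (by rw [← map_nsmul, hh, hh]), hφ σ hσ]) (2 • P)
      (by rw [← mul_nsmul, ← pow_succ']; exact hP)
    simp only [AddMonoidHom.mk'_apply] at this
    rwa [d0 _ P (hh _)] at this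

end Pool.Agent.MP_a43263_nt.JR
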