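import Pool.Agent.MP_a43263_nt.JR.Basic

/-! THEOREM R: the configuration is a union of products of hexagons. -/

set_option autoImplicit false

noncomputable section

namespace Pool.Agent.MP_a43263_nt.JR

open Finset JC Function

namespace CfgA

/-- the two matchings of the hexagon -/
def mv (b : Bool) : Fin 6 → Fin 6 := if b = true then ![5, 2, 1, 4, 3, 0] else ![1, 0, 3, 2, 5, 4]

/-- the two coordinates of a vertex of the hexagon -/
def cd (b : Bool) : Fin 6 → ℕ := if b = true then ![0, 0, 1, 1, 2, 2] else ![0, 1, 1, 2, 2, 0]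

theorem mv_mv : ∀ b p, mv b (mv b p) = p := by decide
theorem cd_ne : ∀ b p, cd b (mv b p) ≠ cd b p := by decide
theorem cd_eq : ∀ b b' p, b' ≠ b → cd b' (mv b p) = cd b' p := by decide
theorem cd_uq : ∀ b p q, cd (!b) q = cd (!b) p → q = p ∨ q = mv b p := by decide
theorem mv_hex : ∀ b p, mv (!b) (mv b p) ≠ mv b (mv (!b) p) := by decide
theorem cd_inj : ∀ p q, cd false p = cd false q → cd true p = cd true q → p = q := by decide

variable {n r : ℕ}

def crd (x : Fin n × (Fin r → Fin 6)) : Dir r → ℕ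
  | .inl _ => x.1
  | .inr d => cd d.2 (x.2 d.1)

def nb (d : Fin r × Bool) (x : Fin n × (Fin r → Fin 6)) : Fin n × (Fin r → Fin 6) :=
  (x.1, update x.2 d.1 (mv d.2 (x.2 d.1)))

theorem crd_inj {x y : Fin n × (Fin r → Fin 6)} (h : crd x = crd y) : x = y :=
  Prod.ext (Fin.ext (congrFun h (.inl false))) (funext fun k =>
    cd_inj _ _ (congrFun h (.inr (k, false))) (congrFun h (.inr (k, true))))

theorem nb_nb (d : Fin r × Bool) (x : Fin n × (Fin r → Fin 6)) : nb d (nb d x) = x := by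
  simp [nb, mv_mv]

theorem nb_ne (d : Fin r × Bool) (x : Fin n × (Fin r → Fin 6)) :
    crd (nb d x) (.inr d) ≠ crd x (.inr d) := by
  simpa [nb, crd] using cd_ne _ _

theorem nb_eq (d : Fin r × Bool) (x : Fin n × (Fin r → Fin 6)) :
    ∀ d', d' ≠ .inr d → crd (nb d x) d' = crd x d'
  | .inl _, _ => rfl
  | .inr d', h => by
    obtain ⟨k, b⟩ := d
    obtain ⟨k', b'⟩ := d'
    by_cases e : k' = k
    · subst e
      simp only [nb, crd, update_self]
      exact cd_eq _ _ _ fun e => h (by rw [e])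
    · simp only [nb, crd, update_of_ne e]

theorem nb_uq (d : Fin r × Bool) (x y : Fin n × (Fin r → Fin 6))
    (h : ∀ d', d' ≠ .inr d → crd y d' = crd x d') : y = x ∨ y = nb d x := by
  obtain ⟨k, b⟩ := d
  have h1 : y.1 = x.1 := Fin.ext (h (.inl false) (by simp))
  have h2 : ∀ k', k' ≠ k → y.2 k' = x.2 k' := fun k' e =>
    cd_inj _ _ (h (.inr (k', false)) (by simp [e])) (h (.inr (k', true)) (by simp [e]))
  refine (cd_uq b _ _ (h (.inr (k, !b)) (by simp))).imp (fun e => Prod.ext h1 (funext fun k' => ?_))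
    fun e => Prod.ext h1 (eq_update_iff.2 ⟨e, h2⟩)
  by_cases c : k' = k
  · rw [c, e]
  · exact h2 k' c

theorem nb_hex (d : Fin r × Bool) (x : Fin n × (Fin r → Fin 6)) :
    nb (bar d) (nb d x) ≠ nb d (nb (bar d) x) := fun e =>
  mv_hex d.2 (x.2 d.1) (by simpa [nb, bar] using congrFun (congrArg Prod.snd e) d.1)

end CfgA

open CfgA in
theorem cfg : CFGStmt := by
  rintro g r hg ⟨n, hn⟩
  let E : Fin n × (Fin r → Fin 6) ≃ Fin (2 * g) := Fintype.equivFinOfCardEq (by simp [hn, mul_comm])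
  let C : Cfg g r := ⟨Fin.cases (fun _ => 0) fun j => crd (E.symm j),
    fun d => Fin.cases 0 fun j => (E (nb d (E.symm j))).succ⟩
  have h1 : ∀ x, C.crd (E x).succ = crd x := fun x => by simp [C]
  have h2 : ∀ d x, C.nb d (E x).succ = (E (nb d x)).succ := fun d x => by simp [C]
  have h3 : ∀ i : Vx g, i ≠ 0 → ∃ x, i = (E x).succ := fun i hi => by
    obtain ⟨j, rfl⟩ := Fin.eq_succ_of_ne_zero hi
    exact ⟨E.symm j, by simp⟩
  refine ⟨C, hg, fun i m hi hm e => ?_, fun i => ?_, fun d i hi => ?_, fun d i hi => ?_,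
    fun d i hi => ?_, fun d i d' hi e => ?_, fun d i m hi hm e => ?_, fun d i hi => ?_⟩
  · obtain ⟨x, rfl⟩ := h3 i hi
    obtain ⟨y, rfl⟩ := h3 m hm
    rw [h1, h1] at e
    rw [crd_inj e]
  · by_cases hi : i = 0
    · rw [hi]; rfl
    · obtain ⟨x, rfl⟩ := h3 i hi
      rw [h1]; rfl
  · obtain ⟨x, rfl⟩ := h3 i hi
    rw [h2]
    exact Fin.succ_ne_zero _
  · obtain ⟨x, rfl⟩ := h3 i hi
    rw [h2, h2, nb_nb]
  · obtain ⟨x, rfl⟩ := h3 i hi
    rw [h2, h1, h1]
    exact nb_ne d x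
  · obtain ⟨x, rfl⟩ := h3 i hi
    rw [h2, h1, h1]
    exact nb_eq d x d' e
  · obtain ⟨x, rfl⟩ := h3 i hi
    obtain ⟨y, rfl⟩ := h3 m hm
    rw [h1, h1] at e
    rw [h2]
    exact (nb_uq d x y e).imp (fun c => by rw [c]) fun c => by rw [c]
  · obtain ⟨x, rfl⟩ := h3 i hi
    rw [h2, h2, h2, h2]
    exact fun e => nb_hex d x (E.injective (Fin.succ_injective _ e))

end Pool.Agent.MP_a43263_nt.JR
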