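import Pool.Agent.MP_a43263_nt.JR.Spec2
import Pool.Agent.MP_a43263_nt.JR.Cfg

/-! THEOREM R, second part: the product of hexagons is a block. -/

set_option autoImplicit false

noncomputable section

namespace Pool.Agent.MP_a43263_nt.JR

open Finset JC Function CfgA

namespace Blk1

variable {r : ℕ}

def pt (x : Fin 1 × (Fin r → Fin 6)) : Fin r × Bool → ℕ := fun d => crd x (.inr d)

theorem pt_inj : Injective (pt (r := r)) := fun x y h => crd_inj (funext fun d => by
  rcases d with b | d
  · exact congrArg Fin.val (Subsingleton.elim x.1 y.1)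
  · exact congrFun h d)

theorem uq {d : Fin r × Bool} {x y : Fin 1 × (Fin r → Fin 6)} (h : Ag d (pt x) (pt y)) :
    y = x ∨ y = nb d x := nb_uq d x y fun d' e => by
  rcases d' with b | d'
  · exact congrArg Fin.val (Subsingleton.elim y.1 x.1)
  · exact h d' fun c => e (by rw [c])

theorem ne (d : Fin r × Bool) (x : Fin 1 × (Fin r → Fin 6)) : nb d x ≠ x := fun e =>
  nb_ne d x (by rw [e])

theorem nb_inj (d : Fin r × Bool) : Injective (nb (n := 1) d) := Involutive.injective (nb_nb d)

end Blk1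

open Blk1 in
theorem blk1 : BLK1Stmt := by
  intro r
  refine ⟨univ.image pt, ⟨?_, ?_⟩, ?_, mem_image.2 ⟨(0, 0), mem_univ _, ?_⟩, ?_⟩
  · simp only [mem_image, mem_univ, true_and]
    rintro d _ ⟨a, rfl⟩
    refine ⟨_, ⟨nb d a, rfl⟩, fun e => ne d a (pt_inj e),
      fun d' e => nb_eq d a _ (by simpa using e), ?_⟩
    rintro _ ⟨c, rfl⟩ h
    exact (uq h).imp (congrArg pt) (congrArg pt)
  · simp only [mem_image, mem_univ, true_and]
    rintro d _ ⟨a, rfl⟩ _ ⟨b, rfl⟩ _ ⟨b', rfl⟩ _ ⟨c, rfl⟩ h1 h2 h3 h4 h5 h6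
    obtain rfl := (uq h3).resolve_left fun e => h1 (congrArg pt e)
    obtain rfl := (uq h4).resolve_left fun e => h2 (congrArg pt e)
    rcases uq h5 with rfl | rfl <;> rcases uq h6 with e | e
    · exact nb_ne d a (by rw [e, nb_eq (bar d) a _ (by simpa using (bar_ne d).symm)])
    · exact ne _ a (nb_inj d e).symm
    · exact ne _ a (nb_inj _ e)
    · exact nb_hex d a e
  · rw [card_image_of_injective _ pt_inj]
    simp
  · funext d
    exact (by decide : ∀ b, cd b 0 = 0) d.2
  · simp only [mem_image, mem_univ, true_and]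
    rintro _ ⟨a, rfl⟩ d
    exact (by decide : ∀ b p, cd b p < 3) d.2 _

end Pool.Agent.MP_a43263_nt.JR
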