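import Pool.Agent.MP_a43263_nt.JR.Spec2

/-! THEOREM R: two copies of a block glued at a vertex, which is removed. -/

set_option autoImplicit false

noncomputable section

namespace Pool.Agent.MP_a43263_nt.JR

open Finset

namespace Blk2A

variable {r : ℕ} {S T : Finset (Fin r × Bool → ℕ)}

theorem ag_iff {f : ℕ → ℕ} (hf : Function.Injective f) (d : Fin r × Bool)
    (x y : Fin r × Bool → ℕ) : Ag d (f ∘ x) (f ∘ y) ↔ Ag d x y :=
  forall₂_congr fun _ _ => hf.eq_iff

theorem blk_image {f : ℕ → ℕ} (hf : Function.Injective f) (h : Blk S) :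
    Blk (S.image fun x => f ∘ x) := by
  constructor
  · simp only [forall_mem_image]
    intro d x hx
    obtain ⟨y, hy, e, a, u⟩ := h.two d x hx
    exact ⟨_, mem_image_of_mem _ hy, fun k => e (hf.comp_left k), (ag_iff hf d x y).2 a,
      fun z hz k => (u z hz ((ag_iff hf d x z).1 k)).imp (congrArg _) (congrArg _)⟩
  · simp only [forall_mem_image, ag_iff hf]
    intro d x hx y hy y' hy' z hz e e'
    exact h.hex d x hx y hy y' hy' z hz (fun k => e (congrArg _ k)) fun k => e' (congrArg _ k)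

/-- the only common value is zero -/
def Cr (S T : Finset (Fin r × Bool → ℕ)) : Prop := ∀ x ∈ S, ∀ y ∈ T, ∀ d, x d = y d → x d = 0

theorem Cr.symm (h : Cr S T) : Cr T S := fun y hy x hx d e => e.trans (h x hx y hy d e.symm)

theorem two_aux (hS : Blk S) (hT : Blk T) (s0 : 0 ∈ S) (t0 : 0 ∈ T) (c : Cr S T)
    (d : Fin r × Bool) {x : Fin r × Bool → ℕ} (hx : x ∈ S) (x0 : x ≠ 0) :
    ∃ y ∈ (S ∪ T).erase 0, y ≠ x ∧ Ag d x y ∧ ∀ z ∈ (S ∪ T).erase 0, Ag d x z → z = x ∨ z = y := by
  obtain ⟨y, hy, e, a, u⟩ := hS.two d x hx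
  by_cases y0 : y = 0
  · subst y0
    obtain ⟨y, hy, e', a', u'⟩ := hT.two d 0 t0
    refine ⟨y, mem_erase.2 ⟨e', mem_union_right _ hy⟩,
      fun k => x0 (funext fun j => c x hx y hy j (by rw [k])),
      fun j hj => (a' j hj).trans (a j hj), fun z hz k => ?_⟩
    obtain ⟨z0, hz⟩ := mem_erase.1 hz
    rcases mem_union.1 hz with hz | hz
    · exact Or.inl ((u z hz k).resolve_right z0)
    · exact Or.inr ((u' z hz fun j hj => (k j hj).trans (a j hj).symm).resolve_left z0)
  · refine ⟨y, mem_erase.2 ⟨y0, mem_union_left _ hy⟩, e, a, fun z hz k => ?_⟩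
    rcases mem_union.1 (mem_erase.1 hz).2 with hz | hz
    · exact u z hz k
    · exact ((u 0 s0 fun j hj => (c x hx z hz j (k j hj).symm).symm).elim
        (fun k => x0 k.symm) fun k => y0 k.symm).elim

theorem mix (c : Cr S T) {d : Fin r × Bool} {x y : Fin r × Bool → ℕ} (hx : x ∈ S ∪ T)
    (hy : y ∈ S ∪ T) (a : Ag d x y) (m : ¬(x ∈ S ↔ y ∈ S)) : ∀ e, e ≠ d → x e = 0 := by
  intro e he
  rw [mem_union] at hx hy
  by_cases k : x ∈ S
  · exact c x k y (by tauto) e (a e he).symm
  · exact c.symm x (by tauto) y (by tauto) e (a e he).symm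

theorem zero_of {d : Fin r × Bool} {x : Fin r × Bool → ℕ} (h : ∀ e, e ≠ d → x e = 0)
    (h' : ∀ e, e ≠ bar d → x e = 0) : x = 0 :=
  funext fun e => (em (e = d)).elim (fun k => h' e (k ▸ (bar_ne d).symm)) (h e)

theorem eq_of {d : Fin r × Bool} {x y : Fin r × Bool → ℕ} (a : Ag d x y) (h : y d = x d) : y = x :=
  funext fun e => (em (e = d)).elim (fun k => k ▸ h) (a e)

theorem glue (hS : Blk S) (hT : Blk T) (s0 : 0 ∈ S) (t0 : 0 ∈ T) (c : Cr S T) :
    Blk ((S ∪ T).erase 0) := by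
  constructor
  · intro d x hx
    obtain ⟨x0, hx⟩ := mem_erase.1 hx
    rcases mem_union.1 hx with hx | hx
    · exact two_aux hS hT s0 t0 c d hx x0
    · rw [union_comm]
      exact two_aux hT hS t0 s0 c.symm d hx x0
  · intro d x hx y hy y' hy' z hz e e' a1 a2 a3 a4
    obtain ⟨x0, hx⟩ := mem_erase.1 hx
    obtain ⟨y0, hy⟩ := mem_erase.1 hy
    obtain ⟨y0', hy'⟩ := mem_erase.1 hy'
    obtain ⟨z0, hz⟩ := mem_erase.1 hz
    have m1 := mix c hx hy a1
    have m2 := mix c hx hy' a2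
    have m3 := mix c hy hz a3
    have m4 := mix c hy' hz a4
    have h12 := fun p q => x0 (zero_of (m1 p) (m2 q))
    have h13 := fun p q => y0 (zero_of (fun j hj => (a1 j hj).trans (m1 p j hj)) (m3 q))
    have h24 := fun p q => y0' (zero_of (m4 q) fun j hj => (a2 j hj).trans (m2 p j hj))
    have h34 := fun p q => z0 (zero_of (fun j hj => (a4 j hj).trans (m4 q j hj))
      fun j hj => (a3 j hj).trans (m3 p j hj))
    have h14 := fun p q => e' (eq_of a2 ((m4 q _ (bar_ne d)).trans (m1 p _ (bar_ne d)).symm))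
    have h23 := fun p q =>
      e (eq_of a1 ((m3 q _ (bar_ne d).symm).trans (m2 p _ (bar_ne d).symm).symm))
    clear m1 m2 m3 m4
    rw [mem_union] at hx hy hy' hz
    by_cases k : x ∈ S
    · have : y ∈ S ∧ y' ∈ S ∧ z ∈ S := by
        by_cases y ∈ S <;> by_cases y' ∈ S <;> by_cases z ∈ S <;> simp_all
      exact hS.hex d x k y this.1 y' this.2.1 z this.2.2 e e' a1 a2 a3 a4
    · have : y ∉ S ∧ y' ∉ S ∧ z ∉ S := by
        by_cases y ∈ S <;> by_cases y' ∈ S <;> by_cases z ∈ S <;> simp_all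
      exact hT.hex d x (hx.resolve_left k) y (hy.resolve_left this.1) y'
        (hy'.resolve_left this.2.1) z (hz.resolve_left this.2.2) e e' a1 a2 a3 a4

/-- the new names of the values -/
def ps (n : ℕ) : ℕ := if n = 0 then 0 else n + 2

theorem ps_inj : Function.Injective ps := by
  intro a b h
  unfold ps at h
  split_ifs at h <;> omega

end Blk2A

open Blk2A in
theorem blk2 : BLK2Stmt := by
  intro r S hS s0 h3
  have t0 : 0 ∈ S.image fun x => ps ∘ x := mem_image.2 ⟨0, s0, rfl⟩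
  have c : Cr S (S.image fun x => ps ∘ x) := by
    intro x hx y hy d e
    obtain ⟨y, _, rfl⟩ := mem_image.1 hy
    have := h3 x hx d
    rw [Function.comp_apply, ps] at e
    split_ifs at e <;> omega
  refine ⟨_, glue hS (blk_image ps_inj hS) s0 t0 c, ?_⟩
  have h1 := card_erase_add_one (mem_union_left (S.image fun x => ps ∘ x) s0)
  have h2 := card_union_add_card_inter S (S.image fun x => ps ∘ x)
  have h4 : S ∩ (S.image fun x => ps ∘ x) = {0} :=
    eq_singleton_iff_unique_mem.2 ⟨mem_inter.2 ⟨s0, t0⟩, fun x hx =>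
      funext fun d => c x (mem_inter.1 hx).1 x (mem_inter.1 hx).2 d rfl⟩
  rw [h4, card_singleton, card_image_of_injective _ ps_inj.comp_left] at h2
  omega

end Pool.Agent.MP_a43263_nt.JR
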