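import Pool.Agent.MP_a43263_nt.JR.Spec2

/-! THEOREM R: a configuration made of blocks. -/

set_option autoImplicit false

noncomputable section

namespace Pool.Agent.MP_a43263_nt.JR

open Finset JC

namespace CfgB

variable {n r : ℕ} {S : Fin n → Finset (Fin r × Bool → ℕ)}

def crd (x : Σ c, S c) : Dir r → ℕ
  | .inl _ => x.1
  | .inr d => x.2.1 d

theorem ext' {x y : Σ c, S c} (h : x.1 = y.1) (k : x.2.1 = y.2.1) : x = y := by
  obtain ⟨c, x, hx⟩ := x
  obtain ⟨c', y, hy⟩ := y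
  obtain rfl : c = c' := h
  obtain rfl : x = y := k
  rfl

theorem crd_inj {x y : Σ c, S c} (h : crd x = crd y) : x = y :=
  ext' (Fin.ext (congrFun h (.inl false))) (funext fun d => congrFun h (.inr d))

variable (hS : ∀ c, Blk (S c))

def nb (d : Fin r × Bool) (x : Σ c, S c) : Σ c, S c :=
  ⟨x.1, ((hS x.1).two d _ x.2.2).choose, ((hS x.1).two d _ x.2.2).choose_spec.1⟩

theorem ne' (d : Fin r × Bool) (x : Σ c, S c) : (nb hS d x).2.1 ≠ x.2.1 :=
  ((hS x.1).two d _ x.2.2).choose_spec.2.1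

theorem ag (d : Fin r × Bool) (x : Σ c, S c) : Ag d x.2.1 (nb hS d x).2.1 :=
  ((hS x.1).two d _ x.2.2).choose_spec.2.2.1

theorem uq (d : Fin r × Bool) (x y : Σ c, S c) (h : y.1 = x.1) (k : Ag d x.2.1 y.2.1) :
    y = x ∨ y = nb hS d x :=
  (((hS x.1).two d _ x.2.2).choose_spec.2.2.2 y.2.1 (h ▸ y.2.2) k).imp (ext' h) (ext' h)

theorem nb_nb (d : Fin r × Bool) (x : Σ c, S c) : nb hS d (nb hS d x) = x :=
  ((uq hS d (nb hS d x) x rfl fun d' e => (ag hS d x d' e).symm).resolve_left fun e =>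
    ne' hS d x (by rw [← e])).symm

theorem nb_ne (d : Fin r × Bool) (x : Σ c, S c) :
    crd (nb hS d x) (.inr d) ≠ crd x (.inr d) := fun e =>
  ne' hS d x (funext fun d' => by
    by_cases c : d' = d
    · rw [c]; exact e
    · exact ag hS d x d' c)

theorem nb_eq (d : Fin r × Bool) (x : Σ c, S c) :
    ∀ d', d' ≠ .inr d → crd (nb hS d x) d' = crd x d'
  | .inl _, _ => rfl
  | .inr d', h => ag hS d x d' fun e => h (by rw [e])

theorem nb_uq (d : Fin r × Bool) (x y : Σ c, S c)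
    (h : ∀ d', d' ≠ .inr d → crd y d' = crd x d') : y = x ∨ y = nb hS d x :=
  uq hS d x y (Fin.ext (h (.inl false) (by simp))) fun d' e => h (.inr d') (by simpa using e)

theorem nb_hex (d : Fin r × Bool) (x : Σ c, S c) :
    nb hS (bar d) (nb hS d x) ≠ nb hS d (nb hS (bar d) x) := fun e =>
  (hS x.1).hex d _ x.2.2 _ (nb hS d x).2.2 _ (nb hS (bar d) x).2.2 _
    (nb hS (bar d) (nb hS d x)).2.2 (ne' hS d x) (ne' hS (bar d) x) (ag hS d x) (ag hS (bar d) x)
    (ag hS (bar d) (nb hS d x)) (by rw [e]; exact ag hS d _)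

end CfgB

open CfgB in
theorem cfga : CFGAStmt := by
  intro g r n S hg hS hn
  let E : (Σ c, S c) ≃ Fin (2 * g) := Fintype.equivFinOfCardEq (by
    rw [Fintype.card_sigma, ← hn]
    exact sum_congr rfl fun c _ => Fintype.card_coe _)
  let C : Cfg g r := ⟨Fin.cases (fun _ => 0) fun j => crd (E.symm j),
    fun d => Fin.cases 0 fun j => (E (nb hS d (E.symm j))).succ⟩
  have h1 : ∀ x, C.crd (E x).succ = crd x := fun x => by simp [C]
  have h2 : ∀ d x, C.nb d (E x).succ = (E (nb hS d x)).succ := fun d x => by simp [C]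
  have h3 : ∀ i : Vx g, i ≠ 0 → ∃ x, i = (E x).succ := fun i hi => by
    obtain ⟨j, rfl⟩ := Fin.eq_succ_of_ne_zero hi
    exact ⟨E.symm j, by simp⟩
  refine ⟨C, hg, fun i m hi hm e => ?_, fun i => ?_, fun d i hi => ?_, fun d i hi => ?_,
    fun d i hi => ?_, fun d i d' hi e => ?_, fun d i m hi hm e => ?_, fun d i hi => ?_⟩
  · obtain ⟨x, rfl⟩ := h3 i hi
    obtain ⟨y, rfl⟩ := h3 m hm
    rw [h1, h1] at e
    rw [crd_inj e]
  · by_cases hi : i = 0
    · rw [hi]; rfl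
    · obtain ⟨x, rfl⟩ := h3 i hi
      rw [h1]; rfl
  · obtain ⟨x, rfl⟩ := h3 i hi
    rw [h2]
    exact Fin.succ_ne_zero _
  · obtain ⟨x, rfl⟩ := h3 i hi
    rw [h2, h2, nb_nb]
  · obtain ⟨x, rfl⟩ := h3 i hi
    rw [h2, h1, h1]
    exact nb_ne hS d x
  · obtain ⟨x, rfl⟩ := h3 i hi
    rw [h2, h1, h1]
    exact nb_eq hS d x d' e
  · obtain ⟨x, rfl⟩ := h3 i hi
    obtain ⟨y, rfl⟩ := h3 m hm
    rw [h1, h1] at e
    rw [h2]
    exact (nb_uq hS d x y e).imp (fun c => by rw [c]) fun c => by rw [c]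
  · obtain ⟨x, rfl⟩ := h3 i hi
    rw [h2, h2, h2, h2]
    exact fun e => nb_hex hS d x (E.injective (Fin.succ_injective _ e))

end Pool.Agent.MP_a43263_nt.JR
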