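import Pool.Agent.MP_a43263_nt.JR.Basic

/-! THEOREM R: the residue conditions of the two forms of a pair. -/

set_option autoImplicit false

noncomputable section

namespace Pool.Agent.MP_a43263_nt.JR

open Finset Polynomial JC
open CubA (sg w Y sg_pm sg_sq sg_add w_mul w_prod w_sq w_neg w_sg Yp_ed sum_star)

namespace CoreA

variable {g r : ℕ}

def rr (p q : Vx g → ℤ) (v : ℤ × ℤ) (m : Vx g) : ℤ := p m * v.1 + q m * v.2

def T (p q : Vx g → ℤ) (v : ℤ × ℤ) (a b : Vx g) (t : Fin 2) : ℤ := rr p q v a + sg t * rr p q v b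

variable {p q : Vx g → ℤ}

theorem LZ_eq (k : Ed g × Fin 2) (v : ℤ × ℤ) :
    (fam 1 p q).LZ k v = T p q v k.1.1.1 k.1.1.2 k.2 := by
  simp only [HS.LZ, fam, T, rr, sg]; ring

theorem root_eq (k : Ed g × Fin 2) : (fam 1 p q).rootZ k =
    (q k.1.1.1 + sg k.2 * q k.1.1.2, -(p k.1.1.1 + sg k.2 * p k.1.1.2)) := rfl

theorem T_comm (v : ℤ × ℤ) (a b : Vx g) (t : Fin 2) : T p q v b a t = sg t * T p q v a b t := by
  unfold T
  linear_combination (-rr p q v b) * sg_sq t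

theorem T_shift (e : Ed g) (s t : Fin 2) (m : Vx g) :
    T p q ((fam 1 p q).rootZ (e, s)) e.1.2 m (s + t) =
      -(sg s * T p q ((fam 1 p q).rootZ (e, s)) e.1.1 m t) := by
  simp only [T, sg_add, rr, root_eq]
  rcases sg_pm s with h | h <;> rw [h] <;> ring

theorem T_TT (e : Ed g) (s t : Fin 2) (m : Vx g) :
    T p q ((fam 1 p q).rootZ (e, s)) e.1.1 m t = TT p q e.1.1 e.1.2 s m t := by
  simp only [T, rr, root_eq, TT]; ring

theorem aZ_eq (v : ℤ × ℤ) (m : Vx g) : (fam 1 p q).aZ v m = rr p q v 0 ^ 2 - rr p q v m ^ 2 := by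
  unfold HS.aZ
  split_ifs with h
  · simp only [HS.DZ, Fin.prod_univ_two, LZ_eq, T]
    show 1 * ((rr p q v 0 + -1 * rr p q v m) * (rr p q v 0 + 1 * rr p q v m)) = _
    ring
  · rw [show m = 0 from le_antisymm (not_lt.1 h) (Fin.zero_le _)]; ring

theorem gam_eq (h : Ed g × Fin 2) : (fam 1 p q).gam h = ∏ m ∈ univ.filter (fun m => ¬On m h.1),
    -(∏ t, (T p q ((fam 1 p q).rootZ h) h.1.1.1 m t : ℚ)) := by
  rw [HS.gam_eq, HS.gamZ, gm, Int.cast_prod]
  refine prod_congr rfl fun m _ => ?_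
  rw [aZ_eq, aZ_eq, Fin.prod_univ_two]
  simp only [T, show sg 0 = -1 from rfl, show sg 1 = 1 from rfl]
  push_cast
  ring

theorem T_ne (hne : ∀ h k, h ≠ k → (fam 1 p q).LZ h ((fam 1 p q).rootZ k) ≠ 0) (e : Ed g)
    (s : Fin 2) {m : Vx g} (hm : ¬On m e) (t : Fin 2) :
    T p q ((fam 1 p q).rootZ (e, s)) e.1.1 m t ≠ 0 := by
  obtain ⟨e', he'⟩ := exists_ed (show e.1.1 ≠ m from fun c => hm (Or.inl c.symm))
  have := hne (e', t) (e, s) fun c => hm (by
    rw [← (Prod.mk.inj c).1]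
    exact he'.elim (fun h => Or.inr h.2.symm) fun h => Or.inl h.1.symm)
  rw [LZ_eq] at this
  rcases he' with ⟨a1, a2⟩ | ⟨a1, a2⟩ <;> simp only [a1, a2] at this
  · exact this
  · rw [T_comm] at this
    exact right_ne_zero_of_mul this

theorem one {y : Finset (Ed g × Fin 2)}
    (hne : ∀ h k, h ≠ k → (fam 1 p q).LZ h ((fam 1 p q).rootZ k) ≠ 0)
    {u : Vx g → ℚ} (hy : (fam 1 p q).InS u y) (l : ℕ) [Fact l.Prime] (e : Ed g) (s : Fin 2) :
    w l (u e.1.1) + w l (u e.1.2) + ∑ m ∈ univ.filter (fun m => ¬On m e),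
      ∑ t, (Y y e.1.1 e.1.2 s + Y y e.1.1 m t + Y y e.1.2 m (s + t)) *
        w l (T p q ((fam 1 p q).rootZ (e, s)) e.1.1 m t) = 0 := by
  obtain ⟨h0, -, -, h⟩ := hy
  have h1 := w_sq (p := l) (h (e, s))
  have hL : ∀ a, ∀ k ∈ (y.filter fun k => k.1 ≠ e).filter (fun k => On a k.1),
      (fam 1 p q).L k ((fam 1 p q).root (e, s)) ≠ 0 := fun a k hk => by
    rw [HS.L_root]
    exact Int.cast_ne_zero.2 (hne _ _ fun c => (mem_filter.1 (mem_filter.1 hk).1).2 (by rw [c]))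
  have hd : ∀ a, On a e →
      (fam 1 p q).del u (y.filter fun k => k.1 ≠ e) ((fam 1 p q).root (e, s)) a ≠ 0 ∧
      w l ((fam 1 p q).del u (y.filter fun k => k.1 ≠ e) ((fam 1 p q).root (e, s)) a) = w l (u a) +
        ∑ m ∈ univ.filter (fun m => ¬On m e), ∑ t,
          Y y a m t * w l (T p q ((fam 1 p q).rootZ (e, s)) a m t) := fun a ha => by
    unfold HS.del
    refine ⟨mul_ne_zero (by simpa using h0 a) (prod_ne_zero_iff.2 (hL a)), ?_⟩
    rw [w_mul (by simpa using h0 a) (prod_ne_zero_iff.2 (hL a)), w_prod _ _ (hL a),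
      ← sum_star (fun a b t => w l (T p q ((fam 1 p q).rootZ (e, s)) a b t))
        (fun a b t => by rw [T_comm _ a b, w_sg]) e ha]
    simp only [HS.L_root, LZ_eq, Rat.cast_id]
  have hT : ∀ m ∈ univ.filter (fun m => ¬On m e), ∀ t,
      (T p q ((fam 1 p q).rootZ (e, s)) e.1.1 m t : ℚ) ≠ 0 := fun m hm t =>
    Int.cast_ne_zero.2 (T_ne hne e s (mem_filter.1 hm).2 t)
  have hg : (if (e, s) ∈ y then (fam 1 p q).gam (e, s) else 1) ≠ 0 ∧
      w l (if (e, s) ∈ y then (fam 1 p q).gam (e, s) else 1) =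
        ∑ m ∈ univ.filter (fun m => ¬On m e), Y y e.1.1 e.1.2 s *
          ∑ t, w l (T p q ((fam 1 p q).rootZ (e, s)) e.1.1 m t) := by
    have n : ∀ m ∈ univ.filter (fun m => ¬On m e),
        -(∏ t, (T p q ((fam 1 p q).rootZ (e, s)) e.1.1 m t : ℚ)) ≠ 0 := fun m hm =>
      neg_ne_zero.2 (prod_ne_zero_iff.2 fun t _ => hT m hm t)
    simp only [Y, Yp_ed]
    split_ifs
    · rw [gam_eq]
      refine ⟨prod_ne_zero_iff.2 n, ?_⟩
      rw [w_prod _ _ n]
      refine sum_congr rfl fun m hm => ?_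
      rw [w_neg, w_prod _ _ fun t _ => hT m hm t, one_mul]
    · simp [w]
  obtain ⟨a1, a2⟩ := hd _ (Or.inl rfl)
  obtain ⟨b1, b2⟩ := hd _ (Or.inr rfl)
  rw [w_mul (mul_ne_zero a1 b1) hg.1, w_mul a1 b1, a2, b2, hg.2] at h1
  have h2 : ∀ m, ∑ t, Y y e.1.2 m t * w l (T p q ((fam 1 p q).rootZ (e, s)) e.1.2 m t) =
      ∑ t, Y y e.1.2 m (s + t) * w l (T p q ((fam 1 p q).rootZ (e, s)) e.1.1 m t) := fun m => by
    rw [← Equiv.sum_comp (Equiv.addLeft s)]
    refine sum_congr rfl fun t _ => ?_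
    rw [Equiv.coe_addLeft, T_shift, Int.cast_neg, w_neg, w_sg]
  simp only [h2] at h1
  simp only [add_mul, sum_add_distrib, mul_sum] at h1 ⊢
  linear_combination h1

variable (C : Cfg g r) (z : Par r)

theorem pp_al (i : Vx g) : C.pp z i * C.al z i = ph i * ∏ l, C.al z l := by
  rw [Cfg.pp, ← mul_prod_erase univ (C.al z) (mem_univ i)]; ring

theorem qq_al (i : Vx g) : C.qq z i * C.al z i = C.be z i * ∏ l, C.al z l := by
  rw [Cfg.qq, ← mul_prod_erase univ (C.al z) (mem_univ i)]; ring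

theorem cross (a b : Vx g) : (C.pp z a * C.qq z b - C.qq z a * C.pp z b) * (C.al z a * C.al z b) =
    (∏ l, C.al z l) ^ 2 * C.dt z a b := by
  have : (C.pp z a * C.qq z b - C.qq z a * C.pp z b) * (C.al z a * C.al z b) =
      (C.pp z a * C.al z a) * (C.qq z b * C.al z b) -
        (C.qq z a * C.al z a) * (C.pp z b * C.al z b) := by ring
  rw [this, pp_al, pp_al, qq_al, qq_al, Cfg.dt]; ring

theorem LZ_DD (h k : Ed g × Fin 2) : (C.pen z).LZ h ((C.pen z).rootZ k) *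
    (C.al z h.1.1.1 * C.al z h.1.1.2 * (C.al z k.1.1.1 * C.al z k.1.1.2)) =
      (∏ l, C.al z l) ^ 2 * C.DD z h.1.1.1 h.1.1.2 h.2 k.1.1.1 k.1.1.2 k.2 := by
  have a1 := cross C z h.1.1.1 k.1.1.1
  have a2 := cross C z h.1.1.1 k.1.1.2
  have a3 := cross C z h.1.1.2 k.1.1.1
  have a4 := cross C z h.1.1.2 k.1.1.2
  simp only [Cfg.pen, LZ_eq, T, rr, root_eq, Cfg.DD, Cfg.fx, Cfg.fy, Cfg.dt] at *
  linear_combination (C.al z h.1.1.2 * C.al z k.1.1.2) * a1 +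
    (sg k.2 * C.al z h.1.1.2 * C.al z k.1.1.1) * a2 +
    (sg h.2 * C.al z h.1.1.1 * C.al z k.1.1.2) * a3 +
    (sg h.2 * sg k.2 * C.al z h.1.1.1 * C.al z k.1.1.1) * a4

theorem TT_D3 (a b : Vx g) (s : Fin 2) (m : Vx g) (t : Fin 2) :
    TT (C.pp z) (C.qq z) a b s m t * (C.al z a * C.al z b * C.al z m) =
      (∏ l, C.al z l) ^ 2 * C.D3 z a b s m t := by
  have a1 := cross C z a b
  have a2 := cross C z m a
  have a3 := cross C z m b
  simp only [TT, Cfg.D3]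
  linear_combination (sg s * C.al z m) * a1 + (sg t * C.al z b) * a2 +
    (sg s * sg t * C.al z a) * a3

theorem tau_sum (y : Finset (Ed g × Fin 2)) (a b m : Vx g) : ∑ s, ∑ t, tau y a b s m t = 0 := by
  have h2 : (2 : ZMod 2) = 0 := rfl
  simp only [Fin.sum_univ_two, tau, show (0 + 0 : Fin 2) = 0 from rfl,
    show (0 + 1 : Fin 2) = 1 from rfl, show (1 + 0 : Fin 2) = 1 from rfl,
    show (1 + 1 : Fin 2) = 0 from rfl]
  linear_combination (Y y a b 0 + Y y a b 1 + Y y a m 0 + Y y a m 1 + Y y b m 0 + Y y b m 1) * h2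

end CoreA

open CoreA

theorem core : COREStmt := by
  intro g p q hne
  refine ⟨fun e s m t hm => T_TT e s t m ▸ T_ne hne e s hm t, fun u y hy l hl e => ?_⟩
  have := Fact.mk hl
  have a := one hne hy l e 0
  have b := one hne hy l e 1
  simp only [T_TT] at a b
  rw [Fin.sum_univ_two]
  have h2 : (2 : ZMod 2) = 0 := rfl
  simp only [tau]
  linear_combination a + b - (w l (u e.1.1) + w l (u e.1.2)) * h2

theorem both : COREStmt → BOTHStmt := by
  intro hc g r C z hz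
  have hD : (∏ l, C.al z l) ≠ 0 := prod_ne_zero_iff.2 fun l _ => hz.al l
  have hne : ∀ h k, h ≠ k → (C.pen z).LZ h ((C.pen z).rootZ k) ≠ 0 := fun h k c e =>
    mul_ne_zero (pow_ne_zero 2 hD) (hz.dd h k c) (by rw [← LZ_DD, e, zero_mul])
  obtain ⟨h1, h2⟩ := hc g (C.pp z) (C.qq z) hne
  have hal : ∀ a b m, C.al z a * C.al z b * C.al z m ≠ 0 := fun a b m =>
    mul_ne_zero (mul_ne_zero (hz.al a) (hz.al b)) (hz.al m)
  have h3 : ∀ (e : Ed g) s m t, ¬On m e → C.D3 z e.1.1 e.1.2 s m t ≠ 0 := fun e s m t hm c =>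
    mul_ne_zero (h1 e s m t hm) (hal e.1.1 e.1.2 m) (by rw [TT_D3, c, mul_zero])
  refine ⟨hne, h3, fun u y hy l hl e => ?_⟩
  have := Fact.mk hl
  have key : ∀ s, ∀ m ∈ univ.filter (fun m => ¬On m e), ∀ t,
      w l (C.D3 z e.1.1 e.1.2 s m t : ℤ) = w l (TT (C.pp z) (C.qq z) e.1.1 e.1.2 s m t : ℤ) +
        w l (C.al z e.1.1 * C.al z e.1.2 * C.al z m : ℤ) := fun s m hm t => by
    have hm := (mem_filter.1 hm).2
    rw [← w_mul (Int.cast_ne_zero.2 (h1 e s m t hm)) (Int.cast_ne_zero.2 (hal _ _ _)),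
      ← Int.cast_mul, TT_D3, Int.cast_mul,
      w_mul (Int.cast_ne_zero.2 (pow_ne_zero 2 hD)) (Int.cast_ne_zero.2 (h3 e s m t hm)),
      w_sq (x := (((∏ l, C.al z l) ^ 2 : ℤ) : ℚ)) ⟨(∏ l, C.al z l : ℤ), by push_cast; ring⟩, zero_add]
  rw [sum_congr rfl fun s _ => sum_congr rfl fun m hm => sum_congr rfl fun t _ => by
    rw [key s m hm t, mul_add]]
  simp only [sum_add_distrib]
  rw [h2 u y hy l hl e, zero_add, sum_comm]
  refine sum_eq_zero fun m _ => ?_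
  simp only [← sum_mul]
  rw [tau_sum, zero_mul]

end Pool.Agent.MP_a43263_nt.JR
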