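import Pool.Agent.MP_a43263_nt.JR.Basic
import Pool.Agent.MP_a43263_nt.JC.Gens
import Pool.Agent.MP_a43263_nt.JC.Grp

/-! THEOREM R: the criterion for the hypotheses of THEOREM J. -/

set_option autoImplicit false

noncomputable section

namespace Pool.Agent.MP_a43263_nt.JR

open Finset JC

variable {g r : ℕ}

namespace Crit

variable {C : Cfg g r}

theorem mem_blk {S : Finset (Option (Fin r))} {h : Ed g × Fin 2} :
    h ∈ C.blk S ↔ ∃ x ∈ S, C.Nx x h := by simp [Cfg.blk]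

theorem uniq (hC : C.Ok) {x x' : Option (Fin r)} {h : Ed g × Fin 2} (a : C.Nx x h)
    (b : C.Nx x' h) : x = x' := by
  rcases x with _ | k <;> rcases x' with _ | k'
  · rfl
  · exact absurd (Eq.trans (Eq.symm a) b.1) (by decide)
  · exact absurd (Eq.trans (Eq.symm b) a.1) (by decide)
  · obtain ⟨-, h0, b1, e1⟩ := a
    obtain ⟨-, -, b2, e2⟩ := b
    exact congrArg some (congrArg Prod.fst (hC.nb_inj h0 (e1.symm.trans e2)))

theorem memb (hC : C.Ok) (x : Option (Fin r)) : ∃ h, C.Nx x h := by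
  have hg := hC.pos
  let i : Vx g := ⟨1, by omega⟩
  have hi : i ≠ 0 := by simp [i, Fin.ext_iff]
  rcases x with _ | k
  · exact ⟨(⟨(0, i), Fin.pos_iff_ne_zero.2 hi⟩, 1), rfl⟩
  · rcases lt_or_gt_of_ne (hC.nb_ne (k, true) hi) with c | c
    · exact ⟨(⟨(_, i), c⟩, 0), rfl, hC.n0 _ _ hi, true, (hC.inv _ _ hi).symm⟩
    · exact ⟨(⟨(i, _), c⟩, 0), rfl, hi, true, rfl⟩

theorem blk_inj (hC : C.Ok) {S S' : Finset (Option (Fin r))} (e : C.blk S = C.blk S') : S = S' := by
  have key : ∀ {S S' : Finset (Option (Fin r))}, C.blk S = C.blk S' → S ⊆ S' := fun e x hx => by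
    obtain ⟨h, a⟩ := memb hC x
    obtain ⟨x', b, c⟩ := mem_blk.1 (e ▸ mem_blk.2 ⟨x, hx, a⟩)
    exact uniq hC a c ▸ b
  exact (key e).antisymm (key e.symm)

theorem blk_insert (hC : C.Ok) {x : Option (Fin r)} {S : Finset (Option (Fin r))} (hx : x ∉ S) :
    symmDiff (C.blk {x}) (C.blk S) = C.blk (insert x S) := by
  ext h
  simp only [mem_symmDiff, mem_blk, mem_singleton, exists_eq_left, mem_insert, exists_eq_or_imp]
  constructor
  · rintro (a | a)
    exacts [.inl a.1, .inr a.1]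
  · rintro (a | ⟨y, a, b⟩)
    · exact .inl ⟨a, fun ⟨y, b, c⟩ => hx (uniq hC a c ▸ b)⟩
    · exact .inr ⟨⟨y, a, b⟩, fun c => hx (uniq hC c b ▸ a)⟩

theorem not_blk (S : Finset (Option (Fin r))) {i : Vx g} (hi : 0 < i) :
    ((⟨(0, i), hi⟩, 0) : Ed g × Fin 2) ∉ C.blk S := fun a => by
  obtain ⟨_ | k, -, b⟩ := mem_blk.1 a
  · exact absurd (show (0 : Fin 2) = 1 from b) (by decide)
  · exact b.2.1 rfl

theorem par_inj (hC : C.Ok) {α α' : Finset (Vx g)} {S S' : Finset (Option (Fin r))}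
    (h0 : 0 ∉ α) (h0' : 0 ∉ α')
    (e : symmDiff (cut 2 α) (C.blk S) = symmDiff (cut 2 α') (C.blk S')) : α = α' ∧ S = S' := by
  have ea : α = α' := Finset.ext fun i => by
    by_cases c : i = 0
    · rw [c]; tauto
    · have hi := Fin.pos_iff_ne_zero.2 c
      have := Finset.ext_iff.1 e (⟨(0, i), hi⟩, 0)
      simpa [mem_symmDiff, not_blk _ hi, cut, h0, h0'] using this
  subst ea
  exact ⟨rfl, blk_inj hC (symmDiff_right_injective _ e)⟩

theorem gd_blk (hC : C.Ok) {F : HS g 2} (h : F.Bas) (hx : ∀ x, ∃ u, F.Gd u (C.blk {x}))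
    (S : Finset (Option (Fin r))) : ∃ u, F.Gd u (C.blk S) := by
  induction S using Finset.induction_on with
  | empty =>
    obtain ⟨u, hu⟩ := Gens.gd_cut grp0 tw h ∅
    refine ⟨u, ?_⟩
    convert hu using 1
    ext j
    simp [cut, mem_blk]
  | insert x S a ih =>
    obtain ⟨u, hu⟩ := hx x
    obtain ⟨u', hu'⟩ := ih
    exact ⟨_, blk_insert hC a ▸ Gens.gd_mul grp0 h hu hu'⟩

end Crit

open Crit in
theorem crit : CRITStmt := by
  intro g r C F hC h hx hS
  have hg : ∀ α S, ∃ u, F.Gd u (symmDiff (cut 2 α) (C.blk S)) := fun α S => by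
    obtain ⟨u, hu⟩ := Gens.gd_cut grp0 tw h α
    obtain ⟨u', hu'⟩ := gd_blk hC h hx S
    exact ⟨_, Gens.gd_mul grp0 h hu hu'⟩
  refine ⟨h.pos, h.ev, h.c0, h.ne, h.sum, ?_, fun u y hy => ?_⟩
  · have e : {y | ∃ u, F.InS u y} = ↑(((univ.erase (0 : Vx g)).powerset ×ˢ
        (univ : Finset (Finset (Option (Fin r))))).image
        fun x => symmDiff (cut 2 x.1) (C.blk x.2)) := by
      ext y
      simp only [Set.mem_ofPred_eq, coe_image, Set.mem_image, mem_coe, mem_product, mem_powerset]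
      constructor
      · rintro ⟨u, hu⟩
        obtain ⟨α, S, rfl⟩ := hS u y hu
        by_cases c : 0 ∈ α
        · exact ⟨(αᶜ, S), ⟨fun i hi => mem_erase.2 ⟨fun e => mem_compl.1 hi (e ▸ c), mem_univ _⟩,
            mem_univ _⟩, by rw [Gens.cut_compl]⟩
        · exact ⟨(α, S), ⟨fun i hi => mem_erase.2 ⟨fun e => c (e ▸ hi), mem_univ _⟩, mem_univ _⟩,
            rfl⟩
      · rintro ⟨x, -, rfl⟩
        exact (hg x.1 x.2).imp fun _ k => k.1
    rw [e, Set.ncard_coe_finset, card_image_of_injOn, card_product, card_powerset,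
      card_erase_of_mem (mem_univ _), card_univ, card_univ, Fintype.card_finset,
      Fintype.card_option, Fintype.card_fin, Fintype.card_fin, Nat.add_sub_cancel, ← pow_add]
    intro x hx x' hx' e
    have k := fun {z : Finset (Vx g) × Finset (Option (Fin r))}
      (hz : z ∈ (univ.erase (0 : Vx g)).powerset ×ˢ univ) (c : 0 ∈ z.1) =>
        notMem_erase _ _ (mem_powerset.1 (mem_product.1 hz).1 c)
    exact Prod.ext_iff.2 (par_inj hC (k hx) (k hx') e)
  · obtain ⟨α, S, rfl⟩ := hS u y hy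
    obtain ⟨u', hu'⟩ := hg α S
    exact (Gens.gd_of h hy hu').2

end Pool.Agent.MP_a43263_nt.JR
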