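import Pool.Agent.MP_a43263_nt.JR.Basic

/-! An automorphism of the algebraic numbers that changes the sign of one square root. -/

set_option autoImplicit false

noncomputable section

namespace Pool.Agent.MP_a43263_nt.JR

open Finset Polynomial JC
open CubA (sg w Y sg_pm w_prod w_sq)

namespace Gal

/-- the sign of a residue -/
def ep (c : ZMod 2) : Qbar := if c = 0 then 1 else -1

theorem two (c : ZMod 2) : c = 0 ∨ c = 1 := by revert c; decide

theorem ep_add (c d : ZMod 2) : ep (c + d) = ep c * ep d := by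
  have h : (1 + 1 : ZMod 2) = 0 := rfl
  rcases two c with rfl | rfl <;> rcases two d with rfl | rfl <;> simp [ep, h]

theorem ep_inj {c d : ZMod 2} (h : ep c = ep d) : c = d := by
  have h1 : (1 : Qbar) ≠ -1 := by norm_num
  rcases two c with rfl | rfl <;> rcases two d with rfl | rfl <;> simp_all [ep, h1.symm]

theorem ep_sum {ι : Type} (S : Finset ι) (c : ι → ZMod 2) :
    ep (∑ i ∈ S, c i) = ∏ i ∈ S, ep (c i) := by
  classical
  induction S using Finset.induction_on with
  | empty => simp [ep]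
  | insert a S ha ih => rw [sum_insert ha, prod_insert ha, ep_add, ih]

theorem map_ep (σ : Qbar ≃ₐ[ℚ] Qbar) (c : ZMod 2) : σ (ep c) = ep c := by
  unfold ep; split_ifs <;> simp

theorem sign (σ : Qbar ≃ₐ[ℚ] Qbar) {x : ℚ} {ρ : Qbar} (h : ρ ^ 2 = x) :
    ∃ c, σ ρ = ep c * ρ := by
  have : σ ρ ^ 2 = ρ ^ 2 := by rw [← map_pow, h, map_ratCast]
  rcases sq_eq_sq_iff_eq_or_eq_neg.1 this with e | e
  exacts [⟨0, by simp [ep, e]⟩, ⟨1, by simp [ep, e]⟩]

end Gal

open Gal in
theorem gal : GALStmt := fun ι _ _ x i₀ p hp hx hw => by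
  have := Fact.mk hp
  choose ro hro using fun i => IsAlgClosed.exists_pow_nat_eq (x i : Qbar) two_pos
  have r0 : ∀ i, ro i ≠ 0 := fun i e => hx i (by
    have := hro i
    rw [e, zero_pow two_ne_zero] at this
    exact_mod_cast this.symm)
  choose ch hch using fun σ i => sign σ (hro i)
  have add : ∀ σ τ, ch (σ * τ) = ch σ + ch τ := fun σ τ => funext fun i => ep_inj (by
    have := hch (σ * τ) i
    rw [AlgEquiv.mul_apply, hch τ, map_mul, map_ep, hch σ, ← mul_assoc] at this
    rw [Pi.add_apply, ep_add, mul_comm]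
    exact (mul_right_cancel₀ (r0 i) this).symm)
  have one : ch 1 = 0 := by simpa using add 1 1
  let H : Submodule (ZMod 2) (ι → ZMod 2) :=
    { carrier := Set.range ch
      add_mem' := by rintro _ _ ⟨σ, rfl⟩ ⟨τ, rfl⟩; exact ⟨_, add σ τ⟩
      zero_mem' := ⟨1, one⟩
      smul_mem' := by
        rintro c _ ⟨σ, rfl⟩
        rcases two c with rfl | rfl
        exacts [⟨1, by rw [zero_smul, one]⟩, ⟨σ, (one_smul _ _).symm⟩] }
  by_cases h : Pi.single i₀ 1 ∈ H
  · obtain ⟨σ, hσ⟩ := h
    refine ⟨σ, fun i ρ e => ?_⟩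
    have e1 := hch σ i
    rw [hσ, Pi.single_apply] at e1
    rcases sq_eq_sq_iff_eq_or_eq_neg.1 (e.trans (hro i).symm) with rfl | rfl <;>
      split_ifs at e1 ⊢ <;> simp [ep, e1]
  obtain ⟨φ, f1, f2⟩ := H.exists_dual_map_eq_bot_of_notMem h inferInstance
  let S : Finset ι := univ.filter fun i => φ (Pi.single i 1) ≠ 0
  have key : ∀ σ, ∑ i ∈ S, ch σ i = 0 := fun σ => by
    have e : φ (ch σ) = 0 := by
      rw [← Submodule.mem_bot (R := ZMod 2), ← f2]
      exact Submodule.mem_map_of_mem ⟨σ, rfl⟩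
    rw [← univ_sum_single (ch σ), map_sum] at e
    rw [sum_filter]
    refine (sum_congr rfl fun i _ => ?_).trans e
    rw [show Pi.single i (ch σ i) = ch σ i • Pi.single (M := fun _ => ZMod 2) i 1 by
      rw [← Pi.single_smul, smul_eq_mul, mul_one], map_smul, smul_eq_mul]
    rcases two (φ (Pi.single i 1)) with a | a <;> simp [a]
  obtain ⟨q, hq⟩ := rat_of_fixed (x := ∏ i ∈ S, ro i) fun σ => by
    rw [map_prod, prod_congr rfl fun i _ => hch σ i, prod_mul_distrib, ← ep_sum, key, ep,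
      if_pos rfl, one_mul]
  have e : ∏ i ∈ S, x i = q * q := by
    have : ((∏ i ∈ S, x i : ℚ) : Qbar) = (q * q : ℚ) := by
      rw [Rat.cast_mul, hq, ← prod_mul_distrib, Rat.cast_prod]
      exact prod_congr rfl fun i _ => by rw [← hro, sq]
    exact_mod_cast this
  have e1 := w_sq (p := p) ⟨q, e⟩
  rw [w_prod S x fun i _ => hx i, sum_congr rfl fun i _ => hw i, sum_ite_eq',
    if_pos (show i₀ ∈ S from mem_filter.2 ⟨mem_univ _, f1⟩)] at e1
  exact absurd e1 one_ne_zero

end Pool.Agent.MP_a43263_nt.JR
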