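import Pool.Agent.MP_a43263_nt.JR.Finq
import Pool.Agent.MP_a43263_nt.JR.Gal
import Pool.Agent.MP_a43263_nt.JR.Abs

/-! THEOREM R, row KUM: the Galois action on the 4-torsion. -/

set_option autoImplicit false

noncomputable section

namespace Pool.Agent.MP_a43263_nt.JR

open Finset Polynomial JC Sha
open CubA (w w_zero)

namespace Kum

variable {g : ℕ}

/-- an automorphism that changes the roots of one difference and fixes the roots of the `x j` -/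
theorem sgn {B : ℕ} {a : Vx g → ℤ} (hi : Function.Injective a) (hp : PvB B a) {κ : Type}
    [Fintype κ] [DecidableEq κ] (x : κ → ℤ) (hx : ∀ j, x j ≠ 0 ∧ (x j).natAbs ≤ B) {k l : Vx g}
    (hkl : k ≠ l) : ∃ σ : Qbar ≃ₐ[ℚ] Qbar, (∀ i m, i ≠ m → ∀ ρ : Qbar,
      ρ ^ 2 = ((a i : ℚ) : Qbar) - (a m : ℚ) →
      σ ρ = if (i = k ∨ i = l) ∧ (m = k ∨ m = l) then -ρ else ρ) ∧
      ∀ j (ρ : Qbar), ρ ^ 2 = x j → σ ρ = ρ := by
  obtain ⟨e, he⟩ := exists_ed hkl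
  obtain ⟨p, p1, p0, p2⟩ := hp e
  obtain ⟨σ, hσ⟩ := gal (Option (Ed g) ⊕ κ)
    (Sum.elim (fun x => x.elim (-1) fun e => (a e.1.2 - a e.1.1 : ℤ)) fun j => x j)
    (.inl (some e)) p p1 (by
      rintro ((_ | e) | j)
      · simp
      · exact Int.cast_ne_zero.2 (sub_ne_zero.2 fun c => ed_ne e (hi c).symm)
      · exact Int.cast_ne_zero.2 (hx j).1)
    (by
      rintro ((_ | e') | j)
      · simp [w]
      · simpa using p2 e'
      · rw [if_neg (by simp)]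
        exact w_zero fun c => (Nat.le_of_dvd (Int.natAbs_pos.2 (hx j).1)
          (Int.natCast_dvd.1 c)).not_gt ((hx j).2.trans_lt p0))
  obtain ⟨I, hI⟩ := IsAlgClosed.exists_pow_nat_eq (-1 : Qbar) two_pos
  have I0 : I ≠ 0 := ne_of_sq hI (by simp)
  have I1 : σ I = I := by simpa using hσ (.inl none) I (by simpa using hI)
  have key : ∀ e' : Ed g, ((.inl (some e') : Option (Ed g) ⊕ κ) = .inl (some e)) ↔
      (e'.1.1 = k ∨ e'.1.1 = l) ∧ (e'.1.2 = k ∨ e'.1.2 = l) := fun e' => by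
    have h1 := e.2
    have h2 := e'.2
    rw [Sum.inl.injEq, Option.some_inj, Subtype.ext_iff, Prod.ext_iff]
    rcases he with ⟨rfl, rfl⟩ | ⟨rfl, rfl⟩ <;> simp only [Fin.ext_iff, Fin.lt_def] at * <;> omega
  refine ⟨σ, fun i m c ρ hρ => ?_, fun j ρ hρ => by simpa using hσ (.inr j) ρ (by simpa using hρ)⟩
  obtain ⟨e', ⟨rfl, rfl⟩ | ⟨rfl, rfl⟩⟩ := exists_ed c
  · have := hσ (.inl (some e')) (I * ρ) (by simp [mul_pow, hI, hρ])
    rw [map_mul, I1] at this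
    refine mul_left_cancel₀ I0 (this.trans ?_)
    simp only [key]
    split_ifs <;> ring
  · have := hσ (.inl (some e')) ρ (by simp [hρ])
    simpa only [key, and_comm] using this

variable {a : Vx g → ℚ} (h : Cv g a (fp a))

/-- the Weierstrass points -/
def WW (a : Vx g → ℚ) (i : Vx g) : Jac (fp a) Qbar :=
  Additive.ofMul (cl (MI (fK (fp a) Qbar) (X - C (a i : Qbar)) 0))

include h

theorem zW (i : Vx g) : ZK a Qbar (WW a i) ⊤ (Zt.ev Qbar i) := Zt.zw pic mum (cvK h Qbar) i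

theorem z0 : ZK a Qbar 0 ⊤ fun _ => 1 :=
  ((T.zed _ _ g _ _ (cvK h Qbar)).2.2.2.2.1 _).2 fun _ => rfl

theorem zS (S : Finset (Vx g)) :
    ZK a Qbar (∑ i ∈ S, WW a i) ⊤ fun k => ∏ i ∈ S, Zt.ev Qbar i k := by
  induction S using Finset.induction_on with
  | empty => simpa using z0 h
  | insert i S hi ih => simpa only [sum_insert hi, prod_insert hi] using z_add T.zed h (zW h i) ih

theorem two {R : Jac (fp a) Qbar} {ρ : Vx g → Qbar} (z : ZK a Qbar R ⊤ ρ) : 2 • R = 0 := by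
  have hd := (mum _ _ g _ _ (cvK h Qbar)).1.2.2.2
  exact congrArg Additive.ofMul ((((T.zed _ _ g _ _ (cvK h Qbar)).1 _ _ _ _ z
    (mum _ _ g _ _ (cvK h Qbar)).2.2.2.2.2.2.2.2.2.2.2.1).1).trans (pic.1 _).2.1)

/-- a representative that avoids the Weierstrass points -/
theorem rep (i : Vx g) : ∃ U V : ℚ[X],
    Mum (fun i => (a i : Qbar)) (fK (fp a) Qbar) (U.map (Rat.castHom _)) (V.map (Rat.castHom _)) ∧
    cl (MI (fK (fp a) Qbar) (U.map (Rat.castHom _)) (V.map (Rat.castHom _))) = (WW a i).toMul ∧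
    ∀ m, m ≠ i → nb (U.map (Rat.castHom Qbar)) (a m) = (a i : Qbar) - a m := by
  obtain ⟨U, hm, hd, e, hv⟩ := Grp.ui h i
  obtain ⟨⟨-, -, -, hdom⟩, -, m2, m3, m4, m5, -, -, -, m9, -, -, -, -, m14, -⟩ :=
    mum _ _ g _ _ (cvK h Qbar)
  obtain ⟨-, -, p3, -⟩ := pic.1 (Rg (fK (fp a) Qbar))
  have ev : ∀ m, (U.map (Rat.castHom Qbar)).eval (a m : Qbar) = (tv a i m : ℚ) := fun m => by
    rw [← hv]
    exact Idx.ev_map (Rat.castHom Qbar) U (a m)
  have eV : (X - C (a i)).map (Rat.castHom Qbar) = X - C (a i : Qbar) := by simp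
  have mU := hm.map (Rat.castHom Qbar)
  have hUV : U.map (Rat.castHom Qbar) * (X - C (a i : Qbar)) =
      fK (fp a) Qbar - (X - C (a i : Qbar)) ^ 2 := by
    have := congrArg (Polynomial.map (Rat.castHom Qbar)) e
    rwa [Polynomial.map_mul, eV, Polynomial.map_sub, Polynomial.map_pow, eV, mul_comm] at this
  refine ⟨U, X - C (a i), ⟨mU, by rw [eV]; exact ⟨_, hUV.symm⟩, fun m => ?_⟩, ?_, fun m c => ?_⟩
  · rw [ev]
    exact Rat.cast_ne_zero.2 (Grp.tv_ne h i m)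
  · rw [eV, WW, toMul_ofMul]
    generalize U.map (Rat.castHom Qbar) = U' at *
    have mV : (X - C (a i : Qbar)).Monic := monic_X_sub_C _
    generalize X - C (a i : Qbar) = V at *
    have dv : V ∣ fK (fp a) Qbar - 0 ^ 2 := ⟨U' + V, by linear_combination -hUV⟩
    have nE := m9 U' V mU ⟨V, hUV.symm⟩
    have nM := m9 V 0 mV dv
    have hEM : MI _ U' V * MI _ V 0 = Ideal.span {(⟨-V, 1⟩ : Rg (fK (fp a) Qbar))} := by
      rw [← m5 V V 0 (by simp), m3 _ _ _ (hUV ▸ dvd_rfl), hUV, m4]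
    have hMM : MI _ V 0 * MI _ V 0 = PI (fK (fp a) Qbar) V := by
      simpa only [neg_zero] using m2 V 0 dv
    have y0 : (⟨-V, 1⟩ : Rg (fK (fp a) Qbar)) ≠ 0 := fun e =>
      one_ne_zero (congrArg QuadraticAlgebra.im e)
    apply mul_right_cancel (b := cl (MI (fK (fp a) Qbar) V 0))
    rw [← p3 _ _ (m14 _ _ nE).2.1 (m14 _ _ nM).2.1, ← p3 _ _ (m14 _ _ nM).2.1 (m14 _ _ nM).2.1,
      hEM, hMM, PI, Zt.cl_span pic y0, Zt.cl_span pic (Zt.mk_ne mV.ne_zero)]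
  · rw [nb, natDegree_map, hd, ev, tv, if_neg c, pow_mul]
    simp

theorem div (P : Jac (fp a) Qbar) : ∃ Q, 2 • Q = P := by
  obtain ⟨R, hR⟩ := T.half _ _ g _ _ (cvK h Qbar) P.toMul
  exact ⟨Additive.ofMul R, congrArg Additive.ofMul hR⟩

theorem inj : Function.Injective (WW a) := fun k l e => by
  by_contra c
  have := z_unique T.zed h (zW h k) (e ▸ zW h l) k
  rw [Zt.ev, Zt.ev, if_neg c, if_pos rfl] at this
  norm_num at this

theorem sum : ∑ i, WW a i = 0 := by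
  refine z_inj mum T.zed T.zt h (z0 h) ?_
  have := zS h univ
  simpa only [Zt.ev_in (mem_univ _), card_univ, card_Vx, (odd_two_mul_add_one g).neg_one_pow,
    neg_neg] using this

theorem fix (σ : Qbar ≃ₐ[ℚ] Qbar) (i : Vx g) : jac (fp a) σ (WW a i) = WW a i := by
  have := z_map T.zed h (σ : Qbar →+* Qbar) (zW h i)
  rw [Ideal.map_top, funext fun k => map_sign _ (z_sq mum T.zed h (zW h i) k)] at this
  exact z_inj mum T.zed T.zt h (zW h i) this

theorem gen (P : Jac (fp a) Qbar) (hP : 2 • P = 0) : ∃ S : Finset (Vx g), P = ∑ i ∈ S, WW a i := by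
  obtain ⟨S, -, hS⟩ := Zt.two pic mum T.red (cvK h Qbar) P.toMul (congrArg Additive.toMul hP)
  refine ⟨S, z_inj mum T.zed T.zt h (zS h S) ?_⟩
  have := Zt.zs pic mum T.zed (cvK h Qbar) S
  rwa [hS] at this

/-- the action on a half of a Weierstrass point -/
theorem act (σ : Qbar ≃ₐ[ℚ] Qbar) {i : Vx g} {Q R : Jac (fp a) Qbar} (hQ : 2 • Q = WW a i)
    {ε : Vx g → Qbar} (zR : ZK a Qbar R ⊤ ε)
    (e : ∀ m, m ≠ i → ∀ ρ : Qbar, ρ ^ 2 = (a i : Qbar) - a m → σ ρ = ε m * ρ) :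
    jac (fp a) σ Q - Q = R := by
  have t1 := (T.zt _ _ g _ _ (cvK h Qbar)).1
  obtain ⟨U, V, hm, hc, hn⟩ := rep h i
  obtain ⟨ρ, z, hρ⟩ := z_mum mum T.zed h (R := Q) hm ((congrArg Additive.toMul hQ).trans hc.symm)
  have z' := z_map T.zed h (σ : Qbar →+* Qbar) z
  rw [mi_map, Idx.map_fix, Idx.map_fix] at z'
  have z2 := z_sub T.zed h z z'
  have r0 : ∀ m, ρ m ≠ 0 := fun m => ne_of_sq (hρ m) (Idx.nb_ne (hm.2.2 m))
  have e' : ∀ m, m ≠ i → (σ : Qbar →+* Qbar) (ρ m) / ρ m = ε m := fun m c =>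
    (div_eq_iff (r0 m)).2 (e m c _ ((hρ m).trans (hn m c)))
  refine z_inj mum T.zed T.zt h zR ?_
  have a1 := (t1 _ _ zR).1
  have a2 := (t1 _ _ z2).1
  rw [← mul_prod_erase _ _ (mem_univ i)] at a1 a2
  rw [prod_congr rfl fun m hm => e' m (ne_of_mem_erase hm)] at a2
  have a4 := mul_right_cancel₀ (right_ne_zero_of_mul_eq_one a1) (a2.trans a1.symm)
  have a5 : (fun m => (σ : Qbar →+* Qbar) (ρ m) / ρ m) = ε := funext fun m => by
    by_cases c : m = i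
    · rw [c, a4]
    · exact e' m c
  exact a5 ▸ z2

theorem trv (σ : Qbar ≃ₐ[ℚ] Qbar) {k l : Vx g} (hkl : k ≠ l) (hσ : ∀ i m, i ≠ m → ∀ ρ : Qbar,
      ρ ^ 2 = (a i : Qbar) - a m → σ ρ = if (i = k ∨ i = l) ∧ (m = k ∨ m = l) then -ρ else ρ)
    (i : Vx g) (Q : Jac (fp a) Qbar) (hQ : 2 • Q = WW a i) :
    jac (fp a) σ Q - Q = if i = k ∨ i = l then WW a k + WW a l else 0 := by
  split_ifs with c
  · refine act h σ hQ (z_add T.zed h (zW h k) (zW h l)) fun m hm ρ hρ => ?_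
    rw [hσ i m hm.symm _ hρ]
    simp only [c, true_and, Zt.ev]
    by_cases c1 : m = k <;> by_cases c2 : m = l
    · exact absurd (c1.symm.trans c2) hkl
    · simp [c1, hkl]
    · simp [c2, hkl.symm]
    · simp [c1, c2]
  · refine act h σ hQ (z0 h) fun m hm ρ hρ => ?_
    rw [hσ i m hm.symm _ hρ, if_neg fun e => c e.1, one_mul]

/-- an automorphism that fixes all roots of differences fixes the 4-torsion -/
theorem four (σ : Qbar ≃ₐ[ℚ] Qbar) (hσ : ∀ i m, i ≠ m → ∀ ρ : Qbar,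
      ρ ^ 2 = (a i : Qbar) - a m → σ ρ = ρ) (Q : Jac (fp a) Qbar) (hQ : 2 ^ 2 • Q = 0) :
    jac (fp a) σ Q = Q := by
  choose hf hh using div h
  obtain ⟨S, hS⟩ := gen h (2 • Q) (by rw [← mul_nsmul]; exact hQ)
  obtain ⟨S', hS'⟩ := gen h (Q - ∑ i ∈ S, hf (WW a i)) (by
    rw [nsmul_sub, hS, smul_sum, sum_congr rfl fun i _ => hh _, sub_self])
  rw [sub_eq_iff_eq_add.1 hS', map_add, map_sum, map_sum, sum_congr rfl fun i _ => fix h σ i,
    sum_congr rfl fun i _ => sub_eq_zero.1 (act h σ (hh _) (z0 h) fun m hm ρ hρ => by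
      rw [hσ i m hm.symm _ hρ, one_mul])]

omit h in
theorem mul (f : ℚ[X]) (σ τ : Qbar ≃ₐ[ℚ] Qbar) (P : Jac f Qbar) :
    jac f (σ * τ) P = jac f σ (jac f τ P) :=
  (jmap_jmap _ (τ : Qbar →+* Qbar) (σ : Qbar →+* Qbar) P).symm

omit h in
theorem cv {a : Vx g → ℤ} (hg : 1 ≤ g) (hi : Function.Injective a) :
    Cv g (fun i => (a i : ℚ)) (fp fun i => (a i : ℚ)) :=
  ⟨card_Vx g, hg, fun _ _ e => hi (Int.cast_injective e), rfl⟩

end Kum

open Kum

theorem rig {g B : ℕ} {a : Vx g → ℤ} (hg : 1 ≤ g) (hi : Function.Injective a) (hp : PvB B a) :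
    Rig (jac (fp fun i => (a i : ℚ))) := by
  have h := cv hg hi
  refine abs (Qbar ≃ₐ[ℚ] Qbar) (Jac (fp fun i => (a i : ℚ)) Qbar) (Vx g)
    (jac (fp fun i => (a i : ℚ))) (Kum.WW fun i => (a i : ℚ)) (mul _) (div h)
    (by rw [card_Vx]; exact odd_two_mul_add_one g) (by rw [card_Vx]; omega) (inj h)
    (fun i => two h (zW h i)) (sum h) (fix h) (gen h) fun k l hkl => ?_
  obtain ⟨σ, hσ, -⟩ := sgn hi hp (κ := Empty) Empty.elim (fun j => j.elim) hkl
  exact ⟨σ, trv h σ hkl hσ⟩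

theorem ort (abs2 : ABS2Stmt) {g B : ℕ} {a b : Vx g → ℤ} (hg : 1 ≤ g) (hi : Function.Injective a)
    (hp : PvB B a) (hb : Function.Injective b) (hB : ∀ i m, (b i - b m).natAbs ≤ B) :
    Ort (jac (fp fun i => (a i : ℚ))) (jac (fp fun i => (b i : ℚ))) := by
  have h := cv hg hi
  refine abs2 (Qbar ≃ₐ[ℚ] Qbar) (Jac (fp fun i => (a i : ℚ)) Qbar)
    (Jac (fp fun i => (b i : ℚ)) Qbar) (Vx g) (jac (fp fun i => (a i : ℚ)))
    (jac (fp fun i => (b i : ℚ))) (Kum.WW fun i => (a i : ℚ)) (mul _) (mul _) (div h)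
    (by rw [card_Vx]; exact odd_two_mul_add_one g) (fun i => two h (zW h i)) (sum h) (fix h) (gen h)
    fun k l hkl => ?_
  obtain ⟨σ, hσ, h'⟩ := sgn hi hp (κ := {x : Vx g × Vx g // x.1 ≠ x.2})
    (fun x => b x.1.1 - b x.1.2) (fun x => ⟨sub_ne_zero.2 fun e => x.2 (hb e), hB _ _⟩) hkl
  exact ⟨σ, trv h σ hkl hσ, four (cv hg hb) σ fun i m c ρ hρ =>
    h' ⟨(i, m), c⟩ ρ (by simpa using hρ)⟩

end Pool.Agent.MP_a43263_nt.JR
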