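import Pool.Agent.MP_a43263_nt.JR.Basic

/-! THEOREM R: private primes for linear forms. -/

set_option autoImplicit false

noncomputable section

namespace Pool.Agent.MP_a43263_nt.JR

open Finset Polynomial JC

namespace LinRow

/-- a bound for finitely many integers -/
theorem bound {J : Type} [Finite J] (a : J → ℤ) :
    ∃ N : ℕ, ∀ n : ℕ, N < n → ∀ j, a j ≠ 0 → ¬(n : ℤ) ∣ a j := by
  obtain ⟨N, hN⟩ := (Set.finite_range fun j => (a j).natAbs).bddAbove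
  refine ⟨N, fun n hn j h e => ?_⟩
  have h1 := Nat.le_of_dvd (Int.natAbs_pos.2 h) (Int.natCast_dvd.1 e)
  have h2 : (a j).natAbs ≤ N := hN ⟨j, rfl⟩
  omega

/-- `S` holds on a residue class -/
def Cl {V : Type} (S : (V → ℤ) → Prop) : Prop :=
  ∃ (z : V → ℤ) (M : ℤ), M ≠ 0 ∧ ∀ y, S (z + M • y)

theorem Cl.step {V : Type} {S Q : (V → ℤ) → Prop} (h : Cl S) {N : ℕ}
    (hQ : ∀ p : ℕ, p.Prime → N < p → ∃ x, ∀ y, Q (x + (p : ℤ) ^ 2 • y)) :
    Cl fun z => S z ∧ Q z := by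
  obtain ⟨z, M, h0, h1⟩ := h
  obtain ⟨p, hp, pp⟩ := Nat.exists_infinite_primes (max N M.natAbs + 1)
  obtain ⟨x, hx⟩ := hQ p pp (by omega)
  have c : IsCoprime M ((p : ℤ) ^ 2) := by
    refine IsCoprime.pow_right (IsCoprime.symm ?_)
    rw [(Nat.prime_iff_prime_int.1 pp).irreducible.coprime_iff_not_dvd]
    intro e
    have := Nat.le_of_dvd (Int.natAbs_pos.2 h0) (Int.natCast_dvd.1 e)
    omega
  obtain ⟨a, b, e⟩ := c
  refine ⟨z + M • a • (x - z), M * (p : ℤ) ^ 2,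
    mul_ne_zero h0 (pow_ne_zero _ (Int.natCast_ne_zero.2 pp.ne_zero)), fun y => ⟨?_, ?_⟩⟩
  · have := h1 (a • (x - z) + (p : ℤ) ^ 2 • y)
    rwa [smul_add, ← add_assoc, ← mul_smul M ((p : ℤ) ^ 2)] at this
  · refine (congrArg Q (funext fun v => ?_)).mp (hx (M • y - b • (x - z)))
    simp only [Pi.add_apply, Pi.sub_apply, Pi.smul_apply, smul_eq_mul]
    linear_combination (z v - x v) * e

end LinRow

open LinRow in
theorem lin : AVOStmt → LINStmt := by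
  intro avo V K J _ _ f D hf hD hz
  classical
  have := Fintype.ofFinite K
  obtain ⟨z0, -, h0⟩ := avo V J ⊤ D hD fun j => (hz j).imp fun _ h => ⟨trivial, h⟩
  obtain ⟨N0, hN0⟩ := bound fun j => D j z0
  have base : Cl fun z => ∀ j, D j z ≠ 0 := ⟨z0, (N0 + 1 : ℕ), by omega, fun y j e => by
    obtain ⟨P, hP⟩ := hD j z0 y
    have a := sub_dvd_eval_sub (0 : ℤ) (N0 + 1 : ℕ) P
    rw [← hP, ← hP, e, zero_smul, add_zero, sub_zero, zero_sub, neg_dvd] at a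
    exact hN0 _ (Nat.lt_succ_self _) j (h0 j) a⟩
  let Q : K → (V → ℤ) → Prop := fun k z => (∃ x, f k x ≠ 0) → ∃ p : ℕ, p.Prime ∧
    (p : ℤ) ∣ f k z ∧ ¬(p : ℤ) ^ 2 ∣ f k z ∧
      ∀ k', (∃ x, f k x = 0 ∧ f k' x ≠ 0) → ¬(p : ℤ) ∣ f k' z
  have one : ∀ k, ∃ N : ℕ, ∀ p : ℕ, p.Prime → N < p → ∃ x, ∀ y, Q k (x + (p : ℤ) ^ 2 • y) := by
    intro k
    by_cases c : ∃ x, f k x ≠ 0
    swap
    · exact ⟨0, fun _ _ _ => ⟨0, fun _ h => absurd h c⟩⟩
    obtain ⟨u, hu⟩ := c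
    obtain ⟨x, hx, h1⟩ := avo V {k' // ∃ x, f k x = 0 ∧ f k' x ≠ 0} (hf k).ker
      (fun k' => f k'.1) (fun k' => (hf _).pl) fun k' => k'.2
    obtain ⟨N, hN⟩ := bound fun k' : Option K => k'.elim (f k u) fun k' => f k' x
    refine ⟨N, fun p pp hp => ⟨x + (p : ℤ) • u, fun y _ => ⟨p, pp, ?_, ?_, fun k' h => ?_⟩⟩⟩
    · rw [hf k, hf k, show f k x = 0 from hx]
      exact ⟨f k u + p * f k y, by ring⟩
    · rw [hf k, hf k, show f k x = 0 from hx, zero_add, dvd_add_left (dvd_mul_right _ _), pow_two,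
        mul_dvd_mul_iff_left (Int.natCast_ne_zero.2 pp.ne_zero)]
      exact hN p hp none hu
    · rw [hf k', hf k', pow_two, mul_assoc, add_assoc, ← mul_add, dvd_add_left (dvd_mul_right _ _)]
      exact hN p hp (some k') (h1 ⟨k', h⟩)
  have all : ∀ T : Finset K, Cl fun z => (∀ j, D j z ≠ 0) ∧ ∀ k ∈ T, Q k z := fun T => by
    induction T using Finset.induction_on with
    | empty => simpa using base
    | insert k T _ ih =>
      obtain ⟨N, hN⟩ := one k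
      obtain ⟨z, M, a, b⟩ := ih.step hN
      exact ⟨z, M, a, fun y => ⟨(b y).1.1, fun k' hk => (mem_insert.1 hk).elim
        (fun e => e ▸ (b y).2) ((b y).1.2 k')⟩⟩
  obtain ⟨z, M, -, h⟩ := all univ
  exact ⟨_, (h 0).1, fun k => (h 0).2 k (mem_univ k)⟩

end Pool.Agent.MP_a43263_nt.JR
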