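import Pool.Agent.MP_a43263_nt.JR.Basic

/-! THEOREM R: the forms are generically not proportional. -/

set_option autoImplicit false

noncomputable section

namespace Pool.Agent.MP_a43263_nt.JR

open Finset Polynomial JC
open CubA (sg w Y sg_pm)

namespace Ne

variable {g r : ℕ} {C : Cfg g r} {i j k l : Vx g} {s t : Fin 2}

/-- the resultant does not vanish identically -/
def W (C : Cfg g r) (i j : Vx g) (s : Fin 2) (k l : Vx g) (t : Fin 2) : Prop :=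
  ∃ z, C.DD z i j s k l t ≠ 0

theorem W.s1 (h : W C i j s k l t) : W C j i s k l t := by
  obtain ⟨z, hz⟩ := h
  refine ⟨z, fun e => hz ?_⟩
  simp only [Cfg.DD, Cfg.fx, Cfg.fy] at e ⊢
  rcases sg_pm s with a | a <;> rw [a] at e ⊢
  · linear_combination e
  · linear_combination -e

theorem W.s2 (h : W C i j s k l t) : W C k l t i j s := by
  obtain ⟨z, hz⟩ := h
  refine ⟨z, fun e => hz ?_⟩
  simp only [Cfg.DD] at e ⊢
  linear_combination -e

theorem W.s3 (h : W C i j s k l t) : W C i j s l k t := h.s2.s1.s2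

theorem sg_ne (s : Fin 2) : sg s ≠ 0 := by rcases sg_pm s with a | a <;> simp [a]

theorem al_wit (i : Vx g) : ∃ z ∈ (⊤ : Submodule ℤ (Par r)), C.al z i ≠ 0 := by
  by_cases h : i = 0
  · exact ⟨0, trivial, by rw [h, C.al_zero]; exact one_ne_zero⟩
  · exact ⟨ee (.inl false) (C.crd i (.inl false)), trivial, by
      rw [C.al_ee h, if_pos rfl, lam_A]; exact one_ne_zero⟩

theorem ker_wit (h : C.Ok) (hk : k ≠ 0) (c : k ≠ l) : ∃ z ∈ (C.al_lin hk).ker, C.al z l ≠ 0 := by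
  by_cases hl : l = 0
  · exact ⟨0, zero_mem _, by rw [hl, C.al_zero]; exact one_ne_zero⟩
  · obtain ⟨d, a, b⟩ := h.slot hk hl c
    exact ⟨ee d (C.crd l d), (Lin.mem_ker _).2 (by rw [C.al_ee hk, if_neg b]), by
      rw [C.al_ee hl, if_pos rfl]; exact lam_ne a⟩

theorem same (h : C.Ok) (hj : j ≠ 0) (c : i ≠ j) (e : s ≠ t) : W C i j s i j t := by
  obtain ⟨z, -, a, b⟩ := avo2 ⊤ (C.al_pl i) (C.al_pl j) (al_wit i) (al_wit j)
  have h1 : ∃ z ∈ (⊤ : Submodule ℤ (Par r)), ph i * C.be z j - C.be z i * ph j ≠ 0 := by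
    by_cases hi : i = 0
    · exact ⟨0, trivial, by rw [hi, ph_zero, C.be_zero, ph_ne hj]; simp⟩
    · obtain ⟨d, a, b⟩ := h.slot' hi hj c
      exact ⟨ee d (C.crd j d), trivial, by
        rw [C.be_ee hi, C.be_ee hj, if_neg b, if_pos rfl, ph_ne hi]; simpa using mu_ne a⟩
  obtain ⟨z, -, a, b⟩ := avo2 ⊤ ((C.al_pl i).mul (C.al_pl j))
    (((Pl.const _).mul (C.be_pl j)).sub ((C.be_pl i).mul (.const _))) ⟨z, trivial, mul_ne_zero a b⟩ h1
  have h2 : sg t - sg s ≠ 0 := by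
    revert e
    fin_cases s <;> fin_cases t <;> simp [sg]
  refine ⟨z, fun e => mul_ne_zero h2 (mul_ne_zero a b) ?_⟩
  simp only [Cfg.DD, Cfg.fx, Cfg.fy] at e
  linear_combination e

theorem zero (h : C.Ok) (hj : j ≠ 0) (hk : k ≠ 0) (c : k ≠ j) (c' : k ≠ l) : W C 0 j s k l t := by
  obtain ⟨d, a, b⟩ := h.slot hk hj c
  obtain ⟨z, z0, z1, z2⟩ := avo2 (C.al_lin hk).ker (C.al_pl l)
    (((C.be_pl j).add ((Pl.const (sg s)).mul (C.al_pl j))).sub (C.be_pl k)) (ker_wit h hk c')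
    ⟨ee d (C.crd j d), (Lin.mem_ker _).2 (by rw [C.al_ee hk, if_neg b]), by
      rw [C.be_ee hk, C.be_ee hj, C.al_ee hj, if_neg b, if_pos rfl, if_pos rfl, sub_zero]
      exact pi_ne d s⟩
  have z3 : C.al z k = 0 := z0
  refine ⟨z, fun e => mul_ne_zero z1 z2 ?_⟩
  simp only [Cfg.DD, Cfg.fx, Cfg.fy, z3, C.al_zero, C.be_zero, ph_zero, ph_ne hj, ph_ne hk] at e
  rcases sg_pm s with a | a <;> rw [a] at e ⊢
  · linear_combination -e
  · linear_combination e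

theorem good (hq : NEQStmt) (h : C.Ok) (hi : i ≠ 0) (hk : k ≠ 0) (hl : l ≠ 0) (c : i ≠ j)
    (c1 : i ≠ k) (c2 : i ≠ l) (c3 : k ≠ l) (nb : ¬∃ d, k = C.nb d i ∧ l = C.nb (bar d) i) :
    W C i j s k l t := by
  obtain ⟨z, z0, z1, z2⟩ := avo2 (C.al_lin hi).ker (C.al_pl j)
    (((C.al_pl l).mul ((C.be_pl k).sub (C.be_pl i))).add
      (((Pl.const (sg t)).mul (C.al_pl k)).mul ((C.be_pl l).sub (C.be_pl i)))) (ker_wit h hi c)
    (hq g r C h i k l t hi hk hl c1 c2 c3 nb)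
  have z3 : C.al z i = 0 := z0
  refine ⟨z, fun e => mul_ne_zero z1 z2 ?_⟩
  simp only [Cfg.DD, Cfg.fx, Cfg.fy, z3, ph_ne hi, ph_ne hk, ph_ne hl] at e
  linear_combination e

theorem nz (hq : NEQStmt) (h : C.Ok) (hi : i ≠ 0) (hj : j ≠ 0) (hk : k ≠ 0) (hl : l ≠ 0)
    (c : i ≠ j) (c1 : i ≠ k) (c2 : i ≠ l) (c3 : k ≠ l) : W C i j s k l t := by
  by_cases nb : ∃ d, k = C.nb d i ∧ l = C.nb (bar d) i
  swap
  · exact good hq h hi hk hl c c1 c2 c3 nb
  obtain ⟨d, e1, e2⟩ := nb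
  have n1 : (Sum.inr d : Dir r) ≠ .inr (bar d) := by simpa using (bar_ne d).symm
  have f1 : C.crd k (.inr d) ≠ C.crd l (.inr d) := by
    rw [e1, e2, h.eq (bar d) i _ hi n1]
    exact h.ne d i hi
  have far : C.Far k l := ⟨_, _, n1, f1, by
    rw [e1, e2, h.eq d i _ hi n1.symm]
    exact (h.ne _ i hi).symm⟩
  by_cases a : j = k
  · rw [a]
    exact (good hq h hl hi hk c3.symm c2.symm c3.symm c1 fun ⟨d', _, b⟩ =>
      h.not_far _ hl (b ▸ far.symm)).s1.s2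
  by_cases b : j = l
  · rw [b]
    exact (good hq h hk hi hl c3 c1.symm c3 c2 fun ⟨d', _, b⟩ => h.not_far _ hk (b ▸ far)).s2
  refine (good hq h hj hk hl c.symm a b c3 ?_).s1
  rintro ⟨d', e3, e4⟩
  have j1 : C.nb d' k = j := by rw [e3, h.inv _ _ hj]
  have j2 : C.nb (bar d') l = j := by rw [e4, h.inv _ _ hj]
  by_cases x : d' = d
  · exact c (by rw [← j1, x, e1, h.inv _ _ hi])
  by_cases y : d' = bar d
  · rw [y, bar_bar, e2] at j2
    rw [y, e1] at j1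
    exact h.hex d i hi (j1.trans j2.symm)
  · refine f1 ?_
    rw [e3, e4, h.eq d' j _ hj (by simpa using Ne.symm x), h.eq (bar d') j _ hj (by
      simpa using fun e : d = bar d' => y (by rw [e, bar_bar]))]

theorem zero' (h : C.Ok) (hj : j ≠ 0) (c : k ≠ l) (n1 : ¬(0 = k ∧ j = l)) (n2 : ¬(0 = l ∧ j = k)) :
    W C 0 j s k l t := by
  by_cases a : k ≠ 0 ∧ k ≠ j
  · exact zero h hj a.1 a.2 c
  · refine (zero h hj (fun e => ?_) (fun e => ?_) c.symm).s3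
    · exact a ⟨fun e' => c (e'.trans e.symm), fun e' => n2 ⟨e.symm, e'.symm⟩⟩
    · exact a ⟨fun e' => n1 ⟨e'.symm, e.symm⟩, fun e' => c (e'.trans e.symm)⟩

end Ne

open Ne in
theorem ne : AVOStmt → NEQStmt → NEStmt := by
  rintro - hq g r C h ⟨⟨⟨i, j⟩, c⟩, s⟩ ⟨⟨⟨k, l⟩, c'⟩, t⟩ hn
  show W C i j s k l t
  have c : i < j := c
  have c' : k < l := c'
  have hj : j ≠ 0 := (lt_of_le_of_lt (Fin.zero_le _) c).ne'
  have hl : l ≠ 0 := (lt_of_le_of_lt (Fin.zero_le _) c').ne'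
  by_cases e : i = k ∧ j = l
  · obtain ⟨rfl, rfl⟩ := e
    exact same h hj c.ne fun e => hn (by rw [e])
  by_cases hi : i = 0
  · subst hi
    exact zero' h hj c'.ne e fun a => hl a.1.symm
  by_cases hk : k = 0
  · subst hk
    exact (zero' h hl c.ne (fun a => hi a.1.symm) fun a => hj a.1.symm).s2
  by_cases a : i ≠ k ∧ i ≠ l
  · exact nz hq h hi hj hk hl c.ne a.1 a.2 c'.ne
  · refine (nz hq h hj hi hk hl c.ne' (fun b => ?_) (fun b => ?_) c'.ne).s1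
    · exact a ⟨fun x => c.ne (x.trans b.symm), fun x => (c.trans (b ▸ c')).ne x⟩
    · exact a ⟨fun x => e ⟨x, b⟩, fun x => c.ne (x.trans b.symm)⟩

end Pool.Agent.MP_a43263_nt.JR
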