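import Pool.Agent.MP_a43263_nt.JR.Basic

/-! THEOREM R: a point on the axis that is not on a chord. -/

set_option autoImplicit false

noncomputable section

namespace Pool.Agent.MP_a43263_nt.JR

open Finset Polynomial JC
open CubA (sg w Y sg_pm)

variable {g r : ℕ}

namespace Neq

variable {C : Cfg g r}

/-- a combination of two basis vectors -/
def cb (a : ℤ) (d : Dir r) (n : ℕ) (a' : ℤ) (d' : Dir r) (n' : ℕ) : Par r :=
  a • ee d n + a' • ee d' n'

theorem al_cb {i : Vx g} (h : i ≠ 0) (a : ℤ) (d : Dir r) (n : ℕ) (a' : ℤ) (d' : Dir r) (n' : ℕ) :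
    C.al (cb a d n a' d' n') i = a * (if C.crd i d = n then lam d else 0) +
      a' * if C.crd i d' = n' then lam d' else 0 := by
  have e := C.al_lin h (a • ee d n) (ee d' n') a'
  have f := (C.al_lin h).smul' a (ee d n)
  simp only [C.al_ee h] at e f
  rw [cb, e, f]

theorem be_cb {i : Vx g} (h : i ≠ 0) (a : ℤ) (d : Dir r) (n : ℕ) (a' : ℤ) (d' : Dir r) (n' : ℕ) :
    C.be (cb a d n a' d' n') i = a * (if C.crd i d = n then mu d else 0) +
      a' * if C.crd i d' = n' then mu d' else 0 := by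
  have e := C.be_lin h (a • ee d n) (ee d' n') a'
  have f := (C.be_lin h).smul' a (ee d n)
  simp only [C.be_ee h] at e f
  rw [cb, e, f]

theorem far (h : C.Ok) {i k l : Vx g} (hi : i ≠ 0) (hk : k ≠ 0) (hl : l ≠ 0) (a : i ≠ l)
    (b : k ≠ l) (f : C.Far i k) :
    ∃ z, C.al z i = 0 ∧ C.al z k = 0 ∧ C.be z k - C.be z i ≠ 0 ∧ C.al z l ≠ 0 := by
  have mem : ∀ z, z ∈ (C.al_lin hi).ker ⊓ (C.al_lin hk).ker ↔ C.al z i = 0 ∧ C.al z k = 0 :=
    fun _ => Iff.rfl
  obtain ⟨z, u, v⟩ := avo2 ((C.al_lin hi).ker ⊓ (C.al_lin hk).ker)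
    ((C.be_pl k).sub (C.be_pl i)) (C.al_pl l) (by
      obtain ⟨d, d', c, e, e'⟩ := f
      refine ⟨cb (lam d') d (C.crd k d) (-lam d) d' (C.crd k d'), (mem _).2 ⟨?_, ?_⟩, ?_⟩
      · simp [al_cb hi, e, e']
      · simp only [al_cb hk, if_true]
        ring
      · simp only [be_cb hi, be_cb hk, if_true, if_neg e, if_neg e']
        intro x
        exact det_ne c (by linarith)) (by
      obtain ⟨d, c, e⟩ := h.slot hi hl a
      obtain ⟨d', c', e'⟩ := h.slot hk hl b
      by_cases x : C.crd k d = C.crd l d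
      swap
      · refine ⟨ee d (C.crd l d), (mem _).2 ⟨?_, ?_⟩, ?_⟩
        · rw [C.al_ee hi, if_neg e]
        · rw [C.al_ee hk, if_neg x]
        · rw [C.al_ee hl, if_pos rfl]
          exact lam_ne c
      by_cases y : C.crd i d' = C.crd l d'
      swap
      · refine ⟨ee d' (C.crd l d'), (mem _).2 ⟨?_, ?_⟩, ?_⟩
        · rw [C.al_ee hi, if_neg y]
        · rw [C.al_ee hk, if_neg e']
        · rw [C.al_ee hl, if_pos rfl]
          exact lam_ne c'
      refine ⟨cb (lam d') d (C.crd k d) (-lam d) d' (C.crd k d'), (mem _).2 ⟨?_, ?_⟩, ?_⟩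
      · rw [al_cb hi, if_neg (x ▸ e), if_neg (y ▸ Ne.symm e')]
        simp
      · simp only [al_cb hk, if_true]
        ring
      · rw [al_cb hl, if_pos x.symm, if_neg (Ne.symm e'), mul_zero, add_zero]
        exact mul_ne_zero (lam_ne c') (lam_ne c))
  exact ⟨z, ((mem z).1 u).1, ((mem z).1 u).2, v⟩

end Neq

open Neq in
theorem neq : AVOStmt → NEQStmt := by
  intro _ g r C h i k l t hi hk hl a b c n
  by_cases f : C.Far i k
  · obtain ⟨z, u, v, x, y⟩ := far h hi hk hl b c f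
    exact ⟨z, u, by
      rw [v, mul_zero, zero_mul, add_zero]
      exact mul_ne_zero y x⟩
  by_cases f' : C.Far i l
  · obtain ⟨z, u, v, x, y⟩ := far h hi hl hk a c.symm f'
    refine ⟨z, u, ?_⟩
    rw [v, zero_mul, zero_add]
    exact mul_ne_zero (mul_ne_zero (by rcases sg_pm t with e | e <;> simp [e]) y) x
  obtain ⟨d, rfl⟩ := h.adj hi hk a f
  obtain ⟨d', rfl⟩ := h.adj hi hl b f'
  have e1 : d' ≠ d := fun e => c (by rw [e])
  have e2 : d' ≠ bar d := fun e => n ⟨d, rfl, by rw [e]⟩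
  have p1 := h.ne d i hi
  have p2 := h.ne d' i hi
  have p3 := h.eq d i (.inr d') hi (by simpa using e1)
  have p4 := h.eq d' i (.inr d) hi (by simpa using e1.symm)
  refine ⟨cb 1 (.inr d) (C.crd (C.nb d i) (.inr d)) 1 (.inr d') (C.crd (C.nb d' i) (.inr d')),
    ?_, ?_⟩
  · simp [al_cb hi, p1.symm, p2.symm]
  · have := mix_ne e1 e2 t
    simpa [al_cb hk, al_cb hl, be_cb hi, be_cb hk, be_cb hl, p3, p4, p1.symm, p2.symm] using this

end Pool.Agent.MP_a43263_nt.JR
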