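import Pool.Agent.MP_a43263_nt.JR.Basic

/-! THEOREM R: the linear forms of the triangles through the vertex `0` are not proportional. -/

set_option autoImplicit false

noncomputable section

namespace Pool.Agent.MP_a43263_nt.JR

open Finset Polynomial JC
open CubA (sg w Y sg_pm)

namespace Npl

variable {g r : ℕ} {C : Cfg g r} {i m : Vx g}

theorem ev (hi : i ≠ 0) (hm : m ≠ 0) (s t : Fin 2) (d : Dir r) (n : ℕ) :
    C.LL i s m t (ee d n) = (if C.crd m d = n then mu d + sg t * lam d else 0) -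
      if C.crd i d = n then mu d + sg s * lam d else 0 := by
  rw [Cfg.LL, C.al_ee hi, C.al_ee hm, C.be_ee hi, C.be_ee hm]
  split_ifs <;> ring

theorem ev_m (hi : i ≠ 0) (hm : m ≠ 0) (s t : Fin 2) {d : Dir r} (h : C.crd i d ≠ C.crd m d) :
    C.LL i s m t (ee d (C.crd m d)) = mu d + sg t * lam d := by
  rw [ev hi hm, if_pos rfl, if_neg h, sub_zero]

theorem ev_i (hi : i ≠ 0) (hm : m ≠ 0) (s t : Fin 2) {d : Dir r} (h : C.crd i d ≠ C.crd m d) :
    C.LL i s m t (ee d (C.crd i d)) = -(mu d + sg s * lam d) := by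
  rw [ev hi hm, if_pos rfl, if_neg h.symm, zero_sub]

theorem ne0 (h : C.Ok) (hi : i ≠ 0) (hm : m ≠ 0) (c : m ≠ i) (s t : Fin 2) :
    ∃ x, C.LL i s m t x ≠ 0 := by
  obtain ⟨d, -, b⟩ := h.slot hi hm c.symm
  exact ⟨_, by rw [ev_m hi hm s t b]; exact pi_ne d t⟩

theorem sg_inj {s t : Fin 2} (h : sg s = sg t) : s = t := by revert s t; decide

theorem sg_neg {s t : Fin 2} (h : s ≠ t) : sg s = -sg t := by revert s t; decide

theorem two {s t u : Fin 2} (h : s ≠ u) (h' : t ≠ u) : s = t := by revert s t u; decide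

end Npl

open Npl in
theorem npl : NPLStmt := by
  intro g r C h i s₀ m₀ t₀ hi hm₀ c₀ hf
  refine ⟨ne0 h hi hm₀ c₀ s₀ t₀, fun s m t hm c hne => ?_⟩
  by_contra hc
  have H : ∀ x y, C.LL i s₀ m₀ t₀ x * C.LL i s m t y = C.LL i s₀ m₀ t₀ y * C.LL i s m t x :=
    fun x y => by_contra fun e => hc ((C.LL_lin hi hm₀ s₀ t₀).wit (C.LL_lin hi hm s t) e)
  have Z : ∀ y, C.LL i s₀ m₀ t₀ y = 0 ↔ C.LL i s m t y = 0 := fun y => by
    obtain ⟨x0, h0⟩ := ne0 h hi hm₀ c₀ s₀ t₀
    obtain ⟨x1, h1⟩ := ne0 h hi hm c s t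
    refine ⟨fun e => ?_, fun e => ?_⟩
    · have := H x0 y
      rw [e, zero_mul] at this
      exact (mul_eq_zero.1 this).resolve_left h0
    · have := H y x1
      rw [e, mul_zero] at this
      exact (mul_eq_zero.1 this).resolve_right h1
  obtain rfl : m = m₀ := by
    by_contra e
    obtain ⟨d, -, b⟩ := h.slot hm hm₀ e
    by_cases k : C.crd i d = C.crd m d
    · have k' : C.crd i d ≠ C.crd m₀ d := k ▸ b
      refine pi_ne d t₀ ((ev_m hi hm₀ s₀ t₀ k').symm.trans ((Z _).2 ?_))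
      rw [ev hi hm, if_neg b, if_neg k', sub_zero]
    · refine pi_ne d t ((ev_m hi hm s t k).symm.trans ((Z _).1 ?_))
      rw [ev hi hm₀, if_neg b.symm, if_neg k, sub_zero]
  by_cases k : C.crd i (.inl false) = C.crd m (.inl false)
  · have e : ∀ a b, C.LL i a m b (ee (.inl false) (C.crd i (.inl false))) = sg b - sg a :=
      fun a b => by rw [ev hi hm, if_pos k.symm, if_pos rfl, lam_A, mu_A]; ring
    have z := Z (ee (.inl false) (C.crd i (.inl false)))
    rw [e, e, sub_eq_zero, sub_eq_zero] at z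
    by_cases q : s₀ = t₀
    · subst q
      obtain rfl : t = s := sg_inj (z.1 rfl)
      obtain ⟨d, d', a, b, b'⟩ := hf.resolve_left fun e => e rfl
      have h1 := H (ee d (C.crd m d)) (ee d' (C.crd m d'))
      rw [ev_m hi hm _ _ b, ev_m hi hm _ _ b, ev_m hi hm _ _ b', ev_m hi hm _ _ b',
        sg_neg fun e : t = s₀ => hne ⟨e, rfl, e⟩] at h1
      refine det_ne a ?_
      rcases sg_pm s₀ with u | u <;> rw [u] at h1 <;> linarith
    · have q' : t ≠ s := fun u => q (sg_inj (z.2 (by rw [u]))).symm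
      have q1 : s ≠ s₀ := fun u => hne ⟨u, rfl, two q' (u ▸ fun v => q v.symm)⟩
      obtain rfl : s = t₀ := two q1 fun v => q v.symm
      obtain rfl : t = s₀ := two q' q
      obtain ⟨d, a, b⟩ := h.slot' hi hm c.symm
      have h1 := H (ee d (C.crd m d)) (ee (.inl false) (C.crd i (.inl false)))
      rw [e, e, ev_m hi hm _ _ b, ev_m hi hm _ _ b, sg_neg q'] at h1
      refine mu_ne a ?_
      rcases sg_pm s with u | u <;> rw [u] at h1 <;> linarith
  · have k' : C.crd i (.inl true) ≠ C.crd m (.inl true) := by rwa [← h.ab, ← h.ab]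
    have E : ∀ y, C.LL i s m t y = C.LL i s₀ m t₀ y := fun y => by
      have := H (ee (.inl true) (C.crd m (.inl true))) y
      rw [ev_m hi hm _ _ k', ev_m hi hm _ _ k', lam_B, mu_B] at this
      linarith
    have h1 := E (ee (.inl false) (C.crd m (.inl false)))
    have h2 := E (ee (.inl false) (C.crd i (.inl false)))
    rw [ev_m hi hm _ _ k, ev_m hi hm _ _ k, lam_A, mu_A] at h1
    rw [ev_i hi hm _ _ k, ev_i hi hm _ _ k, lam_A, mu_A] at h2
    exact hne ⟨sg_inj (by linarith), rfl, sg_inj (by linarith)⟩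

end Pool.Agent.MP_a43263_nt.JR
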