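import Pool.Agent.MP_a43263_nt.JR.Basic

/-! THEOREM R: generic parameters with private primes. -/

set_option autoImplicit false

noncomputable section

namespace Pool.Agent.MP_a43263_nt.JR

open Finset Polynomial JC
open CubA (sg w Y w_one w_zero)

variable {g r : ℕ}

namespace ParA

/-- the three coordinates of a far pair can be prescribed up to a common factor -/
theorem pt {C : Cfg g r} {i j : Vx g} (hi : i ≠ 0) (hj : j ≠ 0) (f : C.Far i j) :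
    ∃ e : ℤ, e ≠ 0 ∧ ∀ b a a' : ℤ, ∃ z, ∀ s d,
      C.GG i j s d z = e * (lam (.inr d) * b + mu (.inr d) * (sg s * a' + a)) := by
  obtain ⟨d1, d2, h, h1, h2⟩ := f
  refine ⟨lam d2 * mu d1 - lam d1 * mu d2, sub_ne_zero.2 (det_ne h.symm), fun b a a' =>
    ⟨(lam d2 * b - mu d2 * a') • ee d1 (C.crd j d1) + (mu d1 * a' - lam d1 * b) • ee d2 (C.crd j d2)
      + (-(mu d2 * a)) • ee d1 (C.crd i d1) + (mu d1 * a) • ee d2 (C.crd i d2), fun s d => ?_⟩⟩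
  have l := C.GG_lin hi hj s d
  rw [l, l, l, l.smul']
  simp only [Cfg.GG, C.al_ee hi, C.al_ee hj, C.be_ee hi, C.be_ee hj, if_true, if_neg h1, if_neg h2,
    if_neg h1.symm, if_neg h2.symm]
  ring

theorem al_ex (C : Cfg g r) (i : Vx g) : ∃ z, C.al z i ≠ 0 := by
  by_cases h : i = 0
  · exact ⟨0, by rw [h, C.al_zero]; exact one_ne_zero⟩
  · exact ⟨ee (.inl false) (C.crd i (.inl false)), by
      rw [C.al_ee h, if_pos rfl, lam_A]; exact one_ne_zero⟩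

/-- the vertices other than `0` -/
abbrev Nz (g : ℕ) : Type := {i : Vx g // i ≠ 0}

/-- the linear forms that get private primes -/
def ff (C : Cfg g r) : (Nz g × Fin 2 × Nz g × Fin 2) ⊕ (Nz g × Nz g × Fin 2 × Fin r × Bool) →
    Par r → ℤ
  | .inl x => C.LL x.1.1 x.2.1 x.2.2.1.1 x.2.2.2
  | .inr x => C.GG x.1.1 x.2.1.1 x.2.2.1 x.2.2.2

/-- the polynomial conditions -/
def dd (C : Cfg g r) : Vx g ⊕ {p : (Ed g × Fin 2) × Ed g × Fin 2 // p.1 ≠ p.2} → Par r → ℤ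
  | .inl i => fun z => C.al z i
  | .inr p => fun z => C.DD z p.1.1.1.1.1 p.1.1.1.1.2 p.1.1.2 p.1.2.1.1.1 p.1.2.1.1.2 p.1.2.2

end ParA

theorem npg : NPGStmt := by
  intro g r C _ i j d₀ hi hj f
  obtain ⟨e, he, h⟩ := ParA.pt hi hj f
  have s1 : sg 1 = 1 := rfl
  have s0 : sg 0 = -1 := rfl
  refine ⟨(h 1 0 0).imp fun z hz => ?_, fun s d c => ?_⟩
  · rw [hz]
    simpa using ⟨he, lam_ne (by simp)⟩
  by_cases k : d = d₀
  · obtain rfl : s = 0 := by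
      have : s ≠ 1 := fun e => c ⟨e, k⟩
      omega
    refine (h 0 1 (-1)).imp fun z hz => ⟨by rw [hz, s1]; ring, ?_⟩
    rw [hz, s0]
    simpa using ⟨he, mu_ne (by simp)⟩
  · refine (h (mu (.inr d₀)) (-lam (.inr d₀)) 0).imp fun z hz => ⟨by rw [hz]; ring, ?_⟩
    rw [hz]
    refine mul_ne_zero he fun x => det_ne (d := .inr d) (d' := .inr d₀) (by simpa using k) ?_
    linarith

theorem par (lin : LINStmt) (ne : NEStmt) (npl : NPLStmt) (npg : NPGStmt) : PARStmt := by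
  intro g r C hC
  obtain ⟨z, h1, h2⟩ := lin _ _ _ (ParA.ff C) (ParA.dd C)
    (by
      rintro (x | x)
      exacts [C.LL_lin x.1.2 x.2.2.1.2 _ _, C.GG_lin x.1.2 x.2.1.2 _ _])
    (by
      rintro (x | x)
      exacts [C.al_pl x, C.DD_pl _ _ _ _ _ _])
    (by
      rintro (x | x)
      exacts [ParA.al_ex C x, ne g r C hC _ _ x.2])
  refine ⟨z, fun i => h1 (.inl i), fun h k c => h1 (.inr ⟨(h, k), c⟩),
    fun i s₀ m₀ t₀ a b c d => ?_, fun i j d₀ a b c => ?_⟩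
  · obtain ⟨k1, k2⟩ := npl g r C hC i s₀ m₀ t₀ a b c d
    obtain ⟨p, hp, p1, p2, p3⟩ := h2 (.inl (⟨i, a⟩, s₀, ⟨m₀, b⟩, t₀)) k1
    have := Fact.mk hp
    refine ⟨p, hp, fun s m t e f => ?_⟩
    split_ifs with x
    · obtain ⟨rfl, rfl, rfl⟩ := x
      exact w_one p1 p2
    · exact w_zero (p3 (.inl (⟨i, a⟩, s, ⟨m, e⟩, t)) (k2 s m t e f x))
  · obtain ⟨k1, k2⟩ := npg g r C hC i j d₀ a b c
    obtain ⟨p, hp, p1, p2, p3⟩ := h2 (.inr (⟨i, a⟩, ⟨j, b⟩, 1, d₀)) k1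
    have := Fact.mk hp
    refine ⟨p, hp, fun s d => ?_⟩
    split_ifs with x
    · obtain ⟨rfl, rfl⟩ := x
      exact w_one p1 p2
    · exact w_zero (p3 (.inr (⟨i, a⟩, ⟨j, b⟩, s, d)) (k2 s d x))

end Pool.Agent.MP_a43263_nt.JR
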