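import Pool.Agent.MP_a43263_nt.JR.Basic

/-! THEOREM R: the residue group of the pencil. -/

set_option autoImplicit false

noncomputable section

namespace Pool.Agent.MP_a43263_nt.JR

open Finset Polynomial JC
open CubA (sg w Y Y_comm Y_self Yp_ed)

variable {g r : ℕ}

namespace Res

/-- `y` corrected by a cut and by the layer `1` -/
def Yc (y : Finset (Ed g × Fin 2)) (ep : ZMod 2) (a b : Vx g) (t : Fin 2) : ZMod 2 :=
  Y y a b t + Y y 0 a 0 + Y y 0 b 0 + if t = 1 then ep else 0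

variable {y : Finset (Ed g × Fin 2)} {ep : ZMod 2} {C : Cfg g r}

theorem Yc_comm (a b : Vx g) (t : Fin 2) : Yc y ep a b t = Yc y ep b a t := by
  rw [Yc, Yc, Y_comm a b]; ring

theorem tau_eq (ep : ZMod 2) (a b : Vx g) (s : Fin 2) (m : Vx g) (t : Fin 2) :
    tau y a b s m t = Yc y ep a b s + Yc y ep a m t + Yc y ep b m (s + t) := by
  have h2 : (2 : ZMod 2) = 0 := rfl
  have h : ((if s = 1 then ep else 0) + (if t = 1 then ep else 0) + if s + t = 1 then ep else 0) = 0 := by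
    revert s t ep; decide
  simp only [tau, Yc]
  linear_combination -h - (Y y 0 a 0 + Y y 0 b 0 + Y y 0 m 0) * h2

theorem van (hC : C.Ok)
    (h : ∀ i s m t, i ≠ 0 → m ≠ 0 → m ≠ i → s ≠ t ∨ C.Far i m → tau y 0 i s m t = 0) :
    ∃ ep, (∀ m t, m ≠ 0 → Yc y ep 0 m t = 0) ∧
      ∀ a m t, a ≠ 0 → m ≠ a → (¬∃ d, m = C.nb d a ∧ t = 0) → Yc y ep a m t = 0 := by
  have h2 : (2 : ZMod 2) = 0 := rfl
  have hg := hC.pos
  obtain ⟨o, ho⟩ : ∃ o : Vx g, o ≠ 0 := ⟨⟨1, by omega⟩, by simp [Fin.ext_iff]⟩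
  have z : ∀ m t, m ≠ 0 → Yc y (Y y 0 o 0 + Y y 0 o 1) 0 m t = 0 := fun m t hm => by
    have k : Y y 0 m 0 + Y y 0 m 1 = Y y 0 o 0 + Y y 0 o 1 := by
      rcases eq_or_ne m o with rfl | c
      · rfl
      have a1 := h o 0 m 1 ho hm c (Or.inl (by decide))
      have a2 := h o 1 m 0 ho hm c (Or.inl (by decide))
      simp only [tau, zero_add, add_zero] at a1 a2
      linear_combination a1 + a2 - (Y y 0 o 0 + Y y 0 o 1 + Y y o m 1) * h2
    rw [Yc, Y_self, ← k]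
    rcases (by decide : ∀ t : Fin 2, t = 0 ∨ t = 1) t with rfl | rfl
    · rw [if_neg (by decide)]
      linear_combination Y y 0 m 0 * h2
    · rw [if_pos rfl]
      linear_combination (Y y 0 m 0 + Y y 0 m 1) * h2
  refine ⟨_, z, fun a m t ha hm c => ?_⟩
  rcases eq_or_ne m 0 with rfl | m0
  · rw [Yc_comm]; exact z a t ha
  have := h a 0 m t ha m0 hm (by
    by_contra k
    rw [not_or, not_not] at k
    obtain ⟨d, e⟩ := hC.adj ha m0 hm.symm k.2
    exact c ⟨d, e, k.1.symm⟩)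
  rwa [tau_eq (Y y 0 o 0 + Y y 0 o 1), z a 0 ha, z m t m0, zero_add, zero_add, zero_add] at this

theorem sum_eq (hC : C.Ok)
    (h : ∀ a m t, a ≠ 0 → m ≠ a → (¬∃ d, m = C.nb d a ∧ t = 0) → Yc y ep a m t = 0)
    {a m : Vx g} (ha : a ≠ 0) (hm : m ≠ a) (t s s' : Fin 2) (e : t = 0 ↔ s = s') :
    Yc y ep a m t = ∑ d, if m = C.nb d a ∧ s = s' then Yc y ep a (C.nb d a) 0 else 0 := by
  by_cases c : ∃ d, m = C.nb d a ∧ t = 0
  · obtain ⟨d, rfl, rfl⟩ := c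
    rw [sum_eq_single d (fun b _ hb => if_neg fun k => hb (hC.nb_inj ha k.1).symm) (by simp),
      if_pos ⟨rfl, e.1 rfl⟩]
  · rw [h a m t ha hm c, sum_eq_zero fun d _ => if_neg fun k => c ⟨d, k.1, e.2 k.2⟩]

theorem mir (hC : C.Ok) {c : Vx g → Fin r × Bool → ZMod 2}
    (h1 : ∀ i d, i ≠ 0 → c (C.nb d i) d = c i d)
    (h2 : ∀ i j, i ≠ 0 → j ≠ 0 → C.Far i j → ∀ d, c i d = c j (bar d)) {i j : Vx g} (hi : i ≠ 0)
    (hj : j ≠ 0) (d : Fin r × Bool) : c i d = c j (bar d) := by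
  have k : ∀ (i : Vx g) (d : Fin r × Bool) (n : ℕ), i ≠ 0 → ∃ i', i' ≠ 0 ∧ c i' d = c i d ∧
      C.crd i' (.inr d) ≠ n ∧ ∀ d', d' ≠ d → C.crd i' (.inr d') = C.crd i (.inr d') :=
    fun i d n hi => by
      by_cases e : C.crd i (.inr d) = n
      · exact ⟨_, hC.n0 d i hi, h1 i d hi, e ▸ hC.ne d i hi,
          fun d' x => hC.eq d i _ hi (by simpa using x)⟩
      · exact ⟨i, hi, rfl, e, fun _ _ => rfl⟩
  obtain ⟨i', a1, a2, a3, a4⟩ := k i d (C.crd j (.inr d)) hi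
  obtain ⟨j', b1, b2, b3, b4⟩ := k j (bar d) (C.crd i (.inr (bar d))) hj
  rw [← a2, ← b2]
  refine h2 i' j' a1 b1 ⟨.inr d, .inr (bar d), by simpa using (bar_ne d).symm, ?_, ?_⟩ d
  · rwa [b4 d (bar_ne d).symm]
  · rw [a4 _ (bar_ne d)]; exact b3.symm

end Res

open Res in
theorem res : RES1Stmt → RES2Stmt → RESStmt := by
  intro r1 r2 g r C z hC hz u y hy
  classical
  obtain ⟨ep, z0, z1⟩ := van hC (r1 g r C z hC hz u y hy)
  have hg := hC.pos
  obtain ⟨o, ho⟩ : ∃ o : Vx g, o ≠ 0 := ⟨⟨1, by omega⟩, by simp [Fin.ext_iff]⟩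
  have k1 : ∀ e : Ed g, e.1.1 ≠ 0 → C.Far e.1.1 e.1.2 → ∀ d,
      Yc y ep e.1.1 (C.nb d e.1.1) 0 = Yc y ep e.1.2 (C.nb (bar d) e.1.2) 0 := fun e a b =>
    r2 g r C z hC hz u y hy (fun i d => Yc y ep i (C.nb d i) 0) e a b fun s m t hm => by
      rw [tau_eq ep, z1 _ _ s a (ed_ne e).symm (fun ⟨d, k, _⟩ => hC.not_far d a (k ▸ b)), zero_add,
        sum_eq hC z1 a (fun k => hm (Or.inl k)) t t 0 Iff.rfl,
        sum_eq hC z1 (ed_snd_ne e) (fun k => hm (Or.inr k)) (s + t) t s (by revert s t; decide)]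
  have k2 : ∀ i j, i ≠ 0 → j ≠ 0 → ∀ d,
      Yc y ep i (C.nb d i) 0 = Yc y ep j (C.nb (bar d) j) 0 := fun i j hi hj d =>
    mir hC (c := fun i d => Yc y ep i (C.nb d i) 0)
      (fun i d hi => by simp only [hC.inv d i hi]; exact Yc_comm _ _ _)
      (fun i j hi hj f d => by
        obtain ⟨e, ⟨rfl, rfl⟩ | ⟨rfl, rfl⟩⟩ := exists_ed f.ne
        · exact k1 e hi f d
        · have := k1 e hj f.symm (bar d)
          rw [bar_bar] at this
          exact this.symm) hi hj d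
  have k3 : ∀ i, i ≠ 0 → ∀ d, Yc y ep i (C.nb d i) 0 = Yc y ep o (C.nb (d.1, true) o) 0 := by
    rintro i hi ⟨k, _ | _⟩
    · exact k2 i o hi ho _
    · exact (k2 i o hi ho _).trans (k2 o o ho ho _)
  refine ⟨univ.filter fun i => Y y 0 i 0 = 1,
    univ.filter fun x => x.elim ep (fun k => Yc y ep o (C.nb (k, true) o) 0) = 1, ?_⟩
  ext ⟨e, t⟩
  have hb : (e, t) ∈ C.blk (univ.filter fun x : Option (Fin r) =>
      x.elim ep (fun k => Yc y ep o (C.nb (k, true) o) 0) = 1) ↔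
        Yc y ep e.1.1 e.1.2 t + (if t = 1 then ep else 0) = 1 := by
    rw [Cfg.blk, mem_filter]
    simp only [mem_filter, mem_univ, true_and, Option.exists, Cfg.Nx, Option.elim_none,
      Option.elim_some]
    by_cases c : e.1.1 ≠ 0 ∧ ∃ d, e.1.2 = C.nb d e.1.1 ∧ t = 0
    · obtain ⟨a, d, b, rfl⟩ := c
      rw [if_neg (by decide), add_zero, b, k3 _ a]
      refine ⟨?_, fun k => Or.inr ⟨d.1, k, rfl, a, d.2, rfl⟩⟩
      rintro (⟨-, k⟩ | ⟨k, x, -, -, b', f⟩)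
      · exact absurd k (by decide)
      · rwa [hC.nb_inj a f]
    · have v : Yc y ep e.1.1 e.1.2 t = 0 := by
        by_cases a : e.1.1 = 0
        · rw [a]; exact z0 _ _ (ed_snd_ne e)
        · exact z1 _ _ _ a (ed_ne e).symm fun k => c ⟨a, k⟩
      rw [v, zero_add]
      refine ⟨?_, fun k => ?_⟩
      · rintro (⟨k, rfl⟩ | ⟨k, -, x, a, b, f⟩)
        · rwa [if_pos rfl]
        · exact absurd ⟨a, _, f, x⟩ c
      · split_ifs at k with x
        · exact Or.inl ⟨k, x⟩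
        · exact absurd k (by decide)
  have hm : (e, t) ∈ y ↔ Y y e.1.1 e.1.2 t = 1 := by simp [Y, Yp_ed]
  rw [mem_symmDiff, hb, hm]
  simp only [cut, mem_filter, mem_univ, true_and, Yc]
  generalize Y y 0 e.1.1 0 = a
  generalize Y y 0 e.1.2 0 = b
  generalize Y y e.1.1 e.1.2 t = d
  generalize (if t = 1 then ep else 0) = f
  revert a b d f
  decide

end Pool.Agent.MP_a43263_nt.JR
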