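import Pool.Agent.MP_a43263_nt.JR.Basic

/-! THEOREM R: the residue conditions at the private primes. -/

set_option autoImplicit false

noncomputable section

namespace Pool.Agent.MP_a43263_nt.JR

open Finset Polynomial JC
open CubA (sg w Y sg_pm sg_add sg_sq w_sg w_mul)

variable {g r : ℕ}

namespace ResA

variable {C : Cfg g r} {z : Par r}

theorem d0 {i m : Vx g} (hi : i ≠ 0) (hm : m ≠ 0) (s t : Fin 2) :
    C.D3 z 0 i s m t = sg (s + t) * C.LL i s m t z := by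
  rw [sg_add]
  simp only [Cfg.D3, Cfg.dt, Cfg.LL, ph_zero, ph_ne hi, ph_ne hm, Cfg.al_zero, Cfg.be_zero]
  rcases sg_pm s with e | e <;> rcases sg_pm t with f | f <;> rw [e, f] <;> ring

theorem d1 (h : C.Ok) {a b : Vx g} (ha : a ≠ 0) (hb : b ≠ 0) (s : Fin 2) (d : Fin r × Bool) :
    C.D3 z a b s (C.nb d a) 0 = sg s * (C.step z d a * C.GG a b s d z) := by
  have e0 : sg 0 = -1 := rfl
  simp only [Cfg.D3, Cfg.dt, Cfg.GG, ph_ne ha, ph_ne hb, ph_ne (h.n0 d a ha), h.al_nb z d ha,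
    h.be_nb z d ha, e0]
  rcases sg_pm s with e | e <;> rw [e] <;> ring

theorem d2 (h : C.Ok) {a b : Vx g} (ha : a ≠ 0) (hb : b ≠ 0) (s : Fin 2) (d : Fin r × Bool) :
    C.D3 z a b s (C.nb d b) s =
      sg s * (C.step z d b * C.GG a b s (if s = 1 then bar d else d) z) := by
  have e0 : sg 0 = -1 := rfl
  have e1 : sg 1 = 1 := rfl
  simp only [Cfg.D3, Cfg.dt, Cfg.GG, ph_ne ha, ph_ne hb, ph_ne (h.n0 d b hb), h.al_nb z d hb,
    h.be_nb z d hb]
  obtain rfl | rfl : s = 0 ∨ s = 1 := by omega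
  · rw [if_neg (by decide), e0]; ring
  · rw [if_pos rfl, e1, lam_bar, mu_bar]; ring

theorem w_split {p : ℕ} [Fact p.Prime] {s : Fin 2} {D x y : ℤ} (e : D = sg s * (x * y))
    (h : D ≠ 0) : w p D = w p x + w p y := by
  subst e
  have h' := right_ne_zero_of_mul h
  rw [w_sg, Int.cast_mul, w_mul (Int.cast_ne_zero.2 (left_ne_zero_of_mul h'))
    (Int.cast_ne_zero.2 (right_ne_zero_of_mul h'))]

theorem pick {ι κ : Type} [Fintype ι] [DecidableEq κ] (M : Finset κ) (n : ι → κ) (hn : ∀ d, n d ∈ M)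
    (t₀ : Fin 2) (c : ι → ZMod 2) (F : κ → Fin 2 → ZMod 2) :
    ∑ m ∈ M, ∑ t, (∑ d, if m = n d ∧ t = t₀ then c d else 0) * F m t =
      ∑ d, c d * F (n d) t₀ := by
  simp only [sum_mul]
  rw [sum_congr rfl fun m _ => sum_comm, sum_comm]
  refine sum_congr rfl fun d _ => ?_
  rw [sum_eq_single (n d) (fun m _ e => by simp [e]) fun e => (e (hn d)).elim,
    sum_eq_single t₀ (fun t _ e => by simp [e]) fun e => (e (mem_univ _)).elim, if_pos ⟨rfl, rfl⟩]

end ResA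

open ResA

theorem res1 : BOTHStmt → RES1Stmt := by
  intro hb g r C z _ hz u y hy i s₀ m₀ t₀ hi hm hmi hf
  obtain ⟨p, pp, hp⟩ := hz.pl i s₀ m₀ t₀ hi hm hmi hf
  have H := (hb g r C z hz).2.2 u y hy p pp ⟨(0, i), Fin.pos_iff_ne_zero.2 hi⟩
  have on : ∀ m, ¬On m (⟨(0, i), Fin.pos_iff_ne_zero.2 hi⟩ : Ed g) ↔ m ≠ 0 ∧ m ≠ i := fun m => by
    simp [On, not_or]
  simp only [on] at H
  rw [sum_congr rfl fun s _ => sum_congr rfl fun m k => sum_congr rfl fun t _ => by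
    rw [d0 hi (mem_filter.1 k).2.1, w_sg, hp s m t (mem_filter.1 k).2.1 (mem_filter.1 k).2.2]] at H
  rw [sum_eq_single s₀ (fun s _ e => by simp [e]) fun e => (e (mem_univ _)).elim,
    sum_eq_single m₀ (fun m _ e => by simp [e]) fun e => (e (by simp [hm, hmi])).elim,
    sum_eq_single t₀ (fun t _ e => by simp [e]) fun e => (e (mem_univ _)).elim] at H
  simpa using H

theorem res2 : BOTHStmt → RES2Stmt := by
  intro hb g r C z h hz u y hy c e ha hf ht d₀
  have hb0 := ed_snd_ne e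
  obtain ⟨p, pp, hp⟩ := hz.pg _ _ d₀ ha hb0 hf
  have := Fact.mk pp
  obtain ⟨-, hD, H⟩ := hb g r C z hz
  replace H := H u y hy p pp e
  have na : ∀ d, ¬On (C.nb d e.1.1) e := fun d k =>
    k.elim (h.nb_ne d ha) fun k => h.not_far d ha (k ▸ hf)
  have nb : ∀ d, ¬On (C.nb d e.1.2) e := fun d k =>
    k.elim (fun k => h.not_far d hb0 (k ▸ hf.symm)) (h.nb_ne d hb0)
  rw [sum_congr rfl fun s _ => sum_congr rfl fun m k => sum_congr rfl fun t _ => by
    rw [ht s m t (mem_filter.1 k).2, add_mul]] at H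
  simp only [sum_add_distrib] at H
  rw [sum_congr rfl fun s _ => pick (univ.filter fun m => ¬On m e) (fun d => C.nb d e.1.1)
      (fun d => mem_filter.2 ⟨mem_univ _, na d⟩) 0 _ _,
    sum_congr rfl fun s _ => pick (univ.filter fun m => ¬On m e) (fun d => C.nb d e.1.2)
      (fun d => mem_filter.2 ⟨mem_univ _, nb d⟩) s _ _,
    sum_comm, add_comm, sum_comm, add_comm] at H
  have two : ∀ x a b : ZMod 2, x + a + (x + b) = a + b := by decide
  have e1 : ∀ d, ∑ s, c e.1.1 d * w p (C.D3 z e.1.1 e.1.2 s (C.nb d e.1.1) 0 : ℤ) =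
      if d = d₀ then c e.1.1 d else 0 := fun d => by
    rw [← mul_sum, Fin.sum_univ_two, w_split (d1 h ha hb0 0 d) (hD e _ _ _ (na d)),
      w_split (d1 h ha hb0 1 d) (hD e _ _ _ (na d)), two, hp, hp]
    simp
  have e2 : ∀ d, ∑ s, c e.1.2 d * w p (C.D3 z e.1.1 e.1.2 s (C.nb d e.1.2) s : ℤ) =
      if d = bar d₀ then c e.1.2 d else 0 := fun d => by
    rw [← mul_sum, Fin.sum_univ_two, w_split (d2 h ha hb0 0 d) (hD e _ _ _ (nb d)),
      w_split (d2 h ha hb0 1 d) (hD e _ _ _ (nb d)), two, hp, hp]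
    have : bar d = d₀ ↔ d = bar d₀ := ⟨fun k => by rw [← k, bar_bar], fun k => by rw [k, bar_bar]⟩
    simp [this]
  rw [sum_congr rfl fun d _ => e1 d, sum_congr rfl fun d _ => e2 d, sum_ite_eq', sum_ite_eq',
    if_pos (mem_univ _), if_pos (mem_univ _)] at H
  have k : ∀ a b : ZMod 2, a + b = 0 → a = b := by decide
  exact k _ _ H

end Pool.Agent.MP_a43263_nt.JR
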