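import Pool.Agent.MP_a43263_nt.JR.Basic
import Pool.Agent.MP_a43263_nt.JC.Gens

/-! THEOREM R: a section of the pencil gives a class in the residue group. -/

set_option autoImplicit false

noncomputable section

namespace Pool.Agent.MP_a43263_nt.JR

open Finset Polynomial JC

namespace Secg

variable {g n : ℕ} {F : HS g n}

/-- each form has two vertices -/
theorem prod_del {K : Type} [Field K] [CharZero K] (u : Vx g → ℚ) (y : Finset (Ed g × Fin n))
    (v : K × K) : ∏ i, F.del u y v i = ((∏ i, u i : ℚ) : K) * (∏ h ∈ y, F.L h v) ^ 2 := by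
  unfold HS.del
  rw [prod_mul_distrib, Rat.cast_prod]
  congr 1
  simp only [prod_filter]
  rw [prod_comm, ← prod_pow]
  refine prod_congr rfl fun h _ => ?_
  rw [← prod_filter, show univ.filter (fun i => On i h.1) = {h.1.1.1, h.1.1.2} from by
    ext i; simp [On], prod_pair (ed_ne h.1), sq]

theorem sq_del {K : Type} [Field K] [CharZero K] {u : Vx g → ℚ} (hu : IsSquare (∏ i, u i))
    (y : Finset (Ed g × Fin n)) (v : K × K) : IsSquare (∏ i, F.del u y v i) := by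
  rw [prod_del]
  exact (hu.map (Rat.castHom K)).mul (IsSquare.sq _)

theorem del_on (u : Vx g → ℚ) (y : Finset (Ed g × Fin n)) (v : ℚ × ℚ) {e : Ed g} {i : Vx g}
    (hi : On i e) : F.del u y v i =
      F.del u (y.filter fun k => k.1 ≠ e) v i * ∏ k ∈ y.filter (fun k => k.1 = e), F.L k v := by
  unfold HS.del
  rw [mul_assoc, ← prod_filter_not_mul_prod_filter (y.filter fun h => On i h.1) fun k => k.1 = e]
  congr 3
  · ext k; simp only [mem_filter, ne_eq]; tauto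
  · ext k
    simp only [mem_filter]
    exact ⟨fun c => ⟨c.1.1, c.2⟩, fun c => ⟨⟨c.1, c.2 ▸ hi⟩, c.2⟩⟩

theorem del_off (u : Vx g → ℚ) (y : Finset (Ed g × Fin n)) (v : ℚ × ℚ) {e : Ed g} {i : Vx g}
    (hi : ¬On i e) : F.del u (y.filter fun k => k.1 ≠ e) v i = F.del u y v i := by
  unfold HS.del
  congr 2
  ext k
  simp only [mem_filter]
  exact ⟨fun c => ⟨c.1.1, c.2⟩, fun c => ⟨⟨c.1, fun d => hi (d ▸ c.2)⟩, c.2⟩⟩

theorem L_self (h : Ed g × Fin n) : F.L h (F.root h) = 0 := by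
  simp only [HS.L, HS.root]; ring

theorem res (hF : F.Bas) {u : Vx g → ℚ} (hu : IsSquare (∏ i, u i))
    (y : Finset (Ed g × Fin n)) (h : Ed g × Fin n) (X : ℚ) (s : Vx g → ℚ) (hs : s h.1.1.2 = 1)
    (H : ∀ i, X - F.a (F.root h) i = F.del u y (F.root h) i * s i ^ 2) :
    IsSquare (F.del u (y.filter fun k => k.1 ≠ h.1) (F.root h) h.1.1.1 *
      F.del u (y.filter fun k => k.1 ≠ h.1) (F.root h) h.1.1.2 *
        if h ∈ y then F.gam h else 1) := by
  have h1 := H h.1.1.1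
  have h2 := H h.1.1.2
  rw [del_on u y _ (e := h.1) (.inl rfl)] at h1
  rw [del_on u y _ (e := h.1) (.inr rfl), Gens.a_root hF, h1, hs] at h2
  split_ifs with c
  · have m0 : ∏ k ∈ y.filter (fun k => k.1 = h.1), F.L k (F.root h) = 0 :=
      prod_eq_zero (i := h) (mem_filter.2 ⟨c, rfl⟩) (L_self h)
    rw [m0, mul_zero, zero_mul, sub_eq_zero] at h1
    have e : F.gam h = (∏ l ∈ (univ.erase h.1.1.1).erase h.1.1.2,
        F.del u (y.filter fun k => k.1 ≠ h.1) (F.root h) l) *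
          (∏ l ∈ (univ.erase h.1.1.1).erase h.1.1.2, s l) ^ 2 := by
      rw [HS.gam, ← filter_not_on, ← prod_pow, ← prod_mul_distrib]
      exact prod_congr rfl fun l hl => by rw [← h1, H, del_off u y _ (mem_filter.1 hl).2]
    have k := sq_del (F := F) hu (y.filter fun k => k.1 ≠ h.1) (F.root h)
    rw [← mul_prod_erase _ _ (mem_univ h.1.1.1),
      ← mul_prod_erase _ _ (mem_erase.2 ⟨(ed_ne h.1).symm, mem_univ _⟩), ← mul_assoc] at k
    rw [e, ← mul_assoc]
    exact k.mul (IsSquare.sq _)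
  · have m0 : ∏ k ∈ y.filter (fun k => k.1 = h.1), F.L k (F.root h) ≠ 0 :=
      prod_ne_zero_iff.2 fun k hk => hF.ne _ _ fun e => c (e ▸ (mem_filter.1 hk).1)
    have e : F.del u (y.filter fun k => k.1 ≠ h.1) (F.root h) h.1.1.2 =
        F.del u (y.filter fun k => k.1 ≠ h.1) (F.root h) h.1.1.1 * s h.1.1.1 ^ 2 :=
      mul_right_cancel₀ m0 (by linear_combination -h2)
    exact ⟨F.del u (y.filter fun k => k.1 ≠ h.1) (F.root h) h.1.1.1 * s h.1.1.1, by rw [e]; ring⟩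

theorem W_pt {K ι : Type} [Field K] [Fintype ι] {a d s : ι → K} {x : K} (hd : ∀ i, d i ≠ 0)
    (hs : ∀ i, s i ≠ 0) (hp : IsSquare (∏ i, d i)) (H : ∀ i, x - a i = d i * s i ^ 2) :
    W a d := by
  obtain ⟨t, ht⟩ := hp
  refine ⟨X - C x, C (t * ∏ i, s i), monic_X_sub_C x, dvd_iff_isRoot.2 ?_, fun i => ⟨?_, hd i, ?_⟩⟩
  · simp only [IsRoot.def, fp, eval_sub, eval_prod, eval_pow, eval_X, eval_C, H]
    rw [prod_mul_distrib, prod_pow, ht]
    ring
  · rw [eval_sub, eval_X, eval_C, ← neg_sub, H]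
    exact neg_ne_zero.2 (mul_ne_zero (hd i) (pow_ne_zero 2 (hs i)))
  · rw [nb, natDegree_X_sub_C, eval_sub, eval_X, eval_C, ← neg_sub, H]
    exact ⟨d i * s i, by ring⟩

theorem lin_ne (P : ℤ) {Q : ℤ} (hQ : Q ≠ 0) :
    (P : RatFunc ℚ) * Gens.gen.1 + Q * Gens.gen.2 ≠ 0 := by
  have e : (P : RatFunc ℚ) * Gens.gen.1 + Q * Gens.gen.2 =
      algebraMap ℚ[X] (RatFunc ℚ) (C (P : ℚ) * X + C (Q : ℚ)) := by simp
  rw [e, map_ne_zero_iff _ (IsFractionRing.injective _ _)]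
  intro c
  simpa [hQ] using congrArg (eval 0) c

end Secg

open Secg in
theorem secg : SECGStmt := by
  intro g n F u y x P Q hF hQ u0 hu ev _ H
  refine ⟨⟨u0, hu, ev, fun h => ?_⟩, ?_⟩
  · exact res hF hu y h _ _ (if_neg (ed_snd_ne h.1)) (H ℚ (F.root h))
  · refine W_pt (Gens.del_gen hF u0 y) (fun i => ?_) (sq_del hu y _) (H (RatFunc ℚ) Gens.gen)
    split_ifs
    exacts [lin_ne P hQ, one_ne_zero]

end Pool.Agent.MP_a43263_nt.JR
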