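import Pool.Agent.MP_a43263_nt.JC.Ex
import Pool.Agent.MP_a43263_nt.JM.All
import Pool.Agent.MP_a43263_nt.JR.Lin
import Pool.Agent.MP_a43263_nt.JR.Neq
import Pool.Agent.MP_a43263_nt.JR.Ne
import Pool.Agent.MP_a43263_nt.JR.Npl
import Pool.Agent.MP_a43263_nt.JR.Par
import Pool.Agent.MP_a43263_nt.JR.Core
import Pool.Agent.MP_a43263_nt.JR.ResA
import Pool.Agent.MP_a43263_nt.JR.Res
import Pool.Agent.MP_a43263_nt.JR.Secg
import Pool.Agent.MP_a43263_nt.JR.Sec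
import Pool.Agent.MP_a43263_nt.JR.Crit
import Pool.Agent.MP_a43263_nt.JR.Kum
import Pool.Agent.MP_a43263_nt.JR.Cfga
import Pool.Agent.MP_a43263_nt.JR.Blk1
import Pool.Agent.MP_a43263_nt.JR.Blk2
import Pool.Agent.MP_a43263_nt.JR.Abs2

/-! THEOREM R: assembly. -/

set_option autoImplicit false

namespace Pool.Agent.MP_a43263_nt.JR

open Finset Filter JC

theorem cfg2 : CFG2Stmt := by
  intro g r hg
  obtain ⟨S, h1, h2, h3, h4⟩ := blk1 r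
  obtain ⟨S', h5, h6⟩ := blk2 r S h1 h3 h4
  have hM : 0 < 6 ^ r := by positivity
  obtain ⟨a, b, e⟩ : ∃ a b : ℕ, a * S.card + b * S'.card = 2 * g := by
    rw [show 36 ^ r = 6 ^ r * 6 ^ r from mul_pow 6 6 r] at hg
    rw [h2] at h6 ⊢
    generalize 6 ^ r = M at *
    obtain ⟨b, hb, q, hq⟩ : ∃ b, b ≤ M ∧ ∃ q, g + b = M * q :=
      ⟨M - g % M, Nat.sub_le _ _, g / M + 1, by
        have := Nat.mod_add_div g M
        have := Nat.mod_lt g hM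
        rw [mul_add]
        omega⟩
    obtain ⟨d, rfl⟩ : ∃ d, q = b + d := Nat.exists_eq_add_of_le (by
      by_contra c
      nlinarith)
    refine ⟨2 * d, b, ?_⟩
    have : b * (S'.card + 2) = b * (2 * M) := by rw [h6]
    nlinarith
  refine cfga g r (a + b) (Fin.addCases (fun _ => S) fun _ => S') (le_trans (by
    exact Nat.one_le_pow _ _ (by norm_num)) hg) (fun c => ?_) (by simp [Fin.sum_univ_add, e])
  induction c using Fin.addCases <;> simpa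

theorem hyp {g r : ℕ} {C : Cfg g r} (hC : C.Ok) : ∃ p q : Vx g → ℤ, (fam 1 p q).Hyp (r + 1) := by
  obtain ⟨z, hz⟩ := par (lin avo) (ne avo (neq avo)) npl npg g r C hC
  have hb := both core
  obtain ⟨hF, h1⟩ := fam3 zar g 1 (C.pp z) (C.qq z) hC.pos one_ne_zero (hb g r C z hz).1
  refine ⟨_, _, crit g r C _ hC hF (fun x => ?_) (res (res1 hb) (res2 hb) g r C z hC hz)⟩
  cases x with
  | none =>
    have e : C.blk {none} = lay g {1} := by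
      ext h
      simp [Cfg.blk, Cfg.Nx, lay]
    exact ⟨_, e ▸ h1 rfl⟩
  | some k => exact sec secg g r C z hC hz hF k

theorem exAll (g r : ℕ) (hg : 1 ≤ g) (h : r ≤ 2 ∨ 36 ^ (r - 1) ≤ g) :
    ∃ (c : ℤ) (p q : Vx g → ℤ), (fam c p q).Hyp r := by
  by_cases c : r ≤ 2
  · exact exs g r hg c
  · obtain ⟨C, hC⟩ := cfg2 g (r - 1) (h.resolve_left c)
    obtain ⟨p, q, k⟩ := hyp hC
    exact ⟨1, p, q, by rwa [Nat.sub_add_cancel (by omega)] at k⟩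

/-- the properties of a good fibre -/
def Fine (r : ℕ) (f : Polynomial ℚ) : Prop := f.Separable ∧ AddGroup.FG (JQ f) ∧
  Module.rank ℤ (JQ f) = r ∧ (∀ k : ℕ, ∀ x ∈ JSha f, 2 ^ k • x = 0 → x = 0) ∧ Rig (jac f)

theorem main {g n r : ℕ} {F : HS g n} (hF : F.Hyp r) : ∃ S : Set (ℤ × ℤ),
    (∀ v ∈ S, IsCoprime v.1 v.2 ∧ Fine r (F.fibre v)) ∧
    (∃ ε : ℝ, 0 < ε ∧ ∀ᶠ H : ℕ in atTop, ∃ T ⊆ Icc (-H : ℤ) H ×ˢ Icc (-H : ℤ) H,
      ε * (H : ℝ) ^ 2 ≤ T.card ∧ ∀ v ∈ T, v ∈ S) ∧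
    ∃ v : ℕ → ℤ × ℤ, (∀ m, v m ∈ S) ∧
      ∀ m k, m < k → Ort (jac (F.fibre (v k))) (jac (F.fibre (v m))) := by
  classical
  obtain ⟨c, hc, h⟩ := finq g n r F hF
  have inj : ∀ v, JGood g r (F.fibre v) → Function.Injective (F.aZ v) := fun v hv i k e => by
    have h1 := hv.1
    rw [F.fibre_eq, fp] at h1
    exact Polynomial.separable_prod_X_sub_C_iff.1 h1 (congrArg (Int.cast : ℤ → ℚ) e)
  refine ⟨{v | IsCoprime v.1 v.2 ∧ JGood g r (F.fibre v) ∧ ∃ B, PvB B (F.aZ v)},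
    fun v ⟨h0, h1, B, hB⟩ => ⟨h0, h1.1, ?_⟩, ⟨c, hc, (h 0).mono fun H hH =>
      ⟨_, filter_subset _ _, hH, fun v hv =>
        have k := (mem_filter.1 hv).2; ⟨k.1, k.2.1, 0, k.2.2⟩⟩⟩, ?_⟩
  · obtain ⟨a, b⟩ := JM.mwAll _ g (F.aZ v) _ ⟨card_Vx g, hF.pos,
      fun i k e => inj v h1 (Int.cast_injective e), F.fibre_eq v⟩ (by rw [h1.2.2.2]; positivity)
    refine ⟨a, b _ r h1.2.2.1 h1.2.2.2, h1.2.1, ?_⟩
    rw [F.fibre_eq]
    exact rig hF.pos (inj v h1) hB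
  refine exists_seq_of_forall_finset_exists _
    (fun x y => Ort (jac (F.fibre y)) (jac (F.fibre x))) fun s hs => ?_
  obtain ⟨H, h1, h2⟩ := ((h (∑ x ∈ s, ∑ i, ∑ m, (F.aZ x i - F.aZ x m).natAbs)).and
    (eventually_gt_atTop 0)).exists
  obtain ⟨v, hv⟩ := card_pos.1 (Nat.cast_pos.1 (lt_of_lt_of_le (by positivity) h1))
  obtain ⟨k1, k2, k3⟩ := (mem_filter.1 hv).2
  refine ⟨v, ⟨k1, k2, _, k3⟩, fun x hx => ?_⟩
  rw [F.fibre_eq, F.fibre_eq]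
  refine ort abs2 hF.pos (inj v k2) k3 (inj x (hs x hx).2.1) fun i m => ?_
  exact ((single_le_sum (f := fun m => (F.aZ x i - F.aZ x m).natAbs) (fun _ _ => Nat.zero_le _)
    (mem_univ m)).trans (single_le_sum (f := fun i => ∑ m, (F.aZ x i - F.aZ x m).natAbs)
      (fun _ _ => Nat.zero_le _) (mem_univ i))).trans
    (single_le_sum (f := fun x => ∑ i, ∑ m, (F.aZ x i - F.aZ x m).natAbs)
      (fun _ _ => Nat.zero_le _) hx)

end Pool.Agent.MP_a43263_nt.JR
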