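import Mathlib

/-! THEOREM R: two counting lemmas. -/

set_option autoImplicit false

namespace Pool.Agent.MP_a43263_nt.JR

open Finset

/-- an independent set in a directed graph of bounded out-degree -/
theorem indep {α : Type} [DecidableEq α] (R : α → α → Prop) [DecidableRel R] (D : ℕ)
    (T : Finset α) (h : ∀ v ∈ T, (T.filter (R v)).card ≤ D) :
    ∃ T' ⊆ T, T.card ≤ (2 * D + 1) * T'.card ∧ ∀ v ∈ T', ∀ w ∈ T', v ≠ w → ¬R v w := by
  induction T using Finset.strongInduction with
  | H T ih =>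
    rcases T.eq_empty_or_nonempty with rfl | hT
    · exact ⟨∅, by simp⟩
    obtain ⟨x, hx, h1⟩ : ∃ x ∈ T, (T.filter fun v => R v x).card ≤ D := by
      refine exists_le_of_sum_le hT ?_
      exact (sum_card_bipartiteAbove_eq_sum_card_bipartiteBelow R (s := T) (t := T)).symm.le.trans
        (sum_le_sum h)
    obtain ⟨T', k1, k2, k3⟩ := ih (T.filter fun v => v ≠ x ∧ ¬R v x ∧ ¬R x v)
      (filter_ssubset.2 ⟨x, hx, by simp⟩) fun v hv =>
        (card_le_card (filter_subset_filter _ (filter_subset _ _))).trans (h v (mem_filter.1 hv).1)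
    have k4 : ∀ v ∈ T', v ≠ x ∧ ¬R v x ∧ ¬R x v := fun v hv => (mem_filter.1 (k1 hv)).2
    refine ⟨insert x T', insert_subset hx (k1.trans (filter_subset _ _)), ?_, fun v hv w hw c => ?_⟩
    · rw [card_insert_of_notMem fun c => (k4 x c).1 rfl]
      have e : T ⊆ (T.filter fun v => v ≠ x ∧ ¬R v x ∧ ¬R x v) ∪
          insert x ((T.filter fun v => R v x) ∪ T.filter (R x)) := fun v hv => by
        simp only [mem_union, mem_insert, mem_filter, hv, true_and]
        tauto
      have e1 := (card_le_card e).trans (card_union_le _ _)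
      have e2 := card_insert_le x ((T.filter fun v => R v x) ∪ T.filter (R x))
      have e3 := card_union_le (T.filter fun v => R v x) (T.filter (R x))
      have e4 := h x hx
      rw [mul_add]
      omega
    · rcases mem_insert.1 hv with rfl | a <;> rcases mem_insert.1 hw with rfl | b
      · exact absurd rfl c
      · exact (k4 w b).2.2
      · exact (k4 v a).2.1
      · exact k3 v a w b c

theorem pm {v w : ℤ × ℤ} (hv : IsCoprime v.1 v.2) (hw : IsCoprime w.1 w.2)
    (h : v.1 * w.2 - v.2 * w.1 = 0) : w = v ∨ w = -v := by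
  obtain ⟨a, b, e⟩ := hv
  obtain ⟨c, d, f⟩ := hw
  have e1 : w.1 = (a * w.1 + b * w.2) * v.1 := by linear_combination -w.1 * e - b * h
  have e2 : w.2 = (a * w.1 + b * w.2) * v.2 := by linear_combination -w.2 * e + a * h
  generalize a * w.1 + b * w.2 = u at e1 e2
  rcases Int.isUnit_iff.1 (IsUnit.of_mul_eq_one (a := u) (c * v.1 + d * v.2)
    (by rw [← f, e1, e2]; ring)) with rfl | rfl
  · exact .inl (Prod.ext (by simpa using e1) (by simpa using e2))
  · exact .inr (Prod.ext (by simpa using e1) (by simpa using e2))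

/-- few primitive points have three given large primes in the values of the forms -/
theorem few {ι : Type} [Fintype ι] (A B : ι → ℤ) (H : ℕ) (p : Fin 3 → ℕ) (hp : ∀ i, (p i).Prime)
    (hi : Function.Injective p) (hA : ∀ i h, ¬((p i : ℤ) ∣ A h ∧ (p i : ℤ) ∣ B h))
    (hH : 2 * H ^ 2 < ∏ i, p i) (T : Finset (ℤ × ℤ))
    (hT : ∀ v ∈ T, |v.1| ≤ H ∧ |v.2| ≤ H ∧ IsCoprime v.1 v.2 ∧
      ∀ i, ∃ h, (p i : ℤ) ∣ A h * v.1 + B h * v.2) : T.card ≤ 2 * Fintype.card ι ^ 3 := by
  classical
  rcases T.eq_empty_or_nonempty with rfl | ⟨v₀, h₀⟩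
  · simp
  have : Nonempty ι := ⟨((hT v₀ h₀).2.2.2 0).choose⟩
  choose! f hf using fun v hv => (hT v hv).2.2.2
  refine (card_le_mul_card_image (f := f) T 2 fun y hy => ?_).trans (Nat.mul_le_mul_left _
    ((card_le_univ _).trans (by simp)))
  obtain ⟨v, hv, rfl⟩ := mem_image.1 hy
  refine (card_le_card (t := {v, -v}) fun w hw => ?_).trans card_le_two
  obtain ⟨hw, e⟩ := mem_filter.1 hw
  obtain ⟨a1, a2, a3, -⟩ := hT v hv
  obtain ⟨b1, b2, b3, -⟩ := hT w hw
  rw [mem_insert, mem_singleton]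
  refine pm a3 b3 (Int.eq_zero_of_dvd_of_natAbs_lt_natAbs (d := ((∏ i, p i : ℕ) : ℤ)) ?_ ?_)
  · rw [Nat.cast_prod]
    refine Finset.prod_dvd_of_coprime (fun i _ j _ c => ?_) fun i _ => ?_
    · exact Nat.isCoprime_iff_coprime.2 ((Nat.coprime_primes (hp i) (hp j)).2 (hi.ne c))
    · have c1 := hf v hv i
      have c2 := hf w hw i
      rw [e] at c2
      have pr := Nat.prime_iff_prime_int.1 (hp i)
      by_contra c
      refine hA i (f v i) ⟨(pr.dvd_or_dvd ?_).resolve_right c, (pr.dvd_or_dvd ?_).resolve_right c⟩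
      · convert (c1.mul_left w.2).sub (c2.mul_left v.2) using 1
        ring
      · convert (c2.mul_left v.1).sub (c1.mul_left w.1) using 1
        ring
  · rw [Int.natAbs_natCast]
    refine lt_of_le_of_lt ?_ hH
    zify
    calc |v.1 * w.2 - v.2 * w.1| ≤ |v.1| * |w.2| + |v.2| * |w.1| := by
          rw [← abs_mul, ← abs_mul]; exact abs_sub _ _
      _ ≤ H * H + H * H := by gcongr
      _ = _ := by ring

end Pool.Agent.MP_a43263_nt.JR
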