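import Pool.Agent.MP_a43263_nt.JR.All
import Pool.Agent.MP_a43263_nt.JR.Abs3
import Pool.Agent.MP_a43263_nt.JR.Cnt
import Pool.Agent.MP_a43263_nt.JR.Finr

/-! THEOREM R: a positive proportion of fibres that are pairwise orthogonal. -/

set_option autoImplicit false

namespace Pool.Agent.MP_a43263_nt.JR

open Finset Filter JC Sha Kum
open CubA (w w_zero)

variable {g n r : ℕ}

/-- an automorphism that changes the roots of one difference and fixes the roots of the `x j` -/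
theorem sgn2 {a : Vx g → ℤ} (hi : Function.Injective a) {e : Ed g} {p : ℕ} (hp : Own a e p)
    {κ : Type} [Fintype κ] [DecidableEq κ] (x : κ → ℤ) (hx : ∀ j, ¬(p : ℤ) ∣ x j) :
    ∃ σ : Qbar ≃ₐ[ℚ] Qbar, (∀ i m, i ≠ m → ∀ ρ : Qbar, ρ ^ 2 = ((a i : ℚ) : Qbar) - (a m : ℚ) →
      σ ρ = if (i = e.1.1 ∨ i = e.1.2) ∧ (m = e.1.1 ∨ m = e.1.2) then -ρ else ρ) ∧
      ∀ j (ρ : Qbar), ρ ^ 2 = x j → σ ρ = ρ := by
  obtain ⟨p1, p2⟩ := hp
  have := Fact.mk p1
  obtain ⟨σ, hσ⟩ := gal (Option (Ed g) ⊕ κ)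
    (Sum.elim (fun x => x.elim (-1) fun e => (a e.1.2 - a e.1.1 : ℤ)) fun j => x j)
    (.inl (some e)) p p1 (by
      rintro ((_ | e) | j)
      · simp
      · exact Int.cast_ne_zero.2 (sub_ne_zero.2 fun c => ed_ne e (hi c).symm)
      · exact Int.cast_ne_zero.2 fun c => hx j (c ▸ dvd_zero _))
    (by
      rintro ((_ | e') | j)
      · simp [w]
      · simpa using p2 e'
      · rw [if_neg (by simp)]
        exact w_zero (hx j))
  obtain ⟨I, hI⟩ := IsAlgClosed.exists_pow_nat_eq (-1 : Qbar) two_pos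
  have I0 : I ≠ 0 := ne_of_sq hI (by simp)
  have I1 : σ I = I := by simpa using hσ (.inl none) I (by simpa using hI)
  have key : ∀ e' : Ed g, ((.inl (some e') : Option (Ed g) ⊕ κ) = .inl (some e)) ↔
      (e'.1.1 = e.1.1 ∨ e'.1.1 = e.1.2) ∧ (e'.1.2 = e.1.1 ∨ e'.1.2 = e.1.2) := fun e' => by
    have h1 := e.2
    have h2 := e'.2
    rw [Sum.inl.injEq, Option.some_inj, Subtype.ext_iff, Prod.ext_iff]
    simp only [Fin.ext_iff, Fin.lt_def] at *
    omega
  refine ⟨σ, fun i m c ρ hρ => ?_, fun j ρ hρ => by simpa using hσ (.inr j) ρ (by simpa using hρ)⟩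
  obtain ⟨e', ⟨rfl, rfl⟩ | ⟨rfl, rfl⟩⟩ := exists_ed c
  · have := hσ (.inl (some e')) (I * ρ) (by simp [mul_pow, hI, hρ])
    rw [map_mul, I1] at this
    refine mul_left_cancel₀ I0 (this.trans ?_)
    simp only [key]
    split_ifs <;> ring
  · have := hσ (.inl (some e')) ρ (by simp [hρ])
    simpa only [key, and_comm] using this

theorem ort3 {B : ℕ} {a b : Vx g → ℤ} (hg : 1 ≤ g) (hi : Function.Injective a) (hp : PvB B a)
    (hb : Function.Injective b) {e : Ed g} {p : ℕ} (ho : Own a e p)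
    (hB : ∀ i m, i ≠ m → ¬(p : ℤ) ∣ b i - b m) :
    Ort (jac (fp fun i => (a i : ℚ))) (jac (fp fun i => (b i : ℚ))) := by
  have h := cv hg hi
  have h' := cv hg hb
  obtain ⟨σ, hσ, k⟩ := sgn2 hi ho (κ := {x : Vx g × Vx g // x.1 ≠ x.2})
    (fun x => b x.1.1 - b x.1.2) fun x => hB _ _ x.2
  refine abs3 (W := Kum.WW fun i => (a i : ℚ)) (mul _) (mul _) (div h)
    (by rw [card_Vx]; exact odd_two_mul_add_one g) (fun i => two h (zW h i)) (sum h) (fix h) (gen h)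
    (fun τ Q hQ => ?_) (fun k l hkl => ?_) (ed_ne e) (trv h σ (ed_ne e) hσ)
    (four h' σ fun i m c ρ hρ => k ⟨(i, m), c⟩ ρ (by simpa using hρ))
  · obtain ⟨S, rfl⟩ := gen h' Q hQ
    simp only [map_sum, fix h']
  · obtain ⟨τ, hτ, -⟩ := sgn hi hp (κ := Empty) Empty.elim (fun j => j.elim) hkl
    exact ⟨τ, trv h τ hkl hτ⟩

/-- every pair has a private prime that is large compared with the point -/
theorem big {F : HS g n} (hF : F.Hyp r) {M M' K : ℕ} (hM : ∀ h, |F.A h| ≤ M ∧ |F.B h| ≤ M)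
    {v : ℤ × ℤ} (hv : PvK F M' K v) (e : Ed g) : ∃ p : ℕ, M' < p ∧ Own (F.aZ v) e p ∧
      |v.1| ≤ 2 * M * K * p ∧ |v.2| ≤ 2 * M * K * p := by
  have h2 := hF.two
  have key : ∀ j k : Ed g × Fin n, j ≠ k → ∀ X : ℤ, |F.LZ j v| ≤ X → |F.LZ k v| ≤ X →
      |v.1| ≤ 2 * M * X ∧ |v.2| ≤ 2 * M * X := fun j k hjk X a b => by
    have hr := Int.one_le_abs (hF.res_ne hjk)
    have key : ∀ x p q : ℤ, x * F.LZ j (F.rootZ k) = p * F.LZ j v + q * F.LZ k v → |p| ≤ M →
        |q| ≤ M → |x| ≤ 2 * M * X := fun x p q h hp hq => by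
      calc |x| ≤ |x| * |F.LZ j (F.rootZ k)| := le_mul_of_one_le_right (abs_nonneg _) hr
        _ = |p * F.LZ j v + q * F.LZ k v| := by rw [← abs_mul, h]
        _ ≤ |p| * |F.LZ j v| + |q| * |F.LZ k v| := by
            rw [← abs_mul, ← abs_mul]; exact abs_add_le _ _
        _ ≤ M * X + M * X := by gcongr
        _ = _ := by ring
    exact ⟨key v.1 (F.B k) (-F.B j) (by simp only [HS.LZ, HS.rootZ]; ring) (hM k).2
      (by rw [abs_neg]; exact (hM j).2), key v.2 (-F.A k) (F.A j)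
        (by simp only [HS.LZ, HS.rootZ]; ring) (by rw [abs_neg]; exact (hM k).1) (hM j).1⟩
  obtain ⟨p, p1, p2, p3⟩ := hv (e, ⟨0, by omega⟩)
  obtain ⟨q, q1, q2, q3⟩ := hv (e, ⟨1, by omega⟩)
  zify at p2 q2
  rcases le_total p q with c | c
  · refine ⟨q, q1, q3, ?_⟩
    rw [mul_assoc _ (K : ℤ)]
    exact key _ _ (by simp) _ (p2.trans (by gcongr)) q2
  · refine ⟨p, p1, p3, ?_⟩
    rw [mul_assoc _ (K : ℤ)]
    exact key _ _ (by simp) _ p2 (q2.trans (by gcongr))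

theorem main2 {F : HS g n} (hF : F.Hyp r) : ∃ ε : ℝ, 0 < ε ∧ ∀ᶠ H : ℕ in atTop,
    ∃ T ⊆ Icc (-H : ℤ) H ×ˢ Icc (-H : ℤ) H, ε * (H : ℝ) ^ 2 ≤ T.card ∧
      (∀ v ∈ T, IsCoprime v.1 v.2 ∧ Fine r (F.fibre v)) ∧
      ∀ v ∈ T, ∀ v' ∈ T, v ≠ v' → Ort (jac (F.fibre v)) (jac (F.fibre v')) := by
  classical
  obtain ⟨c, hc, h⟩ := finr g n r F hF
  have g1 := hF.pos
  have inj : ∀ v, JGood g r (F.fibre v) → Function.Injective (F.aZ v) := fun v hv i k e => by
    have h1 := hv.1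
    rw [F.fibre_eq, fp] at h1
    exact Polynomial.separable_prod_X_sub_C_iff.1 h1 (congrArg (Int.cast : ℤ → ℚ) e)
  have pv : ∀ {M K v}, PvK F M K v → PvB M (F.aZ v) := fun h e => by
    obtain ⟨p, p1, -, p2, p3⟩ := h (e, ⟨0, by have := hF.two; omega⟩)
    exact ⟨p, p2, p1, p3⟩
  obtain ⟨M, M0, hM⟩ : ∃ M : ℕ, 0 < M ∧ ∀ h, (|F.A h| ≤ M ∧ |F.B h| ≤ M) ∧ |F.c h.1| ≤ M := by
    refine ⟨∑ h, ((F.A h).natAbs + (F.B h).natAbs + (F.c h.1).natAbs) + 1, by omega, fun h => ?_⟩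
    have := single_le_sum (f := fun h => (F.A h).natAbs + (F.B h).natAbs + (F.c h.1).natAbs)
      (fun _ _ => Nat.zero_le _) (mem_univ h)
    simp only [Int.abs_eq_natAbs]
    omega
  obtain ⟨q, hq⟩ := exists_nat_gt (18 / c + 1)
  have q0 : (0 : ℝ) < 18 / c := by positivity
  have q1 : 0 < q := by exact_mod_cast (show (0 : ℝ) < q by linarith)
  set D := 2 * Fintype.card (Ed g × Fin n) ^ 3
  refine ⟨c / 2 / (2 * D + 1), by positivity, ?_⟩
  filter_upwards [h (16 * q ^ 3 * M ^ 3), eventually_ge_atTop q] with H ⟨K, hK, hH⟩ hHq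
  set T₀ := (Icc (-H : ℤ) H ×ˢ Icc (-H : ℤ) H).filter fun v : ℤ × ℤ =>
    IsCoprime v.1 v.2 ∧ JGood g r (F.fibre v) ∧ PvK F (16 * q ^ 3 * M ^ 3) K v
  set Bx := Icc (-(H / q : ℕ) : ℤ) (H / q : ℕ) ×ˢ Icc (-(H / q : ℕ) : ℤ) (H / q : ℕ) with hBx
  have hB : (Bx.card : ℝ) ≤ c / 2 * H ^ 2 := by
    have e1 : Bx.card = (2 * (H / q) + 1) ^ 2 := by
      rw [hBx, card_product, Int.card_Icc, sq]
      congr 1 <;> omega
    have e2 : (2 * (H / q) + 1) * q ≤ 3 * H := by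
      have := Nat.div_mul_le_self H q
      nlinarith
    have e3 : ((2 * (H / q) + 1 : ℕ) : ℝ) * q ≤ 3 * H := by exact_mod_cast e2
    have e4 : 18 ≤ c * q := by
      have := (div_lt_iff₀ hc).1 (show 18 / c < q by linarith)
      linarith
    rw [e1, Nat.cast_pow]
    have e5 : (1 : ℝ) ≤ q := by exact_mod_cast q1
    refine le_of_mul_le_mul_right ?_ (pow_pos (one_pos.trans_le e5) 2)
    calc _ = (((2 * (H / q) + 1 : ℕ) : ℝ) * q) ^ 2 := by ring
      _ ≤ (3 * H) ^ 2 := by gcongr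
      _ = 18 * 1 * (H ^ 2 / 2) := by ring
      _ ≤ c * q * q * (H ^ 2 / 2) := by gcongr
      _ = _ := by ring
  obtain ⟨T, k1, k2, k3⟩ := indep (fun v v' => ¬Ort (jac (F.fibre v)) (jac (F.fibre v'))) D
    (T₀ \ Bx) fun v hv => by
      obtain ⟨hv, hv'⟩ := mem_sdiff.1 hv
      obtain ⟨-, v1, v2, v3⟩ := mem_filter.1 hv
      let E : Fin 3 → Ed g := ![⟨(⟨0, by omega⟩, ⟨1, by omega⟩), Nat.zero_lt_one⟩,
        ⟨(⟨0, by omega⟩, ⟨2, by omega⟩), Nat.zero_lt_two⟩,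
        ⟨(⟨1, by omega⟩, ⟨2, by omega⟩), Nat.one_lt_two⟩]
      have hE : Function.Injective E := by
        intro i j e
        fin_cases i <;> fin_cases j <;> simp [E] at e ⊢
      choose p p1 p2 p3 using fun i => big hF (fun h => (hM h).1) v3 (E i)
      have pM : ∀ i (x : ℤ), |x| ≤ M → (p i : ℤ) ∣ x → x = 0 := fun i x hx d => by
        refine Int.eq_zero_of_abs_lt_dvd d (hx.trans_lt ?_)
        have : M ≤ 16 * q ^ 3 * M ^ 3 := (Nat.le_self_pow (by norm_num) M).trans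
          (Nat.le_mul_of_pos_left _ (by positivity))
        exact_mod_cast this.trans_lt (p1 i)
      refine few F.A F.B H p (fun i => (p2 i).1) (fun i j e => hE ?_) (fun i j c => ?_) ?_ _
        fun u hu => ?_
      · have a := (p2 i).2 (E i)
        rw [e, (p2 j).2, if_pos rfl] at a
        by_contra d
        rw [if_neg d] at a
        exact zero_ne_one a
      · have : Nontrivial (Ed g × Fin n) := ⟨FinH.pair hF⟩
        obtain ⟨k, hk⟩ := exists_ne j
        refine hF.res_ne hk.symm ?_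
        rw [HS.LZ, pM i _ (hM j).1.1 c.1, pM i _ (hM j).1.2 c.2]
        simp
      · have a : ∀ i, H < 2 * q * M * K * p i := fun i => by
          have b : ((H / q : ℕ) : ℤ) < 2 * M * K * p i := by
            by_contra d
            push Not at d
            exact hv' (mem_product.2 ⟨mem_Icc.2 (abs_le.1 ((p3 i).1.trans d)),
              mem_Icc.2 (abs_le.1 ((p3 i).2.trans d))⟩)
          have b' : H / q < 2 * M * K * p i := by exact_mod_cast b
          rw [Nat.div_lt_iff_lt_mul q1] at b'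
          exact b'.trans_le (le_of_eq (by ring))
        by_contra d
        rw [Fin.prod_univ_three, not_lt] at d
        have b := Nat.mul_lt_mul'' (Nat.mul_lt_mul'' (a 0) (a 1)) (a 2)
        have b2 : 8 * q ^ 3 * M ^ 3 * K ^ 3 * (p 0 * p 1 * p 2) ≤
          8 * q ^ 3 * M ^ 3 * K ^ 3 * (2 * H ^ 2) := Nat.mul_le_mul_left _ d
        have b3 := Nat.mul_le_mul_right (H ^ 2) hK
        nlinarith
      · obtain ⟨hu, hu'⟩ := mem_filter.1 hu
        obtain ⟨u0, u1, u2, -⟩ := mem_filter.1 (mem_sdiff.1 hu).1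
        obtain ⟨u3, u4⟩ := mem_product.1 u0
        refine ⟨abs_le.2 (mem_Icc.1 u3), abs_le.2 (mem_Icc.1 u4), u1, fun i => ?_⟩
        by_contra d
        push Not at d
        refine hu' ?_
        rw [F.fibre_eq, F.fibre_eq]
        refine ort3 g1 (inj v v2) (pv v3) (inj u u2) (p2 i) fun a b hab c => ?_
        obtain ⟨e, -, -, s, hs, e'⟩ := hF.diff hab
        have pr := Nat.prime_iff_prime_int.1 (p2 i).1
        have c' : (p i : ℤ) ∣ F.DZ e u := by
          rw [e'] at c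
          rcases hs with rfl | rfl <;> simpa using c
        rcases pr.dvd_or_dvd c' with c1 | c1
        · exact hF.c0 e (pM i _ (hM (e, ⟨0, by have := hF.two; omega⟩)).2 c1)
        · obtain ⟨k, -, c2⟩ := (Prime.dvd_finsetProd_iff pr _).1 c1
          exact d _ c2
  have sub : T ⊆ T₀ := k1.trans sdiff_subset
  refine ⟨T, sub.trans (filter_subset _ _), ?_, fun v hv => ?_,
    fun v hv u hu c => not_not.1 (k3 v hv u hu c)⟩
  · have a1 : T₀.card ≤ (2 * D + 1) * T.card + Bx.card :=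
      card_le_card_sdiff_add_card.trans (Nat.add_le_add_right k2 _)
    have a2 : (T₀.card : ℝ) ≤ (2 * D + 1) * T.card + Bx.card := by exact_mod_cast a1
    rw [div_mul_eq_mul_div, div_le_iff₀ (by positivity)]
    linarith
  · obtain ⟨-, h0, h1, hB⟩ := mem_filter.1 (sub hv)
    obtain ⟨a, b⟩ := JM.mwAll _ g (F.aZ v) _ ⟨card_Vx g, hF.pos,
      fun i k e => inj v h1 (Int.cast_injective e), F.fibre_eq v⟩ (by rw [h1.2.2.2]; positivity)
    refine ⟨h0, h1.1, a, b _ r h1.2.2.1 h1.2.2.2, h1.2.1, ?_⟩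
    rw [F.fibre_eq]
    exact rig hF.pos (inj v h1) (pv hB)

end Pool.Agent.MP_a43263_nt.JR
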