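import Pool.Agent.MP_a43263_nt.JR.Spec

/-! THEOREM R: elementary tools. -/

set_option autoImplicit false

noncomputable section

namespace Pool.Agent.MP_a43263_nt.JR

open Finset Polynomial JC
open CubA (sg w Y sg_pm)

variable {g r : ℕ}

/-! ### directions -/

theorem bar_bar (d : Fin r × Bool) : bar (bar d) = d := by simp [bar]

theorem bar_ne (d : Fin r × Bool) : bar d ≠ d := by
  obtain ⟨k, b⟩ := d
  cases b <;> simp [bar]

theorem lam_bar (d : Fin r × Bool) : lam (.inr (bar d)) = lam (.inr d) := rfl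

theorem mu_bar (d : Fin r × Bool) : mu (.inr (bar d)) = -mu (.inr d) := by
  obtain ⟨k, b⟩ := d
  cases b <;> simp [bar, mu]

theorem lam_A : lam (.inl false : Dir r) = 1 := rfl

theorem mu_A : mu (.inl false : Dir r) = 0 := rfl

theorem lam_B : lam (.inl true : Dir r) = 0 := rfl

theorem mu_B : mu (.inl true : Dir r) = 1 := rfl

theorem lam_ne {d : Dir r} (h : d ≠ .inl true) : lam d ≠ 0 := by
  rcases d with b | x
  · cases b
    · exact one_ne_zero
    · exact absurd rfl h
  · simp only [lam]; positivity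

theorem mu_ne {d : Dir r} (h : d ≠ .inl false) : mu d ≠ 0 := by
  rcases d with b | ⟨k, b⟩
  · cases b
    · exact absurd rfl h
    · exact one_ne_zero
  · cases b <;> simp only [mu] <;> simp <;> omega

theorem pi_ne (d : Dir r) (s : Fin 2) : mu d + sg s * lam d ≠ 0 := by
  rcases d with b | ⟨k, b⟩
  · cases b <;> rcases sg_pm s with e | e <;> simp [e, lam, mu]
  · have h : (0 : ℤ) ≤ (k : ℕ) := Nat.cast_nonneg _
    cases b <;> rcases sg_pm s with e | e <;> simp only [e, lam, mu] <;> simp <;> nlinarith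

theorem det_ne {d d' : Dir r} (h : d ≠ d') : lam d * mu d' ≠ lam d' * mu d := by
  rcases d with b | ⟨k, b⟩ <;> rcases d' with b' | ⟨k', b'⟩
  · cases b <;> cases b' <;> simp_all [lam, mu]
  · cases b
    · simpa [lam_A, mu_A] using mu_ne (d := .inr (k', b')) (by simp)
    · simpa [lam_B, mu_B, eq_comm] using lam_ne (d := .inr (k', b')) (by simp)
  · cases b'
    · simpa [lam_A, mu_A, eq_comm] using mu_ne (d := .inr (k, b)) (by simp)
    · simpa [lam_B, mu_B] using lam_ne (d := .inr (k, b)) (by simp)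
  · have h1 : (0 : ℤ) ≤ (k : ℕ) := Nat.cast_nonneg _
    have h2 : (0 : ℤ) ≤ (k' : ℕ) := Nat.cast_nonneg _
    have key : ∀ x y : ℤ, 0 ≤ x → 0 ≤ y → x ≠ y →
        ((x + 2) ^ 2 + 1) * (2 * (y + 2)) ≠ ((y + 2) ^ 2 + 1) * (2 * (x + 2)) := fun x y a b c e =>
      c (sub_eq_zero.1 ((mul_eq_zero.1 (show (x - y) * ((x + 2) * (y + 2) - 1) = 0 by
        linarith)).resolve_right (by nlinarith)))
    have hk : b = b' → ((k : ℕ) : ℤ) ≠ (k' : ℕ) := fun e c =>
      h (by rw [e, show k = k' from Fin.ext (by exact_mod_cast c)])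
    cases b <;> cases b' <;> simp only [lam, mu] <;> simp only [Bool.false_eq_true, if_false, if_true]
    · intro e
      exact key _ _ h1 h2 (hk rfl) (by linarith)
    · intro e
      nlinarith
    · intro e
      nlinarith
    · intro e
      exact key _ _ h1 h2 (hk rfl) (by linarith)

theorem mix_ne {d d' : Fin r × Bool} (h : d' ≠ d) (h' : d' ≠ bar d) (t : Fin 2) :
    lam (.inr d') * mu (.inr d) + sg t * lam (.inr d) * mu (.inr d') ≠ 0 := by
  rcases sg_pm t with e | e <;> rw [e]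
  · have := det_ne (d := .inr d') (d' := .inr (bar d)) (by simpa using h')
    rw [mu_bar, lam_bar] at this
    intro c
    exact this (by linarith)
  · have := det_ne (d := .inr d') (d' := .inr d) (by simpa using h)
    intro c
    exact this (by linarith)

/-- the Pythagorean relation -/
theorem pyth (d : Fin r × Bool) :
    lam (.inr d) ^ 2 - mu (.inr d) ^ 2 = (((d.1 : ℕ) + 2 : ℤ) ^ 2 - 1) ^ 2 ∧
      ((d.1 : ℕ) + 2 : ℤ) ^ 2 - 1 ≠ 0 := by
  obtain ⟨k, b⟩ := d
  have h : (0 : ℤ) ≤ (k : ℕ) := Nat.cast_nonneg _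
  refine ⟨?_, by nlinarith⟩
  cases b <;> simp only [lam, mu] <;> simp <;> ring

/-! ### polynomial functions -/

section Pl

variable {V : Type} {D E f : (V → ℤ) → ℤ}

theorem Lin.pl (h : Lin f) : Pl f := fun x y =>
  ⟨C (f x) + X * C (f y), fun n => by rw [h x y n]; simp⟩

theorem Lin.zero (h : Lin f) : f 0 = 0 := by simpa using h 0 0 1

theorem Lin.add' (h : Lin f) (x y : V → ℤ) : f (x + y) = f x + f y := by simpa using h x y 1

theorem Lin.smul' (h : Lin f) (n : ℤ) (x : V → ℤ) : f (n • x) = n * f x := by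
  simpa [h.zero] using h 0 x n

/-- the kernel of a linear form -/
def Lin.ker (h : Lin f) : Submodule ℤ (V → ℤ) where
  carrier := {x | f x = 0}
  zero_mem' := h.zero
  add_mem' := fun {a b} (ha : f a = 0) (hb : f b = 0) => by
    show f (a + b) = 0
    rw [h.add', ha, hb, add_zero]
  smul_mem' := fun n x (hx : f x = 0) => by
    show f (n • x) = 0
    rw [h.smul', hx, mul_zero]

theorem Lin.mem_ker (h : Lin f) {x : V → ℤ} : x ∈ h.ker ↔ f x = 0 := Iff.rfl

/-- a point of the first hyperplane that is not on the second one -/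
theorem Lin.wit {f' : (V → ℤ) → ℤ} (h : Lin f) (h' : Lin f') {x y : V → ℤ}
    (c : f x * f' y ≠ f y * f' x) : ∃ z, f z = 0 ∧ f' z ≠ 0 :=
  ⟨f x • y + (-f y) • x, by rw [h, h.smul']; ring, by
    rw [h', h'.smul']
    intro e
    exact c (by linarith)⟩

theorem Pl.const (c : ℤ) : Pl fun _ : V → ℤ => c := fun _ _ => ⟨C c, fun n => by simp⟩

theorem Pl.add (h : Pl D) (k : Pl E) : Pl fun z => D z + E z := fun x y => by
  obtain ⟨P, hP⟩ := h x y
  obtain ⟨Q, hQ⟩ := k x y
  exact ⟨P + Q, fun n => by rw [eval_add, ← hP, ← hQ]⟩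

theorem Pl.sub (h : Pl D) (k : Pl E) : Pl fun z => D z - E z := fun x y => by
  obtain ⟨P, hP⟩ := h x y
  obtain ⟨Q, hQ⟩ := k x y
  exact ⟨P - Q, fun n => by rw [eval_sub, ← hP, ← hQ]⟩

theorem Pl.mul (h : Pl D) (k : Pl E) : Pl fun z => D z * E z := fun x y => by
  obtain ⟨P, hP⟩ := h x y
  obtain ⟨Q, hQ⟩ := k x y
  exact ⟨P * Q, fun n => by rw [eval_mul, ← hP, ← hQ]⟩

end Pl

theorem avo : AVOStmt := by
  intro V J _ S D hD hz
  classical
  have := Fintype.ofFinite J
  suffices h : ∀ T : Finset J, ∃ z ∈ S, ∀ j ∈ T, D j z ≠ 0 from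
    (h univ).imp fun z k => ⟨k.1, fun j => k.2 j (mem_univ j)⟩
  intro T
  induction T using Finset.induction_on with
  | empty => exact ⟨0, S.zero_mem, by simp⟩
  | insert j T hj ih =>
    obtain ⟨x, hx, h1⟩ := ih
    obtain ⟨y, hy, h2⟩ := hz j
    choose P hP using fun i => hD i x (y - x)
    have h3 : ∏ i ∈ insert j T, P i ≠ 0 := prod_ne_zero_iff.2 fun i hi e => by
      rcases mem_insert.1 hi with rfl | hi
      · exact h2 (by simpa [e] using hP i 1)
      · exact h1 i hi (by simpa [e] using hP i 0)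
    obtain ⟨n, hn⟩ : ∃ n : ℤ, (∏ i ∈ insert j T, P i).eval n ≠ 0 := by
      by_contra c
      push Not at c
      exact h3 (Polynomial.funext fun n => by rw [c, eval_zero])
    rw [eval_prod] at hn
    exact ⟨x + n • (y - x), S.add_mem hx (S.smul_mem _ (S.sub_mem hy hx)), fun i hi => by
      rw [hP]
      exact prod_ne_zero_iff.1 hn i hi⟩

/-- two conditions -/
theorem avo2 {V : Type} (S : Submodule ℤ (V → ℤ)) {D E : (V → ℤ) → ℤ} (hD : Pl D) (hE : Pl E)
    (h : ∃ z ∈ S, D z ≠ 0) (k : ∃ z ∈ S, E z ≠ 0) : ∃ z ∈ S, D z ≠ 0 ∧ E z ≠ 0 := by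
  obtain ⟨z, a, b⟩ := avo V Bool S (fun j => if j = true then D else E)
    (fun j => by cases j <;> simpa) fun j => by cases j <;> simpa
  exact ⟨z, a, by simpa using b true, by simpa using b false⟩

/-! ### the configuration -/

/-- the basis vectors of the parameter space -/
def ee (d : Dir r) (n : ℕ) : Par r := fun v => if v = (d, n) then 1 else 0

namespace Cfg

variable (C : Cfg g r)

theorem al_zero (z : Par r) : C.al z 0 = 1 := if_pos rfl

theorem be_zero (z : Par r) : C.be z 0 = 1 := if_pos rfl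

theorem al_lin {i : Vx g} (h : i ≠ 0) : Lin fun z => C.al z i := fun x y n => by
  simp only [al, if_neg h, Pi.add_apply, Pi.smul_apply, smul_eq_mul, mul_add, sum_add_distrib,
    mul_sum, mul_left_comm n]

theorem be_lin {i : Vx g} (h : i ≠ 0) : Lin fun z => C.be z i := fun x y n => by
  simp only [be, if_neg h, Pi.add_apply, Pi.smul_apply, smul_eq_mul, mul_add, sum_add_distrib,
    mul_sum, mul_left_comm n]

theorem al_pl (i : Vx g) : Pl fun z => C.al z i := by
  by_cases h : i = 0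
  · simpa only [h, al_zero] using Pl.const 1
  · exact (C.al_lin h).pl

theorem be_pl (i : Vx g) : Pl fun z => C.be z i := by
  by_cases h : i = 0
  · simpa only [h, be_zero] using Pl.const 1
  · exact (C.be_lin h).pl

theorem DD_pl (i j : Vx g) (s : Fin 2) (k l : Vx g) (t : Fin 2) : Pl fun z => C.DD z i j s k l t :=
  have fx : ∀ i j s, Pl fun z => C.fx z i j s := fun i j _ =>
    ((C.al_pl j).mul (.const _)).add (((Pl.const _).mul (C.al_pl i)).mul (.const _))
  have fy : ∀ i j s, Pl fun z => C.fy z i j s := fun i j _ =>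
    ((C.al_pl j).mul (C.be_pl i)).add (((Pl.const _).mul (C.al_pl i)).mul (C.be_pl j))
  ((fx i j s).mul (fy k l t)).sub ((fy i j s).mul (fx k l t))

theorem LL_lin {i m : Vx g} (h : i ≠ 0) (k : m ≠ 0) (s t : Fin 2) : Lin (C.LL i s m t) :=
  fun x y n => by
    have a := C.al_lin h x y n
    have b := C.al_lin k x y n
    have c := C.be_lin h x y n
    have d := C.be_lin k x y n
    simp only [LL] at *
    rw [a, b, c, d]; ring

theorem GG_lin {i j : Vx g} (h : i ≠ 0) (k : j ≠ 0) (s : Fin 2) (d : Fin r × Bool) :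
    Lin (C.GG i j s d) := fun x y n => by
  have a := C.al_lin h x y n
  have b := C.al_lin k x y n
  have c := C.be_lin h x y n
  have d := C.be_lin k x y n
  simp only [GG] at *
  rw [a, b, c, d]; ring

theorem sum_ee (f : Dir r → ℤ) (i : Vx g) (d : Dir r) (n : ℕ) :
    ∑ d', f d' * ee d n (d', C.crd i d') = if C.crd i d = n then f d else 0 := by
  rw [sum_eq_single d (fun b _ hb => by simp [ee, hb]) (by simp)]
  simp [ee]

theorem al_ee {i : Vx g} (h : i ≠ 0) (d : Dir r) (n : ℕ) :
    C.al (ee d n) i = if C.crd i d = n then lam d else 0 := by rw [al, if_neg h, sum_ee]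

theorem be_ee {i : Vx g} (h : i ≠ 0) (d : Dir r) (n : ℕ) :
    C.be (ee d n) i = if C.crd i d = n then mu d else 0 := by rw [be, if_neg h, sum_ee]

/-- the length of the step from `i` to its neighbour -/
def step (z : Par r) (d : Fin r × Bool) (i : Vx g) : ℤ :=
  z (.inr d, C.crd (C.nb d i) (.inr d)) - z (.inr d, C.crd i (.inr d))

variable {C}

theorem Far.symm {i m : Vx g} (h : C.Far i m) : C.Far m i := by
  obtain ⟨d, d', a, b, c⟩ := h
  exact ⟨d, d', a, b.symm, c.symm⟩

theorem Far.ne {i m : Vx g} (h : C.Far i m) : i ≠ m := by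
  rintro rfl
  obtain ⟨d, -, -, b, -⟩ := h
  exact b rfl

namespace Ok

variable (h : C.Ok)
include h

theorem nb_ne (d : Fin r × Bool) {i : Vx g} (hi : i ≠ 0) : C.nb d i ≠ i := fun e =>
  h.ne d i hi (by rw [e])

theorem nb_inj {d d' : Fin r × Bool} {i : Vx g} (hi : i ≠ 0) (e : C.nb d i = C.nb d' i) :
    d = d' := by
  by_contra c
  exact h.ne d i hi (by rw [e, h.eq d' i _ hi (by simpa using c)])

theorem not_far (d : Fin r × Bool) {i : Vx g} (hi : i ≠ 0) : ¬C.Far i (C.nb d i) := by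
  rintro ⟨a, b, c, e, f⟩
  by_cases k : a = .inr d
  · exact f (h.eq d i b hi fun x => c (k.trans x.symm)).symm
  · exact e (h.eq d i a hi k).symm

/-- different vertices differ in a slot that is not the vertical one -/
theorem slot {i m : Vx g} (hi : i ≠ 0) (hm : m ≠ 0) (c : i ≠ m) :
    ∃ d, d ≠ .inl true ∧ C.crd i d ≠ C.crd m d := by
  by_contra k
  push Not at k
  refine c (h.inj i m hi hm (funext fun d => ?_))
  by_cases e : d = .inl true
  · rw [e, ← h.ab, ← h.ab]
    exact k _ (by simp)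
  · exact k d e

/-- different vertices differ in a slot that is not the horizontal one -/
theorem slot' {i m : Vx g} (hi : i ≠ 0) (hm : m ≠ 0) (c : i ≠ m) :
    ∃ d, d ≠ .inl false ∧ C.crd i d ≠ C.crd m d := by
  obtain ⟨d, -, b⟩ := h.slot hi hm c
  by_cases e : d = .inl false
  · exact ⟨.inl true, by simp, by rwa [e, h.ab, h.ab] at b⟩
  · exact ⟨d, e, b⟩

theorem adj {i m : Vx g} (hi : i ≠ 0) (hm : m ≠ 0) (c : i ≠ m) (f : ¬C.Far i m) :
    ∃ d, m = C.nb d i := by
  obtain ⟨d, a, b⟩ := h.slot hi hm c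
  have k : ∀ d', d' ≠ d → C.crd m d' = C.crd i d' := fun d' e => by
    by_contra x
    exact f ⟨d, d', e.symm, b, fun y => x y.symm⟩
  rcases d with x | d
  · obtain rfl : x = false := by simpa using a
    exact absurd (by rw [h.ab, h.ab]; exact (k _ (by simp)).symm) b
  · exact ⟨d, (h.uniq d i m hi hm k).resolve_left c.symm⟩

theorem sum_nb (f : Dir r → ℤ) (z : Par r) (d : Fin r × Bool) {i : Vx g} (hi : i ≠ 0) :
    ∑ d', f d' * z (d', C.crd (C.nb d i) d') =
      ∑ d', f d' * z (d', C.crd i d') + f (.inr d) * C.step z d i := by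
  rw [← add_sum_erase _ _ (mem_univ (.inr d)), ← add_sum_erase _ _ (mem_univ (.inr d)),
    sum_congr rfl fun d' hd => by rw [h.eq d i d' hi (ne_of_mem_erase hd)], step]
  ring

theorem al_nb (z : Par r) (d : Fin r × Bool) {i : Vx g} (hi : i ≠ 0) :
    C.al z (C.nb d i) = C.al z i + lam (.inr d) * C.step z d i := by
  rw [al, al, if_neg hi, if_neg (h.n0 d i hi), h.sum_nb lam z d hi]

theorem be_nb (z : Par r) (d : Fin r × Bool) {i : Vx g} (hi : i ≠ 0) :
    C.be z (C.nb d i) = C.be z i + mu (.inr d) * C.step z d i := by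
  rw [be, be, if_neg hi, if_neg (h.n0 d i hi), h.sum_nb mu z d hi]

end Ok

end Cfg

theorem ph_zero : ph (0 : Vx g) = 0 := if_pos rfl

theorem ph_ne {i : Vx g} (h : i ≠ 0) : ph i = 1 := if_neg h

theorem ed_snd_ne (e : Ed g) : e.1.2 ≠ 0 := (lt_of_le_of_lt (Fin.zero_le _) e.2).ne'

end Pool.Agent.MP_a43263_nt.JR
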