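import Pool.Agent.MP_a43263_nt.JC.Main
import Pool.Agent.MP_a43263_nt.JR.Basic

/-! THEOREM R, row FINP: THEOREM J with private primes. -/

set_option autoImplicit false

noncomputable section

namespace Pool.Agent.MP_a43263_nt.JR

open Finset Filter JC
open R2 (Ker Sc Shape)
open RG (Ix Gen Adm AA POSStmt adm_of_mem mem_AA ev_ge)
open RG.FIN (exists_scale)
open RH (Smooth)
open CubA (w w_mul w_zero w_one)

theorem pv {g m N : ℕ} {b a : Vx g → ℤ} {cg : Gen m → Ed g} {V : Finset (Gen m)} {dg : Gen m → ℤ}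
    {A : Ed g → ℕ} (h : Loc3 N b a cg V dg A) (h1 : ∀ e, 1 < A e) : Pv a := fun e => by
  classical
  obtain ⟨x, hx⟩ : (V.filter fun x => cg x = e).Nonempty := by
    by_contra c
    have := h1 e
    rw [h.hA, not_nonempty_iff_eq_empty.1 c, prod_empty] at this
    exact lt_irrefl _ this
  obtain ⟨x1, x2⟩ := mem_filter.1 hx
  obtain ⟨hp, hN⟩ := h.pr x x1
  have := Fact.mk hp
  have nd : ∀ S ⊆ V, x ∉ S → ¬x.2 ∣ ∏ y ∈ S, y.2 := fun S hS hx c => by
    obtain ⟨y, hy, d⟩ := (Prime.dvd_finsetProd_iff hp.prime _).1 c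
    exact hx (h.dist x x1 y (hS hy)
      ((Nat.prime_dvd_prime_iff_eq hp (h.pr y (hS hy)).1).1 d) ▸ hy)
  refine ⟨x.2, hp, fun e' => ?_⟩
  have sm := h.sb.sm e'.1.2 e'.1.1 (ed_ne e').symm
  have a0 : A e' ≠ 0 := by have := h1 e'; omega
  rw [h.eq, Int.cast_mul, w_mul (Int.cast_ne_zero.2 sm.1) (by exact_mod_cast a0),
    w_zero fun c => hN (sm.2 _ hp c), zero_add]
  split_ifs with c
  · subst c
    have e1 : A e' = x.2 * ∏ y ∈ (V.filter fun x => cg x = e').erase x, y.2 := by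
      rw [h.hA, mul_prod_erase _ (fun y : Gen m => y.2) hx]
    refine w_one (by exact_mod_cast Dvd.intro _ e1.symm) fun d => ?_
    have d' : x.2 * x.2 ∣ A e' := by rw [← sq]; exact_mod_cast d
    rw [e1] at d'
    exact nd _ ((erase_subset _ _).trans (filter_subset _ _)) (notMem_erase _ _)
      (Nat.dvd_of_mul_dvd_mul_left hp.pos d')
  · refine w_zero fun d => nd _ (filter_subset (fun x => cg x = e') _)
      (fun k => c ((mem_filter.1 k).2.symm.trans x2)) ?_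
    rw [← h.hA]
    exact_mod_cast d

open FinH in
theorem fin4 : FRAMEStmt → PAR3Stmt → POSStmt → MKV3Stmt → BASE3Stmt → EXTStmt → PT3Stmt →
    OK3Stmt → BR3Stmt → GEO3Stmt → GOOD3Stmt → FINPStmt := by
  classical
  intro frame par pos mkv base ext pt ok br geo good g n r F hF
  obtain ⟨N, w, hpre, base⟩ := base g n r F hF
  obtain ⟨Fr, hFr⟩ := frame g N _ (sb hF hpre)
  obtain ⟨B, rfl, rfl, hB, hpar⟩ := base (r + Fr.par)
  obtain ⟨m, e₀, ext⟩ := ext g n r F B hF hB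
  obtain ⟨P₀, J₀, hpos⟩ := pos m e₀
  obtain ⟨T, hT, he, hP⟩ := ext (P₀ + 2 * Fr.k)
  have hk : 2 * Fr.k ≤ T.M := ((Nat.le_add_left _ _).trans (Nat.self_le_factorial _)).trans
    (Nat.le_of_dvd hT.pos hP)
  have hD := ok g n m r F B T Fr hF hB hT hFr hk
  obtain ⟨δ, hδ, hpos⟩ := hpos _ hD.ok he fun p hp h =>
    (Nat.dvd_factorial hp.pos (by omega)).trans hP
  have g1 := hF.pos
  have er : 2 * g + r - 2 + 2 = 2 * g + r := by omega
  choose! v hv using pt g n m r F B T Fr hF hB hT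
  obtain ⟨J₁, hJ₁⟩ := mkv m _ (2 * g + r - 2) δ hD (er ▸ geo g n m r F B T Fr hF hB hT hFr hD)
    (fun l hl he => by
      obtain ⟨h1, h2, h3⟩ := br g n m r F B T Fr hF hB hT l hl _ (hv l hl).2
      obtain ⟨κ, k1, k2⟩ := par g m _ _ _ Fr _ _ _ _ hFr h1 h2
      obtain ⟨s, hs⟩ : Even (∑ h ∈ T.gr.RF, (l h).primeFactors.card) := he
      rw [← union_assoc] at k1
      exact ⟨κ, k1, by omega⟩)
    (by
      change Even (univ.map T.em).card
      rw [card_map, card_univ, Fintype.card_prod, Fintype.card_fin]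
      exact hF.ev.mul_left _) hδ
  rw [er] at hJ₁
  obtain ⟨X, good⟩ := good g n m r F B T Fr hF hB hT hFr
  obtain ⟨j₀, k₀, hjk⟩ := pair hF
  obtain ⟨K, hK₀⟩ := exc X (F.A j₀) (F.B j₀)
  obtain ⟨t, ht⟩ := ((hpos (J₀ + J₁) (Nat.le_add_right _ _)).and
    (hJ₁ (J₀ + J₁) (Nat.le_add_left _ _)).par).and (ev_ge K)
  obtain ⟨C, hC, hCb⟩ := bound hF fun j => F.LZ j B.w * B.a j
  have hC' : (0 : ℝ) < C := by exact_mod_cast hC
  have hw : ∀ j, F.LZ j B.w * B.a j ≠ 0 := fun j =>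
    mul_ne_zero (hB.pre.sm j).1 (by exact_mod_cast (hB.sqf j).ne_zero)
  refine ⟨δ / 32 / (2 * C) ^ 2, by positivity, ?_⟩
  filter_upwards [(Nat.tendsto_div_const_atTop (n := C) (by omega)).eventually
    (exists_scale m T.M (J₀ + J₁) t), eventually_ge_atTop C] with H hS hH
  obtain ⟨S, h1, h3, h4, hR, hZ⟩ := hS
  obtain ⟨⟨⟨e, hA⟩, hG⟩, hY⟩ := ht S h1 h3 h4 hR
  have hG' := hG e hA
  have hZH : C * S.Z ≤ H := hZ ▸ Nat.mul_div_le _ _
  have hHZ : (H : ℝ) ≤ 2 * C * S.Z := by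
    have k1 : H < C * (S.Z + 1) := hZ ▸ Nat.lt_mul_div_succ _ hC
    have k2 : 1 ≤ S.Z := hZ ▸ Nat.div_pos hH hC
    have k3 : H ≤ 2 * C * S.Z := by nlinarith
    exact_mod_cast k3
  refine le_trans ?_ (hG'.trans (Nat.cast_le.2 (card_le_card_of_injOn v (fun l hl => ?_)
    fun l hl l' hl' h => ?_)))
  · rw [div_mul_eq_mul_div, div_le_iff₀ (by positivity)]
    calc δ / 32 * (H : ℝ) ^ 2 ≤ δ / 32 * (2 * C * S.Z) ^ 2 := by gcongr
      _ = _ := by ring
  · obtain ⟨hl, hK⟩ := mem_filter.1 (mem_coe.1 hl)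
    have ad := adm_of_mem (hR.par e) hl
    obtain ⟨b1, -, -, -, hsh⟩ := mem_AA.1 hl
    obtain ⟨v1, v2⟩ := hv l ad
    obtain ⟨c1, c2⟩ := hCb S.Z (fun j => l (T.em j)) (v l) (fun j => (b1 _).2) v2
    have c3 : (C * S.Z : ℤ) ≤ H := by exact_mod_cast hZH
    have ne : ¬((v l).2 = 0 ∨ ((v l).1 / (v l).2 : ℚ) ∈ X) := fun c => by
      have d1 : (F.LZ j₀ (v l)).natAbs ≤ K := hK₀ _ v1 c
      rw [v2, Int.natAbs_mul, Int.natAbs_natCast] at d1
      have d4 := (Nat.le_mul_of_pos_left _ (Int.natAbs_pos.2 (hw j₀))).trans d1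
      obtain ⟨c, P, hc, -, hP, e'⟩ := hsh (T.em j₀)
      have d5 : P ≤ l (T.em j₀) := e' ▸ Nat.le_mul_of_pos_left _ hc.pos
      have d6 : S.Y' < P := hP
      have := hR.Y0_le.trans hR.Y_le
      omega
    exact mem_coe.2 (mem_filter.2 ⟨mem_product.2 ⟨mem_Icc.2 (abs_le.1 (c1.trans c3)),
      mem_Icc.2 (abs_le.1 (c2.trans c3))⟩, v1,
      good l ad (fun j => (hsh j).one_lt) hK _ v2 (fun c => ne (.inl c)) fun c => ne (.inr c),
      pv (br g n m r F B T Fr hF hB hT l ad _ v2).1 fun e => by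
        have h0 : 0 < n := by have := hF.two; omega
        refine lt_of_lt_of_le (lt_of_lt_of_le (hsh (T.em (e, ⟨0, h0⟩))).one_lt
          (Nat.le_mul_of_pos_left _ (Nat.pos_of_ne_zero (hB.sqf (e, ⟨0, h0⟩)).ne_zero))) ?_
        exact single_le_prod' (f := fun k => B.a (e, k) * l (T.em (e, k))) (fun k _ =>
          Nat.mul_pos (Nat.pos_of_ne_zero (hB.sqf _).ne_zero)
            (Nat.pos_of_ne_zero (ad.sqf _).ne_zero)) (mem_univ _)⟩)
  · have a1 := adm_of_mem (hR.par e) (mem_filter.1 (mem_coe.1 hl)).1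
    have a2 := adm_of_mem (hR.par e) (mem_filter.1 (mem_coe.1 hl')).1
    have key : ∀ j, l (T.em j) = l' (T.em j) := fun j =>
      Nat.cast_injective (R := ℤ) (mul_left_cancel₀ (hw j) (by
        rw [← (hv l a1).2, ← (hv l' a2).2, h]))
    exact a1.lin.ext a2.lin (hT.ne _ _ (T.em.injective.ne hjk)) (key k₀) (key j₀)

theorem finp : FINPStmt :=
  have hm := mat3 gp3
  fin4 (frame gp3 T.grp (rec3 gp3 iso nrm T.qv T.symb)) (par3 gp3 hm (RH.bor5 RG.T.bor)) RG.T.pos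
    mkvAll (base3 RH.pty) ext3 pt3 (ok3 gp3 hm graph) br3 (geo3 hm kc3)
    (good3 (alg3 T.desc) (loc3 gp3 hm T.val T.nod (cst3 T.cstp T.cstr)) br3 spe3)

end Pool.Agent.MP_a43263_nt.JR
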