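import Pool.Agent.MP_a43263_nt.JR.Basic

/-! THEOREM R, second part: all large genera, and Jacobians that are not isogenous. -/

set_option autoImplicit false

noncomputable section

namespace Pool.Agent.MP_a43263_nt.JR

open Finset Filter Polynomial JC

variable {r : ℕ}

/-- the vectors agree outside the slot `d` -/
def Ag (d : Fin r × Bool) (x y : Fin r × Bool → ℕ) : Prop := ∀ d', d' ≠ d → y d' = x d'

/-- every line through a point of `S` has exactly two points, and there is no rectangle in two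
mirror slots -/
structure Blk (S : Finset (Fin r × Bool → ℕ)) : Prop where
  two : ∀ d, ∀ x ∈ S, ∃ y ∈ S, y ≠ x ∧ Ag d x y ∧ ∀ z ∈ S, Ag d x z → z = x ∨ z = y
  hex : ∀ d, ∀ x ∈ S, ∀ y ∈ S, ∀ y' ∈ S, ∀ z ∈ S, y ≠ x → y' ≠ x → Ag d x y → Ag (bar d) x y' →
    Ag (bar d) y z → ¬Ag d y' z

/-- a configuration made of blocks -/
def CFGAStmt : Prop := ∀ (g r n : ℕ) (S : Fin n → Finset (Fin r × Bool → ℕ)), 1 ≤ g →
  (∀ c, Blk (S c)) → ∑ c, (S c).card = 2 * g → ∃ C : Cfg g r, C.Ok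

/-- the product of hexagons -/
def BLK1Stmt : Prop := ∀ r : ℕ, ∃ S : Finset (Fin r × Bool → ℕ), Blk S ∧ S.card = 6 ^ r ∧ 0 ∈ S ∧
  ∀ x ∈ S, ∀ d, x d < 3

/-- two copies glued at a vertex, which is removed -/
def BLK2Stmt : Prop := ∀ (r : ℕ) (S : Finset (Fin r × Bool → ℕ)), Blk S → 0 ∈ S →
  (∀ x ∈ S, ∀ d, x d < 3) → ∃ S' : Finset (Fin r × Bool → ℕ), Blk S' ∧ S'.card + 2 = 2 * S.card

def CFG2Stmt : Prop := ∀ g r : ℕ, 36 ^ r ≤ g → ∃ C : Cfg g r, C.Ok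

/-- the homomorphisms that commute with a subgroup of finite index kill the 2-power torsion -/
def Ort {G A B : Type} [Group G] [AddCommGroup A] [AddCommGroup B] (ρ : G → A →+ A)
    (ρ' : G → B →+ B) : Prop :=
  ∀ U : Subgroup G, U.FiniteIndex → ∀ φ : A →+ B, (∀ σ ∈ U, ∀ P, φ (ρ σ P) = ρ' σ (φ P)) →
    ∀ (k : ℕ) (P : A), 2 ^ k • P = 0 → φ P = 0

/-- transvections on the source that act trivially on the second layer of the target -/
def ABS2Stmt : Prop := ∀ (G A B ι : Type) [Group G] [AddCommGroup A] [AddCommGroup B] [Fintype ι]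
  [DecidableEq ι] (ρ : G → A →+ A) (ρ' : G → B →+ B) (W : ι → A),
  (∀ σ τ P, ρ (σ * τ) P = ρ σ (ρ τ P)) → (∀ σ τ P, ρ' (σ * τ) P = ρ' σ (ρ' τ P)) →
  (∀ P : A, ∃ Q, 2 • Q = P) → Odd (Fintype.card ι) → (∀ i, 2 • W i = 0) → ∑ i, W i = 0 →
  (∀ σ i, ρ σ (W i) = W i) → (∀ P : A, 2 • P = 0 → ∃ S : Finset ι, P = ∑ i ∈ S, W i) →
  (∀ k l, k ≠ l → ∃ σ, (∀ i Q, 2 • Q = W i →
    ρ σ Q - Q = if i = k ∨ i = l then W k + W l else 0) ∧ ∀ Q : B, 2 ^ 2 • Q = 0 → ρ' σ Q = Q) →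
  Ort ρ ρ'

end Pool.Agent.MP_a43263_nt.JR
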