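import Pool.Agent.MP_a43263_nt.JC.Main
import Pool.Agent.MP_a43263_nt.JR.Spec2

/-! THEOREM R, row FINQ: THEOREM J with large private primes. -/

set_option autoImplicit false

noncomputable section

namespace Pool.Agent.MP_a43263_nt.JR

open Finset Filter JC
open R2 (Ker Sc Shape)
open RG (Ix Gen Adm AA POSStmt adm_of_mem mem_AA ev_ge)
open RG.FIN (exists_scale)
open RH (Smooth)
open CubA (w w_mul w_zero w_one)

/-- every difference of roots has a large prime of its own -/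
def PvB {g : ℕ} (B : ℕ) (a : Vx g → ℤ) : Prop := ∀ e : Ed g, ∃ p : ℕ, p.Prime ∧ B < p ∧
  ∀ e' : Ed g, w p (a e'.1.2 - a e'.1.1 : ℤ) = if e' = e then 1 else 0

open Classical in
def FINQStmt : Prop := ∀ (g n r : ℕ) (F : HS g n), F.Hyp r → ∃ c : ℝ, 0 < c ∧ ∀ B : ℕ,
  ∀ᶠ H : ℕ in atTop, c * (H : ℝ) ^ 2 ≤ (((Icc (-H : ℤ) H ×ˢ Icc (-H : ℤ) H).filter fun v : ℤ × ℤ =>
    IsCoprime v.1 v.2 ∧ JGood g r (F.fibre v) ∧ PvB B (F.aZ v)).card : ℝ)

theorem pvb {g m N B : ℕ} {b a : Vx g → ℤ} {cg : Gen m → Ed g} {V : Finset (Gen m)}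
    {dg : Gen m → ℤ} {A : Ed g → ℕ} (h : Loc3 N b a cg V dg A)
    (h1 : ∀ e, ∃ P : ℕ, P.Prime ∧ B < P ∧ P ∣ A e) : PvB B a := fun e => by
  classical
  obtain ⟨x, hx, hB⟩ : ∃ x ∈ V.filter fun x => cg x = e, B < x.2 := by
    obtain ⟨P, a1, a2, a3⟩ := h1 e
    rw [h.hA] at a3
    obtain ⟨y, hy, d⟩ := (Prime.dvd_finsetProd_iff a1.prime _).1 a3
    exact ⟨y, hy, (Nat.prime_dvd_prime_iff_eq a1 (h.pr y (mem_filter.1 hy).1).1).1 d ▸ a2⟩
  obtain ⟨x1, x2⟩ := mem_filter.1 hx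
  obtain ⟨hp, hN⟩ := h.pr x x1
  have := Fact.mk hp
  have nd : ∀ S ⊆ V, x ∉ S → ¬x.2 ∣ ∏ y ∈ S, y.2 := fun S hS hx c => by
    obtain ⟨y, hy, d⟩ := (Prime.dvd_finsetProd_iff hp.prime _).1 c
    exact hx (h.dist x x1 y (hS hy)
      ((Nat.prime_dvd_prime_iff_eq hp (h.pr y (hS hy)).1).1 d) ▸ hy)
  refine ⟨x.2, hp, hB, fun e' => ?_⟩
  have sm := h.sb.sm e'.1.2 e'.1.1 (ed_ne e').symm
  have a0 : A e' ≠ 0 := by
    rw [h.hA]
    exact prod_ne_zero_iff.2 fun y hy => (h.pr y (mem_filter.1 hy).1).1.ne_zero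
  rw [h.eq, Int.cast_mul, w_mul (Int.cast_ne_zero.2 sm.1) (by exact_mod_cast a0),
    w_zero fun c => hN (sm.2 _ hp c), zero_add]
  split_ifs with c
  · subst c
    have e1 : A e' = x.2 * ∏ y ∈ (V.filter fun x => cg x = e').erase x, y.2 := by
      rw [h.hA, mul_prod_erase _ (fun y : Gen m => y.2) hx]
    refine w_one (by exact_mod_cast Dvd.intro _ e1.symm) fun d => ?_
    have d' : x.2 * x.2 ∣ A e' := by rw [← sq]; exact_mod_cast d
    rw [e1] at d'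
    exact nd _ ((erase_subset _ _).trans (filter_subset _ _)) (notMem_erase _ _)
      (Nat.dvd_of_mul_dvd_mul_left hp.pos d')
  · refine w_zero fun d => nd _ (filter_subset (fun x => cg x = e') _)
      (fun k => c ((mem_filter.1 k).2.symm.trans x2)) ?_
    rw [← h.hA]
    exact_mod_cast d

open FinH in
theorem fin5 : FRAMEStmt → PAR3Stmt → POSStmt → MKV3Stmt → BASE3Stmt → EXTStmt → PT3Stmt →
    OK3Stmt → BR3Stmt → GEO3Stmt → GOOD3Stmt → FINQStmt := by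
  classical
  intro frame par pos mkv base ext pt ok br geo good g n r F hF
  obtain ⟨N, w, hpre, base⟩ := base g n r F hF
  obtain ⟨Fr, hFr⟩ := frame g N _ (sb hF hpre)
  obtain ⟨B, rfl, rfl, hB, hpar⟩ := base (r + Fr.par)
  obtain ⟨m, e₀, ext⟩ := ext g n r F B hF hB
  obtain ⟨P₀, J₀, hpos⟩ := pos m e₀
  obtain ⟨T, hT, he, hP⟩ := ext (P₀ + 2 * Fr.k)
  have hk : 2 * Fr.k ≤ T.M := ((Nat.le_add_left _ _).trans (Nat.self_le_factorial _)).trans
    (Nat.le_of_dvd hT.pos hP)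
  have hD := ok g n m r F B T Fr hF hB hT hFr hk
  obtain ⟨δ, hδ, hpos⟩ := hpos _ hD.ok he fun p hp h =>
    (Nat.dvd_factorial hp.pos (by omega)).trans hP
  have g1 := hF.pos
  have er : 2 * g + r - 2 + 2 = 2 * g + r := by omega
  choose! v hv using pt g n m r F B T Fr hF hB hT
  obtain ⟨J₁, hJ₁⟩ := mkv m _ (2 * g + r - 2) δ hD (er ▸ geo g n m r F B T Fr hF hB hT hFr hD)
    (fun l hl he => by
      obtain ⟨h1, h2, h3⟩ := br g n m r F B T Fr hF hB hT l hl _ (hv l hl).2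
      obtain ⟨κ, k1, k2⟩ := par g m _ _ _ Fr _ _ _ _ hFr h1 h2
      obtain ⟨s, hs⟩ : Even (∑ h ∈ T.gr.RF, (l h).primeFactors.card) := he
      rw [← union_assoc] at k1
      exact ⟨κ, k1, by omega⟩)
    (by
      change Even (univ.map T.em).card
      rw [card_map, card_univ, Fintype.card_prod, Fintype.card_fin]
      exact hF.ev.mul_left _) hδ
  rw [er] at hJ₁
  obtain ⟨X, good⟩ := good g n m r F B T Fr hF hB hT hFr
  obtain ⟨j₀, k₀, hjk⟩ := pair hF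
  obtain ⟨K, hK₀⟩ := exc X (F.A j₀) (F.B j₀)
  obtain ⟨C, hC, hCb⟩ := bound hF fun j => F.LZ j B.w * B.a j
  have hC' : (0 : ℝ) < C := by exact_mod_cast hC
  have hw : ∀ j, F.LZ j B.w * B.a j ≠ 0 := fun j =>
    mul_ne_zero (hB.pre.sm j).1 (by exact_mod_cast (hB.sqf j).ne_zero)
  refine ⟨δ / 32 / (2 * C) ^ 2, by positivity, fun B₀ => ?_⟩
  obtain ⟨t, ht⟩ := ((hpos (J₀ + J₁) (Nat.le_add_right _ _)).and
    (hJ₁ (J₀ + J₁) (Nat.le_add_left _ _)).par).and (ev_ge (K + B₀))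
  filter_upwards [(Nat.tendsto_div_const_atTop (n := C) (by omega)).eventually
    (exists_scale m T.M (J₀ + J₁) t), eventually_ge_atTop C] with H hS hH
  obtain ⟨S, h1, h3, h4, hR, hZ⟩ := hS
  obtain ⟨⟨⟨e, hA⟩, hG⟩, hY⟩ := ht S h1 h3 h4 hR
  have hG' := hG e hA
  have hZH : C * S.Z ≤ H := hZ ▸ Nat.mul_div_le _ _
  have hHZ : (H : ℝ) ≤ 2 * C * S.Z := by
    have k1 : H < C * (S.Z + 1) := hZ ▸ Nat.lt_mul_div_succ _ hC
    have k2 : 1 ≤ S.Z := hZ ▸ Nat.div_pos hH hC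
    have k3 : H ≤ 2 * C * S.Z := by nlinarith
    exact_mod_cast k3
  refine le_trans ?_ (hG'.trans (Nat.cast_le.2 (card_le_card_of_injOn v (fun l hl => ?_)
    fun l hl l' hl' h => ?_)))
  · rw [div_mul_eq_mul_div, div_le_iff₀ (by positivity)]
    calc δ / 32 * (H : ℝ) ^ 2 ≤ δ / 32 * (2 * C * S.Z) ^ 2 := by gcongr
      _ = _ := by ring
  · obtain ⟨hl, hK⟩ := mem_filter.1 (mem_coe.1 hl)
    have ad := adm_of_mem (hR.par e) hl
    obtain ⟨b1, -, -, -, hsh⟩ := mem_AA.1 hl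
    obtain ⟨v1, v2⟩ := hv l ad
    obtain ⟨c1, c2⟩ := hCb S.Z (fun j => l (T.em j)) (v l) (fun j => (b1 _).2) v2
    have c3 : (C * S.Z : ℤ) ≤ H := by exact_mod_cast hZH
    have ne : ¬((v l).2 = 0 ∨ ((v l).1 / (v l).2 : ℚ) ∈ X) := fun c => by
      have d1 : (F.LZ j₀ (v l)).natAbs ≤ K := hK₀ _ v1 c
      rw [v2, Int.natAbs_mul, Int.natAbs_natCast] at d1
      have d4 := (Nat.le_mul_of_pos_left _ (Int.natAbs_pos.2 (hw j₀))).trans d1
      obtain ⟨c, P, hc, -, hP, e'⟩ := hsh (T.em j₀)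
      have d5 : P ≤ l (T.em j₀) := e' ▸ Nat.le_mul_of_pos_left _ hc.pos
      have d6 : S.Y' < P := hP
      have := hR.Y0_le.trans hR.Y_le
      omega
    exact mem_coe.2 (mem_filter.2 ⟨mem_product.2 ⟨mem_Icc.2 (abs_le.1 (c1.trans c3)),
      mem_Icc.2 (abs_le.1 (c2.trans c3))⟩, v1,
      good l ad (fun j => (hsh j).one_lt) hK _ v2 (fun c => ne (.inl c)) fun c => ne (.inr c),
      pvb (br g n m r F B T Fr hF hB hT l ad _ v2).1 fun e => by
        have h0 : 0 < n := by have := hF.two; omega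
        obtain ⟨c, P, -, hp, hP, e'⟩ := hsh (T.em (e, ⟨0, h0⟩))
        have := hR.Y0_le.trans hR.Y_le
        have d6 : S.Y' < P := hP
        exact ⟨P, hp, by omega, ((Dvd.intro_left _ e'.symm).mul_left _).trans
          (dvd_prod_of_mem (fun k => B.a (e, k) * l (T.em (e, k))) (mem_univ _))⟩⟩)
  · have a1 := adm_of_mem (hR.par e) (mem_filter.1 (mem_coe.1 hl)).1
    have a2 := adm_of_mem (hR.par e) (mem_filter.1 (mem_coe.1 hl')).1
    have key : ∀ j, l (T.em j) = l' (T.em j) := fun j =>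
      Nat.cast_injective (R := ℤ) (mul_left_cancel₀ (hw j) (by
        rw [← (hv l a1).2, ← (hv l' a2).2, h]))
    exact a1.lin.ext a2.lin (hT.ne _ _ (T.em.injective.ne hjk)) (key k₀) (key j₀)

theorem finq : FINQStmt :=
  have hm := mat3 gp3
  fin5 (frame gp3 T.grp (rec3 gp3 iso nrm T.qv T.symb)) (par3 gp3 hm (RH.bor5 RG.T.bor)) RG.T.pos
    mkvAll (base3 RH.pty) ext3 pt3 (ok3 gp3 hm graph) br3 (geo3 hm kc3)
    (good3 (alg3 T.desc) (loc3 gp3 hm T.val T.nod (cst3 T.cstp T.cstr)) br3 spe3)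

end Pool.Agent.MP_a43263_nt.JR
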