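import Pool.Agent.MP_a43263_nt.JR.Basic
import Pool.Agent.MP_a43263_nt.JC.Zar

/-! THEOREM R: the sections of the pencil. -/

set_option autoImplicit false

noncomputable section

namespace Pool.Agent.MP_a43263_nt.JR

open Finset Polynomial JC
open CubA (sg w Y sg_pm)
open Zar (rr fam_a)

variable {g r : ℕ}

namespace Sec

/-- the pair `e` consists of `i` and `j` -/
def Jn (e : Ed g) (i j : Vx g) : Prop := e.1 = (i, j) ∨ e.1 = (j, i)

theorem jn_ex {i j : Vx g} (h : i ≠ j) : ∃ e, Jn e i j :=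
  (lt_or_gt_of_ne h).elim (fun c => ⟨⟨(i, j), c⟩, .inl rfl⟩) fun c => ⟨⟨(j, i), c⟩, .inr rfl⟩

theorem Jn.uq {e e' : Ed g} {i j : Vx g} (h : Jn e i j) (h' : Jn e' i j) : e = e' := by
  have a := e.2
  have b := e'.2
  rcases h with h | h <;> rcases h' with h' | h'
  · exact Subtype.ext (h.trans h'.symm)
  · rw [h] at a; rw [h'] at b; exact absurd a (lt_asymm b)
  · rw [h] at a; rw [h'] at b; exact absurd a (lt_asymm b)
  · exact Subtype.ext (h.trans h'.symm)

theorem Jn.inj {e : Ed g} {i j k : Vx g} (h : Jn e i j) (h' : Jn e i k) : j = k := by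
  have a := e.2
  rcases h with h | h <;> rcases h' with h' | h'
  · exact congrArg Prod.snd (h.symm.trans h')
  · have c := h.symm.trans h'
    exact (congrArg Prod.snd c).trans (congrArg Prod.fst c)
  · have c := h.symm.trans h'
    exact (congrArg Prod.fst c).trans (congrArg Prod.snd c)
  · exact congrArg Prod.fst (h.symm.trans h')

variable {C : Cfg g r} {z : Par r}

theorem mem_blk (k : Fin r) (h : Ed g × Fin 2) :
    h ∈ C.blk {some k} ↔ h.2 = 0 ∧ h.1.1.1 ≠ 0 ∧ ∃ b, h.1.1.2 = C.nb (k, b) h.1.1.1 := by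
  simp [Cfg.blk, Cfg.Nx]

theorem flt_zero (k : Fin r) : (C.blk {some k}).filter (fun h => On 0 h.1) = ∅ :=
  filter_eq_empty_iff.2 fun h hh c =>
    c.elim (fun c => ((mem_blk k h).1 hh).2.1 c.symm) fun c => ed_snd_ne h.1 c.symm

theorem flt (hC : C.Ok) (k : Fin r) {i : Vx g} (hi : i ≠ 0) {e e' : Ed g}
    (he : Jn e i (C.nb (k, true) i)) (he' : Jn e' i (C.nb (k, false) i)) :
    (C.blk {some k}).filter (fun h => On i h.1) = {(e, 0), (e', 0)} := by
  have key : ∀ b (x : Ed g), Jn x i (C.nb (k, b) i) →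
      (x, (0 : Fin 2)) ∈ (C.blk {some k}).filter (fun h => On i h.1) := fun b x hx => by
    rw [mem_filter, mem_blk]
    rcases hx with c | c
    · exact ⟨⟨rfl, by rw [c]; exact hi, b, by rw [c]⟩, .inl (by rw [c])⟩
    · exact ⟨⟨rfl, by rw [c]; exact hC.n0 _ _ hi, b, by rw [c]; exact (hC.inv _ _ hi).symm⟩,
        .inr (by rw [c])⟩
  ext ⟨x, s⟩
  rw [mem_insert, mem_singleton]
  refine ⟨fun c => ?_, fun c => c.elim (fun c => c ▸ key _ _ he) fun c => c ▸ key _ _ he'⟩
  rw [mem_filter, mem_blk] at c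
  obtain ⟨⟨rfl, c1, b, c2⟩, c3⟩ := c
  have j : Jn x i (C.nb (k, b) i) := by
    rcases c3 with rfl | rfl
    · exact .inl (Prod.ext rfl c2)
    · exact .inr (Prod.ext (by rw [c2, hC.inv _ _ c1]) rfl)
  cases b
  · exact .inr (by rw [j.uq he'])
  · exact .inl (by rw [j.uq he])

/-- the difference of the leading coefficients along a pair -/
def de (C : Cfg g r) (z : Par r) (d : Fin r × Bool) (i : Vx g) : ℚ :=
  (if i < C.nb d i then 1 else -1) * (lam (.inr d) * C.step z d i)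

def ka (C : Cfg g r) (z : Par r) (d : Fin r × Bool) (i : Vx g) : ℚ :=
  C.al z (C.nb d i) * (de C z d i)⁻¹

theorem step_ne (hC : C.Ok) (hz : C.Gn z) (d : Fin r × Bool) {i : Vx g} (hi : i ≠ 0) :
    C.step z d i ≠ 0 := fun c => by
  have a := hC.al_nb z d hi
  have b := hC.be_nb z d hi
  rw [c, mul_zero, add_zero] at a b
  obtain ⟨e, he⟩ := jn_ex (hC.nb_ne d hi).symm
  refine hz.dd (e, 0) (e, 1) (by simp) ?_
  have s : sg 0 = -1 := rfl
  rcases he with he | he <;>
    simp only [Cfg.DD, Cfg.fx, Cfg.fy, he, a, b, s, ph_ne hi, ph_ne (hC.n0 d i hi)] <;> ring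

theorem de_ne (hC : C.Ok) (hz : C.Gn z) (d : Fin r × Bool) {i : Vx g} (hi : i ≠ 0) :
    de C z d i ≠ 0 :=
  mul_ne_zero (by split_ifs <;> norm_num) (mul_ne_zero (Int.cast_ne_zero.2 (lam_ne (by simp)))
    (Int.cast_ne_zero.2 (step_ne hC hz d hi)))

theorem ka_ne (hC : C.Ok) (hz : C.Gn z) (d : Fin r × Bool) {i : Vx g} (hi : i ≠ 0) :
    ka C z d i ≠ 0 := mul_ne_zero (Int.cast_ne_zero.2 (hz.al _)) (inv_ne_zero (de_ne hC hz d hi))

theorem de_nb (hC : C.Ok) (d : Fin r × Bool) {i : Vx g} (hi : i ≠ 0) :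
    de C z d (C.nb d i) = de C z d i := by
  have s : C.step z d (C.nb d i) = -C.step z d i := by
    rw [Cfg.step, Cfg.step, hC.inv d i hi, neg_sub]
  rw [de, de, s, hC.inv d i hi]
  rcases lt_or_gt_of_ne (hC.nb_ne d hi) with c | c
  · rw [if_pos c, if_neg (lt_asymm c)]; push_cast; ring
  · rw [if_neg (lt_asymm c), if_pos c]; push_cast; ring

theorem prod_nb (hC : C.Ok) (d : Fin r × Bool) (f : Vx g → ℚ) :
    ∏ i ∈ univ.erase 0, f (C.nb d i) = ∏ i ∈ univ.erase 0, f i :=
  prod_nbij' (C.nb d) (C.nb d) (fun i hi => by simpa using hC.n0 d i (by simpa using hi))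
    (fun i hi => by simpa using hC.n0 d i (by simpa using hi))
    (fun i hi => hC.inv d i (by simpa using hi)) (fun i hi => hC.inv d i (by simpa using hi))
    fun _ _ => rfl

theorem sq_de (hC : C.Ok) (d : Fin r × Bool) : IsSquare (∏ i ∈ univ.erase 0, de C z d i) := by
  rw [← prod_filter_mul_prod_filter_not _ fun i => i < C.nb d i]
  refine ⟨_, congrArg _ (prod_nbij' (C.nb d) (C.nb d) (fun i hi => ?_) (fun i hi => ?_)
    (fun i hi => hC.inv d i (by simpa using (mem_filter.1 hi).1))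
    (fun i hi => hC.inv d i (by simpa using (mem_filter.1 hi).1))
    fun i hi => (de_nb hC d (by simpa using (mem_filter.1 hi).1)).symm)⟩
  · obtain ⟨a, b⟩ := mem_filter.1 hi
    have c : i ≠ 0 := by simpa using a
    refine mem_filter.2 ⟨by simpa using hC.n0 d i c, ?_⟩
    rw [hC.inv d i c]
    exact lt_of_le_of_ne (not_lt.1 b) (hC.nb_ne d c)
  · obtain ⟨a, b⟩ := mem_filter.1 hi
    have c : i ≠ 0 := by simpa using a
    refine mem_filter.2 ⟨by simpa using hC.n0 d i c, ?_⟩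
    rw [hC.inv d i c]
    exact lt_asymm b

theorem prod_ka (hC : C.Ok) (d : Fin r × Bool) : ∏ i ∈ univ.erase 0, ka C z d i =
    (∏ i ∈ univ.erase 0, (C.al z i : ℚ)) * (∏ i ∈ univ.erase 0, de C z d i)⁻¹ := by
  simp only [ka]
  rw [prod_mul_distrib, prod_inv_distrib, prod_nb hC d fun i => (C.al z i : ℚ)]

variable {K : Type} [Field K] [CharZero K]

omit [CharZero K] in
theorem rr_mul (v : K × K) (i : Vx g) : rr (C.pp z) (C.qq z) v i * C.al z i =
    ((∏ l, C.al z l : ℤ) : K) * (ph i * v.1 + C.be z i * v.2) := by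
  rw [← prod_erase_mul _ _ (mem_univ i), rr, Cfg.pp, Cfg.qq]
  push_cast
  ring

theorem key (hC : C.Ok) (hz : C.Gn z) (d : Fin r × Bool) {i : Vx g} (hi : i ≠ 0) {e : Ed g}
    (he : Jn e i (C.nb d i)) (v : K × K) : (ka C z d i : K) * (C.pen z).L (e, 0) v =
      rr (C.pp z) (C.qq z) v i - (mu (.inr d) : K) / lam (.inr d) * rr (C.pp z) (C.qq z) v 0 := by
  have hL : (C.pen z).L (e, 0) v =
      rr (C.pp z) (C.qq z) v e.1.1 - rr (C.pp z) (C.qq z) v e.1.2 := by
    simp only [HS.L, Cfg.pen, fam, rr, Matrix.cons_val_zero]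
    push_cast
    ring
  have h0 := rr_mul (C := C) (z := z) v 0
  have h1 := rr_mul (C := C) (z := z) v i
  have h2 := rr_mul (C := C) (z := z) v (C.nb d i)
  rw [ph_zero, C.al_zero, C.be_zero] at h0
  rw [ph_ne hi] at h1
  rw [ph_ne (hC.n0 d i hi), hC.be_nb z d hi] at h2
  have a2 : (lam (.inr d) : K) ≠ 0 := Int.cast_ne_zero.2 (lam_ne (by simp))
  have a3 : (C.step z d i : K) ≠ 0 := Int.cast_ne_zero.2 (step_ne hC hz d hi)
  have a4 : (C.al z (C.nb d i) : K) = C.al z i + lam (.inr d) * C.step z d i := by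
    rw [hC.al_nb z d hi]; push_cast; rfl
  have hs : (if i < C.nb d i then 1 else -1 : ℚ) * (if i < C.nb d i then 1 else -1) = 1 := by
    split_ifs <;> norm_num
  have hL' : (C.pen z).L (e, 0) v = ((if i < C.nb d i then 1 else -1 : ℚ) : K) *
      (rr (C.pp z) (C.qq z) v i - rr (C.pp z) (C.qq z) v (C.nb d i)) := by
    have c := e.2
    rw [hL]
    rcases he with he | he <;> rw [he] at c ⊢
    · rw [if_pos c]; simp
    · rw [if_neg (lt_asymm c)]; simp
  rw [hL', ka, de, mul_inv, ← eq_inv_of_mul_eq_one_left hs]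
  have hs' := congrArg (Rat.cast : ℚ → K) hs
  rw [Rat.cast_mul, Rat.cast_one] at hs'
  simp only [Rat.cast_mul, Rat.cast_inv, Rat.cast_intCast]
  generalize ((if i < C.nb d i then 1 else -1 : ℚ) : K) = ε at hs'
  push_cast at h0 h1 h2
  field_simp
  rw [a4] at h2 ⊢
  linear_combination ((C.al z i + lam (.inr d) * C.step z d i) * (rr (C.pp z) (C.qq z) v i -
    rr (C.pp z) (C.qq z) v (C.nb d i))) * hs' + h1 - h2 + C.step z d i * mu (.inr d) * h0

end Sec

open Sec in
theorem sec : SECGStmt → SECStmt := by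
  intro H g r C z hC hz hF k
  let x : ℚ := 1 - ((mu (.inr (k, true)) : ℚ) / lam (.inr (k, true))) ^ 2
  have l0 : (lam (.inr (k, true)) : ℚ) ≠ 0 := Int.cast_ne_zero.2 (lam_ne (by simp))
  obtain ⟨p1, p2⟩ := pyth (k, true)
  generalize (((k, true).1 : ℕ) + 2 : ℤ) ^ 2 - 1 = ν at p1 p2
  have hx : x = ((ν : ℚ) / lam (.inr (k, true))) ^ 2 := by
    have := congrArg (Int.cast : ℤ → ℚ) p1
    push_cast at this
    simp only [x]
    field_simp
    exact this
  have ex : ∀ i : Vx g, i ≠ 0 → ∃ e e' : Ed g, Jn e i (C.nb (k, true) i) ∧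
      Jn e' i (C.nb (k, false) i) ∧ ((e, 0) : Ed g × Fin 2) ≠ (e', 0) := fun i hi => by
    obtain ⟨e, he⟩ := jn_ex (hC.nb_ne (k, true) hi).symm
    obtain ⟨e', he'⟩ := jn_ex (hC.nb_ne (k, false) hi).symm
    refine ⟨e, e', he, he', fun c => ?_⟩
    obtain rfl : e = e' := congrArg Prod.fst c
    simpa using hC.nb_inj hi (he.inj he')
  refine ⟨fun i => if i = 0 then x else ka C z (k, true) i * ka C z (k, false) i,
    H g 2 _ _ _ x (C.pp z 0) (C.qq z 0) hF ?_ (fun i => ?_) ?_ (fun i => ?_)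
      (fun h a h' b c => ?_) fun K _ _ v i => ?_⟩
  · exact mul_ne_zero (by rw [C.be_zero]; exact one_ne_zero)
      (prod_ne_zero_iff.2 fun l _ => hz.al l)
  · split_ifs with hi
    · rw [hx]
      exact pow_ne_zero _ (div_ne_zero (Int.cast_ne_zero.2 p2) l0)
    · exact mul_ne_zero (ka_ne hC hz _ hi) (ka_ne hC hz _ hi)
  · rw [← mul_prod_erase _ _ (mem_univ 0), if_pos rfl,
      prod_congr rfl fun i hi => if_neg (ne_of_mem_erase hi), prod_mul_distrib, prod_ka hC,
      prod_ka hC, mul_mul_mul_comm, hx]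
    exact (IsSquare.sq _).mul ((IsSquare.mul_self _).mul ((sq_de hC _).inv.mul (sq_de hC _).inv))
  · by_cases hi : i = 0
    · rw [hi, flt_zero]; simp
    · obtain ⟨e, e', he, he', c⟩ := ex i hi
      rw [flt hC k hi he he', card_pair c]
      exact even_two
  · exact Prod.ext c (((mem_blk k h).1 a).1.trans ((mem_blk k h').1 b).1.symm)
  · have ha : (C.pen z).a v i = _ := fam_a 1 (C.pp z) (C.qq z) v i
    rw [ha, HS.del, show (C.pp z 0 : K) * v.1 + C.qq z 0 * v.2 = rr (C.pp z) (C.qq z) v 0 from rfl]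
    by_cases hi : i = 0
    · rw [hi, flt_zero]; simp
    · obtain ⟨e, e', he, he', c⟩ := ex i hi
      have k1 := key hC hz _ hi he v
      have k2 := key hC hz _ hi he' v
      rw [show ((k, false) : Fin r × Bool) = bar (k, true) from rfl, mu_bar, lam_bar] at k2
      rw [flt hC k hi he he', prod_pair c, if_neg hi, if_neg hi, Rat.cast_mul, mul_mul_mul_comm,
        k1, show ((k, false) : Fin r × Bool) = bar (k, true) from rfl, k2]
      simp only [x]
      push_cast
      ring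

end Pool.Agent.MP_a43263_nt.JR
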