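import Pool.Agent.MP_a43263_nt.JC.Cub
import Pool.Agent.MP_a43263_nt.GRep

/-! THEOREM R: pencils of hyperelliptic Jacobians of every rank. The pencil is an example of
THEOREM J. Note: `/team-store/a43263_R_h1.md`. -/

set_option autoImplicit false

noncomputable section

namespace Pool.Agent.MP_a43263_nt.JR

open Finset Filter Polynomial JC
open CubA (sg w Y)

variable {g r : ℕ}

/-! ### the configuration -/

/-- the slots: horizontal, vertical, and two mirror directions for every `k` -/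
abbrev Dir (r : ℕ) : Type := Bool ⊕ Fin r × Bool

def lam : Dir r → ℤ
  | .inl b => if b = true then 0 else 1
  | .inr x => ((x.1 : ℕ) + 2 : ℤ) ^ 2 + 1

def mu : Dir r → ℤ
  | .inl b => if b = true then 1 else 0
  | .inr x => (if x.2 = true then 1 else -1) * (2 * ((x.1 : ℕ) + 2 : ℤ))

/-- the mirror direction -/
def bar (d : Fin r × Bool) : Fin r × Bool := (d.1, !d.2)

/-- coordinates of the vertices other than `0`, and the neighbour in each direction -/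
structure Cfg (g r : ℕ) where
  crd : Vx g → Dir r → ℕ
  nb : Fin r × Bool → Vx g → Vx g

structure Cfg.Ok (C : Cfg g r) : Prop where
  pos : 1 ≤ g
  inj : ∀ i m, i ≠ 0 → m ≠ 0 → C.crd i = C.crd m → i = m
  ab : ∀ i, C.crd i (.inl false) = C.crd i (.inl true)
  n0 : ∀ d i, i ≠ 0 → C.nb d i ≠ 0
  inv : ∀ d i, i ≠ 0 → C.nb d (C.nb d i) = i
  ne : ∀ d i, i ≠ 0 → C.crd (C.nb d i) (.inr d) ≠ C.crd i (.inr d)
  eq : ∀ d i d', i ≠ 0 → d' ≠ .inr d → C.crd (C.nb d i) d' = C.crd i d'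
  uniq : ∀ d i m, i ≠ 0 → m ≠ 0 → (∀ d', d' ≠ .inr d → C.crd m d' = C.crd i d') →
    m = i ∨ m = C.nb d i
  hex : ∀ d i, i ≠ 0 → C.nb (bar d) (C.nb d i) ≠ C.nb d (C.nb (bar d) i)

/-- the parameters -/
abbrev Par (r : ℕ) : Type := Dir r × ℕ → ℤ

def ph (i : Vx g) : ℤ := if i = 0 then 0 else 1

namespace Cfg

variable (C : Cfg g r)

/-- the vertices differ in two slots -/
def Far (i m : Vx g) : Prop :=
  ∃ d d', d ≠ d' ∧ C.crd i d ≠ C.crd m d ∧ C.crd i d' ≠ C.crd m d'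

def al (z : Par r) (i : Vx g) : ℤ := if i = 0 then 1 else ∑ d, lam d * z (d, C.crd i d)

def be (z : Par r) (i : Vx g) : ℤ := if i = 0 then 1 else ∑ d, mu d * z (d, C.crd i d)

def pp (z : Par r) (i : Vx g) : ℤ := ph i * ∏ l ∈ univ.erase i, C.al z l

def qq (z : Par r) (i : Vx g) : ℤ := C.be z i * ∏ l ∈ univ.erase i, C.al z l

/-- the pencil -/
def pen (z : Par r) : HS g 2 := fam 1 (C.pp z) (C.qq z)

def fx (z : Par r) (i j : Vx g) (s : Fin 2) : ℤ := C.al z j * ph i + sg s * C.al z i * ph j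

def fy (z : Par r) (i j : Vx g) (s : Fin 2) : ℤ := C.al z j * C.be z i + sg s * C.al z i * C.be z j

/-- the resultant of two forms, without the common factors -/
def DD (z : Par r) (i j : Vx g) (s : Fin 2) (k l : Vx g) (t : Fin 2) : ℤ :=
  C.fx z i j s * C.fy z k l t - C.fy z i j s * C.fx z k l t

def dt (z : Par r) (a b : Vx g) : ℤ := ph a * C.be z b - C.be z a * ph b

/-- the determinant of three points -/
def D3 (z : Par r) (a b : Vx g) (s : Fin 2) (m : Vx g) (t : Fin 2) : ℤ :=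
  sg s * C.al z m * C.dt z a b + sg t * C.al z b * C.dt z m a + sg s * sg t * C.al z a * C.dt z m b

def LL (i : Vx g) (s : Fin 2) (m : Vx g) (t : Fin 2) (z : Par r) : ℤ :=
  C.be z m + sg t * C.al z m - C.be z i - sg s * C.al z i

def GG (i j : Vx g) (s : Fin 2) (d : Fin r × Bool) (z : Par r) : ℤ :=
  lam (.inr d) * (C.be z j - C.be z i) + mu (.inr d) * (sg s * C.al z j + C.al z i)

/-- generic parameters with private primes -/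
structure Gn (z : Par r) : Prop where
  al : ∀ i, C.al z i ≠ 0
  dd : ∀ h k : Ed g × Fin 2, h ≠ k → C.DD z h.1.1.1 h.1.1.2 h.2 k.1.1.1 k.1.1.2 k.2 ≠ 0
  pl : ∀ i s₀ m₀ t₀, i ≠ 0 → m₀ ≠ 0 → m₀ ≠ i → s₀ ≠ t₀ ∨ C.Far i m₀ → ∃ p : ℕ, p.Prime ∧
    ∀ s m t, m ≠ 0 → m ≠ i →
      w p (C.LL i s m t z : ℤ) = if s = s₀ ∧ m = m₀ ∧ t = t₀ then 1 else 0
  pg : ∀ i j d₀, i ≠ 0 → j ≠ 0 → C.Far i j → ∃ p : ℕ, p.Prime ∧
    ∀ s d, w p (C.GG i j s d z : ℤ) = if s = 1 ∧ d = d₀ then 1 else 0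

/-- the generators of the residue group besides the cuts -/
def Nx : Option (Fin r) → Ed g × Fin 2 → Prop
  | none, h => h.2 = 1
  | some k, h => h.2 = 0 ∧ h.1.1.1 ≠ 0 ∧ ∃ b, h.1.1.2 = C.nb (k, b) h.1.1.1

open Classical in
def blk (S : Finset (Option (Fin r))) : Finset (Ed g × Fin 2) := univ.filter fun h => ∃ x ∈ S, C.Nx x h

end Cfg

/-! ### functions of the parameters -/

def Lin {V : Type} (f : (V → ℤ) → ℤ) : Prop := ∀ (x y : V → ℤ) (n : ℤ), f (x + n • y) = f x + n * f y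

/-- polynomial on every line -/
def Pl {V : Type} (D : (V → ℤ) → ℤ) : Prop :=
  ∀ x y : V → ℤ, ∃ P : ℤ[X], ∀ n : ℤ, D (x + n • y) = P.eval n

def TT (p q : Vx g → ℤ) (a b : Vx g) (s : Fin 2) (m : Vx g) (t : Fin 2) : ℤ :=
  (p a + sg t * p m) * (q a + sg s * q b) - (q a + sg t * q m) * (p a + sg s * p b)

def tau (y : Finset (Ed g × Fin 2)) (a b : Vx g) (s : Fin 2) (m : Vx g) (t : Fin 2) : ZMod 2 :=
  Y y a b s + Y y a m t + Y y b m (s + t)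

/-- every difference of roots has a prime of its own -/
def Pv (a : Vx g → ℤ) : Prop := ∀ e : Ed g, ∃ p : ℕ, p.Prime ∧
  ∀ e' : Ed g, w p (a e'.1.2 - a e'.1.1 : ℤ) = if e' = e then 1 else 0

/-- the endomorphisms that commute with a subgroup of finite index are scalars on the 2-power
torsion -/
def Rig {G A : Type} [Group G] [AddCommGroup A] (ρ : G → A →+ A) : Prop :=
  ∀ U : Subgroup G, U.FiniteIndex → ∀ φ : A →+ A, (∀ σ ∈ U, ∀ P, φ (ρ σ P) = ρ σ (φ P)) →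
    ∀ k : ℕ, ∃ n : ℤ, ∀ P, 2 ^ k • P = 0 → φ P = n • P

/-! ### the statements -/

/-- finitely many polynomial conditions on a submodule -/
def AVOStmt : Prop := ∀ (V J : Type) [Finite J] (S : Submodule ℤ (V → ℤ)) (D : J → (V → ℤ) → ℤ),
  (∀ j, Pl (D j)) → (∀ j, ∃ z ∈ S, D j z ≠ 0) → ∃ z ∈ S, ∀ j, D j z ≠ 0

/-- private primes for linear forms -/
def LINStmt : Prop := ∀ (V K J : Type) [Finite K] [Finite J] (f : K → (V → ℤ) → ℤ)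
  (D : J → (V → ℤ) → ℤ), (∀ k, Lin (f k)) → (∀ j, Pl (D j)) → (∀ j, ∃ z, D j z ≠ 0) →
  ∃ z, (∀ j, D j z ≠ 0) ∧ ∀ k, (∃ x, f k x ≠ 0) → ∃ p : ℕ, p.Prime ∧ (p : ℤ) ∣ f k z ∧
    ¬(p : ℤ) ^ 2 ∣ f k z ∧ ∀ k', (∃ x, f k x = 0 ∧ f k' x ≠ 0) → ¬(p : ℤ) ∣ f k' z

def CFGStmt : Prop := ∀ g r : ℕ, 1 ≤ g → 6 ^ r ∣ 2 * g → ∃ C : Cfg g r, C.Ok

/-- a point on the axis that is not on a chord -/
def NEQStmt : Prop := ∀ (g r : ℕ) (C : Cfg g r), C.Ok → ∀ (i k l : Vx g) (t : Fin 2),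
  i ≠ 0 → k ≠ 0 → l ≠ 0 → i ≠ k → i ≠ l → k ≠ l →
  ¬(∃ d, k = C.nb d i ∧ l = C.nb (bar d) i) → ∃ z, C.al z i = 0 ∧
    C.al z l * (C.be z k - C.be z i) + sg t * C.al z k * (C.be z l - C.be z i) ≠ 0

/-- the forms are generically not proportional -/
def NEStmt : Prop := ∀ (g r : ℕ) (C : Cfg g r), C.Ok → ∀ h k : Ed g × Fin 2, h ≠ k →
  ∃ z, C.DD z h.1.1.1 h.1.1.2 h.2 k.1.1.1 k.1.1.2 k.2 ≠ 0

def NPLStmt : Prop := ∀ (g r : ℕ) (C : Cfg g r), C.Ok → ∀ i s₀ m₀ t₀, i ≠ 0 → m₀ ≠ 0 → m₀ ≠ i →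
  s₀ ≠ t₀ ∨ C.Far i m₀ → (∃ x, C.LL i s₀ m₀ t₀ x ≠ 0) ∧
    ∀ s m t, m ≠ 0 → m ≠ i → ¬(s = s₀ ∧ m = m₀ ∧ t = t₀) →
      ∃ x, C.LL i s₀ m₀ t₀ x = 0 ∧ C.LL i s m t x ≠ 0

def NPGStmt : Prop := ∀ (g r : ℕ) (C : Cfg g r), C.Ok → ∀ i j d₀, i ≠ 0 → j ≠ 0 → C.Far i j →
  (∃ x, C.GG i j 1 d₀ x ≠ 0) ∧
    ∀ s d, ¬(s = 1 ∧ d = d₀) → ∃ x, C.GG i j 1 d₀ x = 0 ∧ C.GG i j s d x ≠ 0

def PARStmt : Prop := ∀ (g r : ℕ) (C : Cfg g r), C.Ok → ∃ z, C.Gn z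

/-- the residue conditions of the two forms of a pair, multiplied -/
def COREStmt : Prop := ∀ (g : ℕ) (p q : Vx g → ℤ),
  (∀ h k, h ≠ k → (fam 1 p q).LZ h ((fam 1 p q).rootZ k) ≠ 0) →
  (∀ (e : Ed g) s m t, ¬On m e → TT p q e.1.1 e.1.2 s m t ≠ 0) ∧
  ∀ u y, (fam 1 p q).InS u y → ∀ (l : ℕ), l.Prime → ∀ e : Ed g,
    ∑ s, ∑ m ∈ univ.filter (fun m => ¬On m e), ∑ t,
      tau y e.1.1 e.1.2 s m t * w l (TT p q e.1.1 e.1.2 s m t : ℤ) = 0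

def BOTHStmt : Prop := ∀ (g r : ℕ) (C : Cfg g r) (z : Par r), C.Gn z →
  (∀ h k, h ≠ k → (C.pen z).LZ h ((C.pen z).rootZ k) ≠ 0) ∧
  (∀ (e : Ed g) s m t, ¬On m e → C.D3 z e.1.1 e.1.2 s m t ≠ 0) ∧
  ∀ u y, (C.pen z).InS u y → ∀ (l : ℕ), l.Prime → ∀ e : Ed g,
    ∑ s, ∑ m ∈ univ.filter (fun m => ¬On m e), ∑ t,
      tau y e.1.1 e.1.2 s m t * w l (C.D3 z e.1.1 e.1.2 s m t : ℤ) = 0

/-- the triangles through the vertex `0` -/
def RES1Stmt : Prop := ∀ (g r : ℕ) (C : Cfg g r) (z : Par r), C.Ok → C.Gn z → ∀ u y,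
  (C.pen z).InS u y → ∀ i s m t, i ≠ 0 → m ≠ 0 → m ≠ i → s ≠ t ∨ C.Far i m → tau y 0 i s m t = 0

/-- the edges of the hexagons; `c` is the part of `y` on these edges -/
def RES2Stmt : Prop := ∀ (g r : ℕ) (C : Cfg g r) (z : Par r), C.Ok → C.Gn z → ∀ u y,
  (C.pen z).InS u y → ∀ (c : Vx g → Fin r × Bool → ZMod 2) (e : Ed g), e.1.1 ≠ 0 →
  C.Far e.1.1 e.1.2 → (∀ s m t, ¬On m e → tau y e.1.1 e.1.2 s m t =
    (∑ d, if m = C.nb d e.1.1 ∧ t = 0 then c e.1.1 d else 0) +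
      ∑ d, if m = C.nb d e.1.2 ∧ t = s then c e.1.2 d else 0) →
  ∀ d, c e.1.1 d = c e.1.2 (bar d)

def RESStmt : Prop := ∀ (g r : ℕ) (C : Cfg g r) (z : Par r), C.Ok → C.Gn z → ∀ u y,
  (C.pen z).InS u y → ∃ α S, y = symmDiff (cut 2 α) (C.blk S)

/-- a section of the pencil gives a class in the residue group -/
def SECGStmt : Prop := ∀ (g n : ℕ) (F : HS g n) (u : Vx g → ℚ) (y : Finset (Ed g × Fin n))
  (x : ℚ) (P Q : ℤ), F.Bas → Q ≠ 0 → (∀ i, u i ≠ 0) → IsSquare (∏ i, u i) →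
  (∀ i, Even (y.filter fun h => On i h.1).card) → (∀ h ∈ y, ∀ k ∈ y, h.1 = k.1 → h = k) →
  (∀ (K : Type) [Field K] [CharZero K] (v : K × K) (i : Vx g),
    x * (P * v.1 + Q * v.2) ^ 2 - F.a v i =
      F.del u y v i * (if i = 0 then P * v.1 + Q * v.2 else 1) ^ 2) → F.Gd u y

def SECStmt : Prop := ∀ (g r : ℕ) (C : Cfg g r) (z : Par r), C.Ok → C.Gn z → (C.pen z).Bas →
  ∀ k, ∃ u, (C.pen z).Gd u (C.blk {some k})

def CRITStmt : Prop := ∀ (g r : ℕ) (C : Cfg g r) (F : HS g 2), C.Ok → F.Bas →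
  (∀ x, ∃ u, F.Gd u (C.blk {x})) →
  (∀ u y, F.InS u y → ∃ α S, y = symmDiff (cut 2 α) (C.blk S)) → F.Hyp (r + 1)

open Classical in
/-- THEOREM J with private primes -/
def FINPStmt : Prop := ∀ (g n r : ℕ) (F : HS g n), F.Hyp r → ∃ c : ℝ, 0 < c ∧ ∀ᶠ H : ℕ in atTop,
  c * (H : ℝ) ^ 2 ≤ (((Icc (-H : ℤ) H ×ˢ Icc (-H : ℤ) H).filter fun v : ℤ × ℤ =>
    IsCoprime v.1 v.2 ∧ JGood g r (F.fibre v) ∧ Pv (F.aZ v)).card : ℝ)

/-- an automorphism that changes the sign of one square root -/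
def GALStmt : Prop := ∀ (ι : Type) [Fintype ι] [DecidableEq ι] (x : ι → ℚ) (i₀ : ι) (p : ℕ),
  p.Prime → (∀ i, x i ≠ 0) → (∀ i, w p (x i) = if i = i₀ then 1 else 0) →
  ∃ σ : Qbar ≃ₐ[ℚ] Qbar, ∀ (i : ι) (ρ : Qbar), ρ ^ 2 = x i → σ ρ = if i = i₀ then -ρ else ρ

/-- transvections on the second layer force scalars -/
def ABSStmt : Prop := ∀ (G A ι : Type) [Group G] [AddCommGroup A] [Fintype ι] [DecidableEq ι]
  (ρ : G → A →+ A) (W : ι → A), (∀ σ τ P, ρ (σ * τ) P = ρ σ (ρ τ P)) →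
  (∀ P : A, ∃ Q, 2 • Q = P) → Odd (Fintype.card ι) → 3 ≤ Fintype.card ι →
  Function.Injective W → (∀ i, 2 • W i = 0) → ∑ i, W i = 0 → (∀ σ i, ρ σ (W i) = W i) →
  (∀ P : A, 2 • P = 0 → ∃ S : Finset ι, P = ∑ i ∈ S, W i) →
  (∀ k l, k ≠ l → ∃ σ, ∀ i Q, 2 • Q = W i →
    ρ σ Q - Q = if i = k ∨ i = l then W k + W l else 0) → Rig ρ

def KUMStmt : Prop := ∀ (g : ℕ) (a : Vx g → ℤ), 1 ≤ g → Function.Injective a → Pv a →
  Rig (jac (fp fun i => (a i : ℚ)))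

def EXRStmt : Prop := ∀ g r : ℕ, 1 ≤ g → 6 ^ r ∣ 2 * g →
  ∃ p q : Vx g → ℤ, (fam 1 p q).Hyp (r + 1)

theorem exr_of (fm : FAMStmt) (avo : AVOStmt) (lin : AVOStmt → LINStmt) (cfg : CFGStmt)
    (neq : AVOStmt → NEQStmt) (ne : AVOStmt → NEQStmt → NEStmt) (npl : NPLStmt) (npg : NPGStmt)
    (par : LINStmt → NEStmt → NPLStmt → NPGStmt → PARStmt) (core : COREStmt)
    (both : COREStmt → BOTHStmt) (res1 : BOTHStmt → RES1Stmt) (res2 : BOTHStmt → RES2Stmt)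
    (res : RES1Stmt → RES2Stmt → RESStmt) (secg : SECGStmt) (sec : SECGStmt → SECStmt)
    (crit : CRITStmt) : EXRStmt := by
  intro g r hg hr
  obtain ⟨C, hC⟩ := cfg g r hg hr
  obtain ⟨z, hz⟩ := par (lin avo) (ne avo (neq avo)) npl npg g r C hC
  have hb := both core
  obtain ⟨hF, h1⟩ := fm g 1 (C.pp z) (C.qq z) hg one_ne_zero (hb g r C z hz).1
  refine ⟨_, _, crit g r C _ hC hF (fun x => ?_) (res (res1 hb) (res2 hb) g r C z hC hz)⟩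
  cases x with
  | none =>
    have e : C.blk {none} = lay g {1} := by
      ext h
      simp [Cfg.blk, Cfg.Nx, lay]
    exact ⟨_, e ▸ h1 rfl⟩
  | some k => exact sec secg g r C z hC hz hF k

end Pool.Agent.MP_a43263_nt.JR
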